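import Pool.Agent.H4.IS.Burn
import Pool.Agent.H71.IS.Last

set_option autoImplicit false

/-!
The normaliser of a Sylow 2-subgroup of order four.
-/

namespace ALoop

theorem norm_four {M : Type*} [Group M] [Finite M] {K S : Subgroup M} (hS : IsSyl K S)
    (hS4 : Nat.card S = 4) (hab : ∀ a ∈ S, ∀ b ∈ S, a * b = b * a) (h3 : ¬ 3 ∣ Nat.card K)
    {n : M} (hn : n ∈ K) (hnS : ∀ s ∈ S, n * s * n⁻¹ ∈ S) : ∀ s ∈ S, n * s = s * n := by
  classical
  have hnS' := norm_symm hnS
  let X := {s : M // s ∈ S ∧ s ≠ 1}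
  have hfin : Finite X := Subtype.finite
  have : Fintype X := Fintype.ofFinite X
  have hX : Fintype.card X = 3 := by
    have h1 : Nat.card S = Nat.card X + 1 := by
      have h2 : (S : Set M).ncard = ((S : Set M) \ {1}).ncard + 1 :=
        (Set.ncard_sdiff_singleton_add_one (show (1 : M) ∈ (S : Set M) from S.one_mem)
          (Set.toFinite _)).symm
      have h3 : Nat.card X = ((S : Set M) \ {1}).ncard := by
        rw [← Nat.card_coe_set_eq]
        apply Nat.card_congr
        apply Equiv.subtypeEquivRight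
        intro s
        exact Iff.rfl
      rw [h3]
      exact h2
    rw [← Nat.card_eq_fintype_card]
    omega
  let π : Equiv.Perm X :=
    { toFun := fun s => ⟨n * s.1 * n⁻¹, hnS _ s.2.1, fun hh => s.2.2 (by
        have : (s.1 : M) = n⁻¹ * (n * s.1 * n⁻¹) * n := by group
        rw [this, hh]; group)⟩
      invFun := fun s => ⟨n⁻¹ * s.1 * n, hnS' _ s.2.1, fun hh => s.2.2 (by
        have : (s.1 : M) = n * (n⁻¹ * s.1 * n) * n⁻¹ := by group
        rw [this, hh]; group)⟩
      left_inv := fun s => Subtype.ext (by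
        change n⁻¹ * (n * s.1 * n⁻¹) * n = s.1
        group)
      right_inv := fun s => Subtype.ext (by
        change n * (n⁻¹ * s.1 * n) * n⁻¹ = s.1
        group) }
  have hπ : ∀ (k : ℕ) (s : X), ((π ^ k) s : M) = n ^ k * s.1 * (n ^ k)⁻¹ := by
    intro k
    induction k with
    | zero => intro s; simp
    | succ k ih =>
      intro s
      rw [pow_succ', Equiv.Perm.mul_apply]
      change n * ((π ^ k) s : M) * n⁻¹ = _
      rw [ih, pow_succ']
      group
  -- an odd power is trivial
  obtain ⟨r, hr, j, hj⟩ := exists_odd_pow n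
  have hrS : n ^ r ∈ S := by
    refine hS.mem_of_norm (K.pow_mem hn r) ?_ hj
    intro s hs
    by_cases h1 : s = 1
    · rw [h1, mul_one, mul_inv_cancel]; exact S.one_mem
    · have h2 := hπ r ⟨s, hs, h1⟩
      rw [← h2]
      exact ((π ^ r) ⟨s, hs, h1⟩).2.1
  have hπr : π ^ r = 1 := by
    ext s
    rw [hπ, hab _ hrS _ s.2.1, mul_inv_cancel_right]
    rfl
  have h6 : orderOf π ∣ 6 := by
    have h1 := orderOf_dvd_card (x := π)
    rw [Fintype.card_perm, hX] at h1
    exact h1
  have hor : orderOf π ∣ r := orderOf_dvd_of_pow_eq_one hπr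
  have hodd : ¬ 2 ∣ orderOf π := by
    intro h1
    have h2 := dvd_trans h1 hor
    rw [← even_iff_two_dvd] at h2
    exact (Nat.not_even_iff_odd.2 hr) h2
  have hord : orderOf π ∣ orderOf n := by
    apply orderOf_dvd_of_pow_eq_one
    ext s
    rw [hπ, pow_orderOf_eq_one]
    simp
  have hn3 : ¬ 3 ∣ orderOf π := by
    intro h1
    apply h3
    have h2 : orderOf n ∣ Nat.card K := by
      have := orderOf_dvd_natCard (⟨n, hn⟩ : K)
      rwa [← Subgroup.orderOf_coe] at this
    exact dvd_trans h1 (dvd_trans hord h2)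
  have h1 : orderOf π = 1 := by
    have hle := Nat.le_of_dvd (by norm_num) h6
    have hpos := Nat.pos_of_dvd_of_pos h6 (by norm_num)
    interval_cases hh : orderOf π
    · rfl
    · exact absurd (by norm_num) hodd
    · exact absurd (by norm_num) hn3
    · exact absurd (by norm_num) hodd
    · exact absurd h6 (by norm_num)
    · exact absurd (by norm_num) hodd
  rw [orderOf_eq_one_iff] at h1
  intro s hs
  by_cases hs1 : s = 1
  · rw [hs1, mul_one, one_mul]
  · have h2 := hπ 1 ⟨s, hs, hs1⟩
    rw [h1, one_pow] at h2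
    have h4 : s = n ^ 1 * s * (n ^ 1)⁻¹ := h2
    rw [pow_one] at h4
    calc n * s = (n * s * n⁻¹) * n := by group
      _ = s * n := by rw [← h4]

end ALoop
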