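import Pool.Agent.H4.IS.Fus2

set_option autoImplicit false

/-!
(F), (R): fusion of the elements of `Z` in `S`.
-/

namespace ALoop

open Equiv

variable {Q : Type*} {G : Subgroup (Perm Q)} {L : Q → Perm Q} {J : Perm Q} {e : Q}
  {S T : Subgroup (Perm Q)} {x : Q}

namespace TE

/-- (F) -/
theorem ZS_fus [Finite Q] (h : AL G L J e) (d : TE G J e S T) (hc : HC G e S) (hJG : J ∉ G)
    {g z : Perm Q} (hg : g ∈ G) (hz : z ∈ Z L J) (hzS : z ∈ S) (hgS : g * z * g⁻¹ ∈ S) :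
    g * z * g⁻¹ = z := by
  set z' := g * z * g⁻¹ with hz'
  have hC : ∀ a : Perm Q, a ∈ (G ⊓ Subgroup.centralizer {z'} : Subgroup (Perm Q)) ↔
      a ∈ G ∧ a * z' = z' * a := by
    intro a
    rw [Subgroup.mem_inf, Subgroup.mem_centralizer_singleton_iff]
  have hTC : IsSyl (G ⊓ Subgroup.centralizer {z'} : Subgroup (Perm Q)) T :=
    d.hT.mono (fun t ht => (hC t).2 ⟨d.hT.1 ht, d.cen t ht _ hgS⟩) inf_le_left
  obtain ⟨c, hcC, hcT⟩ := hTC.conj_mem d.hT.2.1 g⁻¹ (by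
    intro t ht
    rw [inv_inv]
    refine (hC _).2 ⟨G.mul_mem (G.mul_mem hg (d.hT.1 ht)) (G.inv_mem hg), ?_⟩
    have h1 := d.cen t ht z hzS
    calc g * t * g⁻¹ * z' = g * (t * z) * g⁻¹ := by rw [hz']; group
      _ = g * (z * t) * g⁻¹ := by rw [h1]
      _ = z' * (g * t * g⁻¹) := by rw [hz']; group)
  obtain ⟨hcG, hcz⟩ := (hC c).1 hcC
  have h1 := d.norm_cent h hc hJG (G.mul_mem hcG hg) (by
    intro t ht
    have h2 := hcT t ht
    rw [inv_inv] at h2
    have h3 : c * g * t * (c * g)⁻¹ = c * (g * t * g⁻¹) * c⁻¹ := by group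
    rw [h3]; exact h2) hz hzS
  have h2 : c * g * z * (c * g)⁻¹ = z' := by
    calc c * g * z * (c * g)⁻¹ = (c * z') * c⁻¹ := by rw [hz']; group
      _ = (z' * c) * c⁻¹ := by rw [hcz]
      _ = z' := by group
  rw [← h2]; exact h1

/-- an element of `T` that maps `e` to `x`, and commutation with `L x` -/
theorem exists_tx [Finite Q] (h : AL G L J e) (d : TE G J e S T) (hJx : J x = x) (hxe : x ≠ e)
    (hx : ∀ s ∈ S, s x = x) :
    ∃ t ∈ T, t e = x ∧ ∀ m ∈ T, m * t = t * m → m * L x = L x * m := by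
  obtain ⟨n, hn, k, hk⟩ := exists_odd_pow (L x)
  set t := L x ^ n with ht
  have htG : t ∈ G := G.pow_mem (h.memL x) n
  have hconj : ∀ m ∈ T, ∃ u ∈ S, L x * u = m⁻¹ * L x * m ∧ m⁻¹ * t * m = t * u := by
    intro m hm
    obtain ⟨u, huS, h1, huu, huL⟩ := d.comm_mem h hJx hxe hx hm
    refine ⟨u, huS, h1, ?_⟩
    have h2 : m⁻¹ * t * m = (m⁻¹ * L x * m) ^ n := by
      have := conj_pow (i := n) (a := m⁻¹) (b := L x)
      rw [inv_inv] at this
      exact this.symm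
    have h3 : Commute (L x) u := huL.symm
    rw [h2, ← h1, h3.mul_pow, ht]
    congr 1
    obtain ⟨j, rfl⟩ := hn
    rw [pow_succ, pow_mul, pow_two, huu, one_pow, one_mul]
  have htT : t ∈ T := by
    have h1 : t⁻¹ ∈ T := by
      refine d.hT.mem_of_norm (G.inv_mem htG) ?_ (n := k) (by rw [inv_pow, hk, inv_one])
      intro s hs
      obtain ⟨u, huS, -, h2⟩ := hconj s⁻¹ (T.inv_mem hs)
      rw [inv_inv] at h2
      have h3 : t⁻¹ * s * t⁻¹⁻¹ = u * s := by
        calc t⁻¹ * s * t⁻¹⁻¹ = t⁻¹ * (s * t * s⁻¹) * s := by group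
          _ = t⁻¹ * (t * u) * s := by rw [h2]
          _ = u * s := by group
      rw [h3]
      exact T.mul_mem (d.ST huS) hs
    have h2 := T.inv_mem h1
    rwa [inv_inv] at h2
  refine ⟨t, htT, ?_, ?_⟩
  · have h2e : (L x ^ 2) e = e := by
      rw [pow_two, Perm.mul_apply, h.Le, h.LxLx hJx]
    obtain ⟨j, rfl⟩ := hn
    rw [ht, pow_succ', pow_mul, Perm.mul_apply,
      Perm.pow_apply_eq_self_of_apply_eq_self h2e, h.Le]
  · intro m hm hmt
    obtain ⟨u, huS, h1, h2⟩ := hconj m hm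
    have h3 : m⁻¹ * t * m = t := by
      rw [mul_assoc, ← hmt]; group
    rw [h3] at h2
    have h4 : u = 1 := mul_eq_left.1 h2.symm
    rw [h4, mul_one] at h1
    calc m * L x = m * (m⁻¹ * L x * m) := by rw [← h1]
      _ = L x * m := by group

theorem comLx' [Finite Q] (h : AL G L J e) (d : TE G J e S T) (hJx : J x = x) (hxe : x ≠ e)
    (hx : ∀ s ∈ S, s x = x) {m t : Perm Q} (hm : m ∈ T) (ht : t ∈ T) (hte : t e = x)
    (hmt : m * t = t * m) : m * L x = L x * m := by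
  obtain ⟨t', ht', hte', hcom⟩ := d.exists_tx h hJx hxe hx
  apply hcom m hm
  have h1 : t⁻¹ * t' ∈ S := by
    apply d.TH _ (T.mul_mem (T.inv_mem ht) ht')
    rw [Perm.mul_apply, hte', Perm.inv_eq_iff_eq, hte]
  have c1 : Commute m (t⁻¹ * t') := d.cen m hm _ h1
  have c2 : Commute m t := hmt
  have c3 := c2.mul_right c1
  rw [mul_inv_cancel_left] at c3
  exact c3

/-- half of (R) -/
theorem half' [Finite Q] (h : AL G L J e) (d : TE G J e S T) (hc : HC G e S) (hJG : J ∉ G)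
    {z g k : Perm Q} (hz : z ∈ Z L J) (hzS : z ∈ S) (hg : g ∈ G) (hk : k ∈ G) {q : Q}
    (hkq : k e = q) (hwq : (g * z * g⁻¹) q = q)
    (hcom : (g * z * g⁻¹) * (k * z * k⁻¹) = (k * z * k⁻¹) * (g * z * g⁻¹)) :
    k⁻¹ * (g * z * g⁻¹) * k = z := by
  set w := g * z * g⁻¹ with hw
  have hwZ : w ∈ Z L J := h.Z_conj hz hg
  set y := k⁻¹ * w * k with hy
  have hyZ : y ∈ Z L J := by
    have := h.Z_conj hwZ (G.inv_mem hk)
    rwa [inv_inv] at this
  have hye : y e = e := by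
    rw [hy, Perm.mul_apply, Perm.mul_apply, hkq, hwq, Perm.inv_eq_iff_eq, hkq]
  have hyz : y * z = z * y := by
    calc y * z = k⁻¹ * (w * (k * z * k⁻¹)) * k := by rw [hy]; group
      _ = k⁻¹ * ((k * z * k⁻¹) * w) * k := by rw [hcom]
      _ = z * y := by rw [hy]; group
  have hmB : ∀ b : Perm Q, b ∈ (Inn G e ⊓ Subgroup.centralizer {z} : Subgroup (Perm Q)) ↔
      b ∈ Inn G e ∧ b * z = z * b := by
    intro b
    rw [Subgroup.mem_inf, Subgroup.mem_centralizer_singleton_iff]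
  have hSB : IsSyl (Inn G e ⊓ Subgroup.centralizer {z} : Subgroup (Perm Q)) S := d.hS.mono
    (fun s hs => (hmB s).2 ⟨d.hS.1 hs, d.hab s hs z hzS⟩) inf_le_left
  have hyB := (hmB y).2 ⟨mem_Inn.2 ⟨h.Z_mem hyZ, hye⟩, hyz⟩
  obtain ⟨c, hc', hcS⟩ := hSB.conj_mem (T := Subgroup.zpowers y)
    (zpowers_isPGroup (n := 1) (by rw [pow_one, pow_two, h.Z_sq hyZ])) 1 (by
      rintro _ ⟨i, rfl⟩
      rw [inv_one, one_mul, mul_one]
      exact Subgroup.zpow_mem _ hyB i)
  have h1 := hcS y (Subgroup.mem_zpowers y)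
  rw [inv_one, one_mul, mul_one] at h1
  obtain ⟨hcI, hcz⟩ := (hmB c).1 hc'
  have hcG := (mem_Inn.1 hcI).1
  have h2 := d.ZS_fus h hc hJG (g := c * k⁻¹ * g) (G.mul_mem (G.mul_mem hcG (G.inv_mem hk)) hg)
    hz hzS (by
      have h3 : c * k⁻¹ * g * z * (c * k⁻¹ * g)⁻¹ = c * y * c⁻¹ := by rw [hy, hw]; group
      rw [h3]; exact h1)
  calc y = c⁻¹ * (c * k⁻¹ * g * z * (c * k⁻¹ * g)⁻¹) * c := by rw [hy, hw]; group
    _ = c⁻¹ * (z * c) := by rw [h2]; group
    _ = z := by rw [← hcz, inv_mul_cancel_left]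

/-- (R) -/
theorem ZR [Finite Q] (h : AL G L J e) (d : TE G J e S T) (hc : HC G e S) (hJG : J ∉ G)
    (hJx : J x = x) (hxe : x ≠ e) (hx : ∀ s ∈ S, s x = x) {g t : Perm Q} (hg : g ∈ G)
    (ht : t ∈ T) (hte : t e = x) (hwT : g * (D L J x * J) * g⁻¹ ∈ T)
    (hwt : g * (D L J x * J) * g⁻¹ * t = t * (g * (D L J x * J) * g⁻¹)) :
    g * (D L J x * J) * g⁻¹ = D L J x * J := by
  have hzx := h.zx_mem hJx hxe
  have hzS := h.zS d.hS hx hJx hxe
  have hwZ := h.Z_conj hzx hg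
  have half1 := fun {k : Perm Q} (hk : k ∈ G) {q : Q} (hkq : k e = q) =>
    d.half' h hc hJG hzx hzS hg hk hkq
  set w := g * (D L J x * J) * g⁻¹ with hw
  have hwG := h.Z_mem hwZ
  obtain ⟨q, hq⟩ := h.Z_fix hwZ
  have hRG := h.memR q
  have hRe : (J * L (J q) * J) e = q := by rw [h.R_apply, h.Le1, Perm.one_apply]
  have hwL := d.comLx' h hJx hxe hx hwT ht hte hwt
  have hwR : w * (J * L x * J) = (J * L x * J) * w := by
    rw [h.zt_eq hJx]
    have c1 : Commute w (D L J x * J) := d.cen w hwT _ hzS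
    have c2 : Commute w (L x) := hwL
    exact c1.mul_right c2
  have h0 : (J * L x * J) q = L q x := by
    have := h.R_apply q x
    rwa [hJx] at this
  have hR1 : (J * L (J q) * J) * (D L J x * J) * (J * L (J q) * J)⁻¹ =
      D L J (L x q) * D L J q := by
    have h2 := h.D_conj hRG x
    have h3 := h.D_conj hRG e
    rw [h.R_apply] at h2
    rw [hRe, h.D_e] at h3
    rw [← h2, ← h3]; group
  have hL1 : L q * (D L J x * J) * (L q)⁻¹ = D L J ((J * L x * J) q) * D L J q := by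
    have h2 := h.D_conj (h.memL q) x
    have h3 := h.D_conj (h.memL q) e
    rw [h.Le, h.D_e] at h3
    rw [h0, ← h2, ← h3]; group
  have hR := half1 hRG hRe hq (by
    have h4 : w (L x q) = L x q := by rw [← Perm.mul_apply, hwL, Perm.mul_apply, hq]
    have c1 : Commute w (D L J (L x q)) := (h.D_cent hwG _).2 h4
    have c2 : Commute w (D L J q) := (h.D_cent hwG _).2 hq
    rw [hR1]
    exact c1.mul_right c2)
  have hL := half1 (h.memL q) (h.Le q) hq (by
    have h4 : w ((J * L x * J) q) = (J * L x * J) q := by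
      rw [← Perm.mul_apply, hwR, Perm.mul_apply, hq]
    have c1 : Commute w (D L J ((J * L x * J) q)) := (h.D_cent hwG _).2 h4
    have c2 : Commute w (D L J q) := (h.D_cent hwG _).2 hq
    rw [hL1]
    exact c1.mul_right c2)
  have e3 : w = D L J (L x q) * D L J q := by
    rw [← hR1]
    conv_rhs => rw [← hR]
    group
  have e4 : w = D L J ((J * L x * J) q) * D L J q := by
    rw [← hL1]
    conv_rhs => rw [← hL]
    group
  have e5 : L x q = (J * L x * J) q := h.D_inj (mul_right_cancel (e3.symm.trans e4))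
  have e6 : (D L J x * J) q = q := by
    rw [h.zt_eq hJx, h.Lx_z hJx hxe, Perm.mul_apply] at e5
    exact ((L x).injective e5).symm
  have h3 := h.kp_spec hzx e6
  rw [← h.Lx_kp hJx hxe e6] at h3
  have h4 : (D L J x * J) * D L J q = D L J q * (D L J x * J) :=
    (h.D_cent (h.Z_mem hzx) q).2 e6
  rw [e3, h3, mul_assoc, h4, ← mul_assoc, h.D_sq, one_mul]

end TE

end ALoop
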