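import Pool.Agent.H4.IS.BA

set_option autoImplicit false

/-!
(i), (ii): elements that normalise a subgroup between `S` and `T` normalise `S`.
-/

namespace ALoop

open Equiv

theorem exists_split {M : Type*} [Group M] [Finite M] (d : M) :
    ∃ (k : ℤ) (n j : ℕ), Odd n ∧ (d ^ k) ^ n = 1 ∧ (d ^ (1 - 2 * k)) ^ 2 ^ j = 1 := by
  obtain ⟨j, n, hn, hd⟩ := Nat.exists_eq_two_pow_mul_odd (orderOf_pos d).ne'
  have hcop : IsCoprime ((2 : ℤ) ^ (j + 1)) (n : ℤ) := by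
    apply IsCoprime.pow_left
    have h1 : Nat.Coprime 2 n := (Nat.coprime_two_left).2 hn
    exact_mod_cast h1.isCoprime
  obtain ⟨u, v, huv⟩ := hcop
  have hd1 : d ^ ((2 : ℤ) ^ j * n) = 1 := by
    have h1 : ((2 : ℤ) ^ j * n) = ((orderOf d : ℕ) : ℤ) := by rw [hd]; push_cast; ring
    rw [h1, zpow_natCast, pow_orderOf_eq_one]
  refine ⟨2 ^ j * u, n, j, hn, ?_, ?_⟩
  · rw [← zpow_natCast, ← zpow_mul]
    have h1 : (2 : ℤ) ^ j * u * n = (2 ^ j * n) * u := by ring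
    rw [h1, zpow_mul, hd1, one_zpow]
  · rw [← zpow_natCast, ← zpow_mul]
    have h1 : (1 - 2 * (2 ^ j * u)) * ((2 ^ j : ℕ) : ℤ) = (2 ^ j * n) * v := by
      push_cast
      have h2 : (1 : ℤ) - 2 * (2 ^ j * u) = v * n := by
        rw [← huv, pow_succ]; ring
      rw [h2]; ring
    rw [h1, zpow_mul, hd1, one_zpow]

variable {Q : Type*} {G : Subgroup (Perm Q)} {L : Q → Perm Q} {J : Perm Q} {e : Q}
  {S T : Subgroup (Perm Q)} {x : Q}

namespace TE

theorem J_S (h : AL G L J e) (d : TE G J e S T) {s : Perm Q} (hs : s ∈ S) : s * J = J * s :=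
  h.comJ s (d.hS.1 hs).1 (d.hS.1 hs).2

/-- (i) -/
theorem odd_norm [Finite Q] (h : AL G L J e) (d : TE G J e S T) (hc : HC G e S) (hJG : J ∉ G)
    {X : Subgroup (Perm Q)} (hSX : S ≤ X) (hXT : X ≤ T) {r : Perm Q} (hr : r ∈ G) {n : ℕ}
    (hn : Odd n) (hrn : r ^ n = 1) (hJr : J * r * J = r⁻¹)
    (hrX : ∀ y ∈ X, r * y * r⁻¹ ∈ X) : ∀ s ∈ S, r * s * r⁻¹ ∈ S := by
  by_contra hcon
  push Not at hcon
  obtain ⟨s, hs, hrs⟩ := hcon
  -- elements of `S` commute with `X`, so do their conjugates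
  have hcX : ∀ s ∈ S, ∀ y ∈ X, (r * s * r⁻¹) * y = y * (r * s * r⁻¹) := by
    intro s hs y hy
    have h1 : r⁻¹ * y * r ∈ X := norm_symm hrX y hy
    have h2 := d.cen _ (hXT h1) s hs
    calc (r * s * r⁻¹) * y = r * (s * (r⁻¹ * y * r)) * r⁻¹ := by group
      _ = r * ((r⁻¹ * y * r) * s) * r⁻¹ := by rw [h2]
      _ = y * (r * s * r⁻¹) := by group
  -- a power of `s`
  obtain ⟨s1, hs1, hs1n, hs1s⟩ : ∃ s1 ∈ S, r * s1 * r⁻¹ ∉ S ∧
      (r * s1 * r⁻¹) * (r * s1 * r⁻¹) ∈ S := by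
    classical
    have hex : ∃ m, r * s ^ 2 ^ m * r⁻¹ ∈ S := by
      obtain ⟨m, hm⟩ := isPGroup_elem d.hS.2.1 hs
      refine ⟨m, ?_⟩
      rw [hm, mul_one, mul_inv_cancel]
      exact S.one_mem
    have h1 := Nat.find_spec hex
    have h2 : Nat.find hex ≠ 0 := by
      intro h0
      rw [h0, pow_zero, pow_one] at h1
      exact hrs h1
    obtain ⟨m, hm⟩ := Nat.exists_eq_succ_of_ne_zero h2
    refine ⟨s ^ 2 ^ m, S.pow_mem hs _, Nat.find_min hex (by omega), ?_⟩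
    rw [hm] at h1
    have h3 : (r * s ^ 2 ^ m * r⁻¹) * (r * s ^ 2 ^ m * r⁻¹) = r * s ^ 2 ^ (m + 1) * r⁻¹ := by
      rw [pow_succ, pow_mul, pow_two]; group
    rw [h3]; exact h1
  set a := r * s1 * r⁻¹ with ha
  have haX : a ∈ X := hrX _ (hSX hs1)
  have haT := hXT haX
  have hrJ : J * r⁻¹ * J = r := by
    have h1 := congrArg (·⁻¹) hJr
    simp only [mul_inv_rev, h.Jinv, inv_inv] at h1
    rw [mul_assoc]; exact h1
  set b := J * a * J with hb
  have hb1 : b = r⁻¹ * s1 * r := by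
    have h1 := d.J_S h hs1
    have h2 : J * s1 * J = s1 := by rw [mul_assoc, h1, ← mul_assoc, h.JJ1, one_mul]
    calc b = (J * r * J) * (J * s1 * J) * (J * r⁻¹ * J) := by
            rw [hb, ha]
            calc J * (r * s1 * r⁻¹) * J = J * r * 1 * s1 * 1 * r⁻¹ * J := by group
              _ = J * r * (J * J) * s1 * (J * J) * r⁻¹ * J := by rw [h.JJ1]
              _ = _ := by group
      _ = r⁻¹ * s1 * r := by rw [hJr, h2, hrJ]
  have hba : b * a ∈ S := d.inv a haT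
  have hbX : b ∈ X := by
    have h1 : b = (b * a) * a⁻¹ := by group
    rw [h1]
    exact X.mul_mem (hSX hba) (X.inv_mem haX)
  have hab : a * b = b * a := hcX s1 hs1 b hbX
  set σ := a⁻¹ * b with hσ
  have hσS : σ ∈ S := by
    have h1 : σ = (a * a)⁻¹ * (b * a) := by
      rw [← hab, hσ]; group
    rw [h1]
    exact S.mul_mem (S.inv_mem hs1s) hba
  have hbσ : b = a * σ := by rw [hσ]; group
  have hSe : ∀ s ∈ S, s e = e := fun s hs => (d.hS.1 hs).2
  set x := a e with hx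
  have hxe : x ≠ e := fun h1 => hs1n (d.TH a haT h1)
  have hJx : J x = x := by
    have h1 : b e = J x := by
      rw [hb, Perm.mul_apply, Perm.mul_apply, h.Je]
    rw [← h1, hbσ, Perm.mul_apply, hSe σ hσS]
  have hSx : ∀ s ∈ S, s x = x := by
    intro s hs
    rw [hx, ← Perm.mul_apply, ← d.cen a haT s hs, Perm.mul_apply, hSe s hs]
  set z := D L J x * J with hz
  have hzb : z = a * b⁻¹ := by
    have h1 := h.D_conj (d.hT.1 haT) e
    rw [h.D_e] at h1
    have h3 : b⁻¹ = J⁻¹ * a⁻¹ * J⁻¹ := by rw [hb]; group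
    rw [h.Jinv] at h3
    rw [h3, hz, ← h1]
    group
  have hzZ := h.zx_mem hJx hxe
  have hzS := h.zS d.hS hSx hJx hxe
  rw [← hz] at hzZ hzS
  have hzz : z * z = 1 := h.Z_sq hzZ
  -- `r` does not commute with `z`
  have hrz : r * z ≠ z * r := by
    intro h1
    have c1 : Commute r z := h1
    have h2 : r ^ 2 * s1 * (r ^ 2)⁻¹ = z * s1 := by
      have h3 : a = z * b := by rw [hzb]; group
      have h4 : r * a * r⁻¹ = z * s1 := by
        calc r * a * r⁻¹ = (r * z) * b * r⁻¹ := by rw [h3]; group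
          _ = z * (r * b * r⁻¹) := by rw [h1]; group
          _ = z * s1 := by rw [hb1]; group
      rw [← h4, ha, pow_two]; group
    have h3 : ∀ k : ℕ, (r ^ 2) ^ k * s1 * ((r ^ 2) ^ k)⁻¹ = z ^ k * s1 := by
      intro k
      induction k with
      | zero => simp
      | succ k ih =>
        have c2 : Commute (r ^ 2) (z ^ k) := c1.pow_pow 2 k
        calc (r ^ 2) ^ (k + 1) * s1 * ((r ^ 2) ^ (k + 1))⁻¹
            = r ^ 2 * ((r ^ 2) ^ k * s1 * ((r ^ 2) ^ k)⁻¹) * (r ^ 2)⁻¹ := by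
              rw [pow_succ']; group
          _ = r ^ 2 * z ^ k * s1 * (r ^ 2)⁻¹ := by rw [ih]; group
          _ = z ^ k * (r ^ 2 * s1 * (r ^ 2)⁻¹) := by rw [c2.eq]; group
          _ = z ^ (k + 1) * s1 := by rw [h2, pow_succ]; group
    have h4 := h3 n
    rw [← pow_mul, mul_comm, pow_mul, hrn, one_pow, one_mul, inv_one, mul_one] at h4
    obtain ⟨i, rfl⟩ := hn
    rw [pow_succ, pow_mul, pow_two, hzz, one_pow, one_mul] at h4
    exact h.Z_ne hzZ (mul_eq_right.1 h4.symm)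
  have hw : r * z * r⁻¹ ∉ S := by
    intro hwS
    apply hrz
    have h1 := d.J_S h hwS
    have h2 := d.J_S h hzS
    have h3 : J * (r * z * r⁻¹) * J = r⁻¹ * z * r := by
      have h4 : J * z * J = z := by rw [mul_assoc, h2, ← mul_assoc, h.JJ1, one_mul]
      calc J * (r * z * r⁻¹) * J = J * r * 1 * z * 1 * r⁻¹ * J := by group
        _ = J * r * (J * J) * z * (J * J) * r⁻¹ * J := by rw [h.JJ1]
        _ = (J * r * J) * (J * z * J) * (J * r⁻¹ * J) := by group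
        _ = r⁻¹ * z * r := by rw [hJr, h4, hrJ]
    have h4 : r * z * r⁻¹ = r⁻¹ * z * r := by
      have h5 : (r * z * r⁻¹ * J) * J = r * z * r⁻¹ := by rw [mul_assoc, h.JJ1, mul_one]
      rw [← h3, ← h1, h5]
    have c1 : Commute (r ^ 2) z := by
      show r ^ 2 * z = z * r ^ 2
      calc r ^ 2 * z = r * (r * z * r⁻¹) * r := by rw [pow_two]; group
        _ = r * (r⁻¹ * z * r) * r := by rw [h4]
        _ = z * r ^ 2 := by rw [pow_two]; group
    obtain ⟨i, hi⟩ := hn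
    have h5 : r = (r ^ 2) ^ (i + 1) := by
      have h6 : (r ^ 2) ^ (i + 1) = r ^ (2 * i + 1) * r := by
        rw [← pow_mul, ← pow_succ]
        congr 1
      rw [h6, ← hi, hrn, one_mul]
    rw [h5]
    exact (c1.pow_left (i + 1)).eq
  apply hw
  have hwX : r * z * r⁻¹ ∈ X := hrX _ (hSX hzS)
  have h1 := d.ZR h hc hJG hJx hxe hSx hr haT rfl (hXT hwX) (hcX z hzS a haX)
  rw [← hz] at h1
  rw [h1]
  exact hzS

theorem hat_syl [Finite Q] (h : AL G L J e) (d : TE G J e S T) (hJG : J ∉ G) :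
    IsSyl (Hat G J h.JJ1 h.JG) (Hat T J h.JJ1 d.JT) := by
  have hJT : J ∉ T := fun hj => hJG (d.hT.1 hj)
  have hTG : T ≤ G := d.hT.1
  have hThle : Hat T J h.JJ1 d.JT ≤ Hat G J h.JJ1 h.JG := by
    intro p hp
    rcases mem_Hat.1 hp with hp | hp
    · exact mem_Hat.2 (Or.inl (hTG hp))
    · exact mem_Hat.2 (Or.inr (hTG hp))
  refine ⟨hThle, ?_, ?_⟩
  · have : Fact (Nat.Prime 2) := ⟨Nat.prime_two⟩
    have h2 := d.hT.2.1
    rw [IsPGroup.iff_card] at h2 ⊢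
    obtain ⟨n, hn⟩ := h2
    exact ⟨n + 1, by rw [card_Hat hJT, hn, pow_succ, mul_comm]⟩
  · intro hd
    apply d.hT.2.2
    have r1 := rel_card_mul hThle
    have r2 := rel_card_mul hTG
    rw [card_Hat hJT, card_Hat hJG, ← r2] at r1
    have hpos : 0 < Nat.card T := Nat.card_pos
    have r3 : (Hat T J h.JJ1 d.JT).relIndex (Hat G J h.JJ1 h.JG) = T.relIndex G := by
      apply Nat.eq_of_mul_eq_mul_right (show 0 < 2 * Nat.card T by omega)
      rw [r1]; ring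
    rw [← r3]; exact hd

theorem hat_cen (h : AL G L J e) (d : TE G J e S T) {p : Perm Q}
    (hp : p ∈ Hat T J h.JJ1 d.JT) {s : Perm Q} (hs : s ∈ S) : p * s = s * p := by
  rcases mem_Hat.1 hp with hp | hp
  · exact d.cen p hp s hs
  · have c1 : Commute (p * J) s := d.cen _ hp s hs
    have c3 : Commute J s := (d.J_S h hs).symm
    have c2 := c1.mul_left c3
    rw [mul_assoc, h.JJ1, mul_one] at c2
    exact c2

/-- an element of `G ∪ G J` that normalises `X` and maps `J` into `T ∪ T J` normalises `S` -/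
theorem norm_of_J [Finite Q] (h : AL G L J e) (d : TE G J e S T)
    {X : Subgroup (Perm Q)} (hSX : S ≤ X) (hXT : X ≤ T) {m : Perm Q}
    (hmX : ∀ y ∈ X, m * y * m⁻¹ ∈ X) (hmJ : m * J * m⁻¹ ∈ Hat T J h.JJ1 d.JT) :
    ∀ s ∈ S, m * s * m⁻¹ ∈ S := by
  have h1 : ∀ s ∈ S, m⁻¹ * s * (m⁻¹)⁻¹ ∈ S := by
    intro s hs
    rw [inv_inv]
    have h2 : m⁻¹ * s * m ∈ X := norm_symm hmX s (hSX hs)
    have h3 := d.hat_cen h hmJ hs
    apply d.TH _ (hXT h2)
    apply h.centJ (d.hT.1 (hXT h2))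
    calc m⁻¹ * s * m * J = m⁻¹ * (s * (m * J * m⁻¹)) * m := by group
      _ = m⁻¹ * ((m * J * m⁻¹) * s) * m := by rw [h3]
      _ = J * (m⁻¹ * s * m) := by group
  intro s hs
  have := norm_symm h1 s hs
  rwa [inv_inv] at this

/-- (ii) -/
theorem norm_X [Finite Q] (h : AL G L J e) (d : TE G J e S T) (hc : HC G e S) (hJG : J ∉ G)
    {X : Subgroup (Perm Q)} (hSX : S ≤ X) (hXT : X ≤ T) {g : Perm Q} (hg : g ∈ G)
    (hgX : ∀ y ∈ X, g * y * g⁻¹ ∈ X) : ∀ s ∈ S, g * s * g⁻¹ ∈ S := by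
  -- the subgroup of the elements that normalise `X`
  have hNmul : ∀ {a b : Perm Q}, (∀ y ∈ X, a * y * a⁻¹ ∈ X) → (∀ y ∈ X, b * y * b⁻¹ ∈ X) →
      ∀ y ∈ X, (a * b) * y * (a * b)⁻¹ ∈ X := by
    intro a b ha hb y hy
    have h1 : (a * b) * y * (a * b)⁻¹ = a * (b * y * b⁻¹) * a⁻¹ := by group
    rw [h1]; exact ha _ (hb y hy)
  have hNinv : ∀ {a : Perm Q}, (∀ y ∈ X, a * y * a⁻¹ ∈ X) → ∀ y ∈ X, a⁻¹ * y * (a⁻¹)⁻¹ ∈ X := by
    intro a ha y hy
    rw [inv_inv]; exact norm_symm ha y hy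
  let N : Subgroup (Perm Q) :=
    { carrier := {a | ∀ y ∈ X, a * y * a⁻¹ ∈ X}
      one_mem' := fun y hy => by simpa using hy
      mul_mem' := fun ha hb => hNmul ha hb
      inv_mem' := fun ha => hNinv ha }
  have hN : ∀ a, a ∈ N ↔ ∀ y ∈ X, a * y * a⁻¹ ∈ X := fun _ => Iff.rfl
  have hJN : J ∈ N := by
    intro y hy
    rw [h.Jinv]
    have h1 := d.inv y (hXT hy)
    have h2 : J * y * J = (J * y * J * y) * y⁻¹ := by group
    rw [h2]
    exact X.mul_mem (hSX h1) (X.inv_mem hy)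
  have hTN : ∀ t ∈ T, t ∈ N := by
    intro t ht y hy
    have h1 := d.com t ht y (hXT hy)
    have h2 : t * y * t⁻¹ = (t * y * t⁻¹ * y⁻¹) * y := by group
    rw [h2]
    exact X.mul_mem (hSX h1) hy
  have hgN : g ∈ N := hgX
  set d0 := J * (g * J * g⁻¹) with hd0
  have hd0G : d0 ∈ G := by
    have h1 : d0 = (J * g * J) * g⁻¹ := by rw [hd0]; group
    rw [h1]; exact G.mul_mem (h.JG g hg) (G.inv_mem hg)
  have hd0N : d0 ∈ N := N.mul_mem hJN (N.mul_mem (N.mul_mem hgN hJN) (N.inv_mem hgN))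
  have hJd0 : J * d0 * J = d0⁻¹ := by
    have h1 : J * d0 * J = (J * J) * (g * J * g⁻¹) * J := by rw [hd0]; group
    rw [h1, h.JJ1, one_mul, hd0, mul_inv_rev, mul_inv_rev, mul_inv_rev, h.Jinv]
    group
  have hJpow : ∀ k : ℤ, J * d0 ^ k * J = (d0 ^ k)⁻¹ := by
    intro k
    have h1 : (J * d0 * J⁻¹) ^ k = J * d0 ^ k * J⁻¹ := conj_zpow
    rw [h.Jinv, hJd0, inv_zpow] at h1
    exact h1.symm
  obtain ⟨k, n, j, hn, hk, hj⟩ := exists_split d0
  set p := d0 ^ k with hp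
  set c := d0 ^ (1 - 2 * k) with hcdef
  have hpG : p ∈ G := G.zpow_mem hd0G k
  have hpN : p ∈ N := N.zpow_mem hd0N k
  have hcG : c ∈ G := G.zpow_mem hd0G _
  have hcN : c ∈ N := N.zpow_mem hd0N _
  have hpS := d.odd_norm h hc hJG hSX hXT hpG hn hk (hJpow k) hpN
  have hpg : (p * g) * J * (p * g)⁻¹ = J * c := by
    have h1 : g * J * g⁻¹ = J * d0 := by rw [hd0, ← mul_assoc, h.JJ1, one_mul]
    have h2 : p * J = J * p⁻¹ := by
      have h3 := hJpow k
      calc p * J = (J * J) * p * J := by rw [h.JJ1, one_mul]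
        _ = J * (J * p * J) := by group
        _ = J * p⁻¹ := by rw [← hp] at h3; rw [h3]
    calc (p * g) * J * (p * g)⁻¹ = p * (g * J * g⁻¹) * p⁻¹ := by group
      _ = (p * J) * d0 * p⁻¹ := by rw [h1]; group
      _ = J * (p⁻¹ * d0 * p⁻¹) := by rw [h2]; group
      _ = J * c := by
        congr 1
        rw [hp, hcdef, sub_eq_add_neg, zpow_add, zpow_one]
        have h5 : d0 ^ (-(2 * k)) = (d0 ^ k)⁻¹ * (d0 ^ k)⁻¹ := by
          rw [two_mul, neg_add, zpow_add, zpow_neg]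
        have c1 : Commute (d0 ^ k)⁻¹ d0 := ((Commute.refl d0).zpow_left k).inv_left
        rw [h5, c1.eq, mul_assoc]
  -- the 2-group generated by `J` and `c`
  have hJc : ∀ y ∈ Subgroup.zpowers c, J * y * J ∈ Subgroup.zpowers c := by
    rintro _ ⟨i, rfl⟩
    show J * c ^ i * J ∈ _
    rw [hcdef, ← zpow_mul, hJpow, zpow_mul]
    exact Subgroup.inv_mem _ (Subgroup.zpow_mem _ (Subgroup.mem_zpowers _) i)
  have hJnc : J ∉ Subgroup.zpowers c := by
    rintro ⟨i, hi⟩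
    apply hJG
    rw [← hi]
    exact G.zpow_mem hcG i
  have hK2 : IsPGroup 2 (Hat (Subgroup.zpowers c) J h.JJ1 hJc) := by
    have : Fact (Nat.Prime 2) := ⟨Nat.prime_two⟩
    have h2 := zpowers_isPGroup hj
    rw [IsPGroup.iff_card] at h2 ⊢
    obtain ⟨n, hn⟩ := h2
    exact ⟨n + 1, by rw [card_Hat hJnc, hn, pow_succ, mul_comm]⟩
  have hSyl := (d.hat_syl h hJG).mono (C := Hat G J h.JJ1 h.JG ⊓ N) (by
    intro y hy
    refine ⟨(d.hat_syl h hJG).1 hy, ?_⟩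
    rcases mem_Hat.1 hy with hy | hy
    · exact hTN y hy
    · have h1 : y = (y * J) * J := by rw [mul_assoc, h.JJ1, mul_one]
      rw [h1]
      exact N.mul_mem (hTN _ hy) hJN) inf_le_left
  obtain ⟨m, hm, hmK⟩ := hSyl.conj_mem hK2 1 (by
    intro y hy
    rw [inv_one, one_mul, mul_one]
    rcases mem_Hat.1 hy with h1 | h1
    · have hz : ∀ i : ℤ, c ^ i ∈ Hat G J h.JJ1 h.JG ⊓ N := fun i =>
        ⟨le_Hat (G.zpow_mem hcG i), N.zpow_mem hcN i⟩
      obtain ⟨i, rfl⟩ := h1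
      exact hz i
    · obtain ⟨i, hi⟩ := h1
      have hi' : c ^ i = y * J := hi
      have h2 : y = c ^ i * J := by rw [hi', mul_assoc, h.JJ1, mul_one]
      rw [h2]
      exact ⟨(Hat G J h.JJ1 h.JG).mul_mem (le_Hat (G.zpow_mem hcG i)) J_mem_Hat,
        N.mul_mem (N.zpow_mem hcN i) hJN⟩)
  have hm1 : m * J * m⁻¹ ∈ Hat T J h.JJ1 d.JT := by
    have := hmK J J_mem_Hat
    rwa [inv_one, one_mul, mul_one] at this
  have hm2 : (m * (p * g)) * J * (m * (p * g))⁻¹ ∈ Hat T J h.JJ1 d.JT := by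
    have h1 := hmK (J * c) (Subgroup.mul_mem _ J_mem_Hat (le_Hat (Subgroup.mem_zpowers c)))
    rw [inv_one, one_mul, mul_one, ← hpg] at h1
    have h2 : (m * (p * g)) * J * (m * (p * g))⁻¹ = m * ((p * g) * J * (p * g)⁻¹) * m⁻¹ := by
      group
    rw [h2]; exact h1
  have hmN : m ∈ N := hm.2
  have hS1 := d.norm_of_J h hSX hXT hmN hm1
  have hS2 := d.norm_of_J h hSX hXT
    (N.mul_mem hmN (N.mul_mem hpN hgN)) hm2
  intro s hs
  have h1 := norm_symm hS1 _ (hS2 s hs)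
  have h2 : m⁻¹ * (m * (p * g) * s * (m * (p * g))⁻¹) * m = p * (g * s * g⁻¹) * p⁻¹ := by group
  rw [h2] at h1
  have h3 := norm_symm hpS _ h1
  have h4 : p⁻¹ * (p * (g * s * g⁻¹) * p⁻¹) * p = g * s * g⁻¹ := by group
  rwa [h4] at h3

end TE

end ALoop
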