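import Pool.Agent.H4.FD.Syl

set_option autoImplicit false

/-!
The group `A ∪ A J`.
-/

namespace ALoop

variable {M : Type*} [Group M]

/-- `A ∪ A J` -/
def Hat (A : Subgroup M) (J : M) (hJJ : J * J = 1) (hA : ∀ a ∈ A, J * a * J ∈ A) :
    Subgroup M where
  carrier := {x | x ∈ A ∨ x * J ∈ A}
  one_mem' := Or.inl A.one_mem
  mul_mem' := by
    rintro p q (hp | hp) (hq | hq)
    · exact Or.inl (A.mul_mem hp hq)
    · right
      rw [mul_assoc]; exact A.mul_mem hp hq
    · right
      have h1 : p * q * J = (p * J) * (J * q * J) := by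
        calc p * q * J = p * 1 * q * J := by group
          _ = p * (J * J) * q * J := by rw [hJJ]
          _ = _ := by group
      rw [h1]; exact A.mul_mem hp (hA q hq)
    · left
      have h1 : p * q = (p * J) * (J * (q * J) * J) := by
        calc p * q = p * 1 * q * 1 := by group
          _ = p * (J * J) * q * (J * J) := by rw [hJJ]
          _ = _ := by group
      rw [h1]; exact A.mul_mem hp (hA _ hq)
  inv_mem' := by
    rintro p (hp | hp)
    · exact Or.inl (A.inv_mem hp)
    · right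
      have hJi : J⁻¹ = J := inv_eq_of_mul_eq_one_left hJJ
      have h1 : p⁻¹ * J = J * (p * J)⁻¹ * J := by
        rw [mul_inv_rev, hJi]
        calc p⁻¹ * J = 1 * p⁻¹ * J := by group
          _ = (J * J) * p⁻¹ * J := by rw [hJJ]
          _ = _ := by group
      rw [h1]; exact hA _ (A.inv_mem hp)

variable {A : Subgroup M} {J : M} {hJJ : J * J = 1} {hA : ∀ a ∈ A, J * a * J ∈ A}

theorem mem_Hat {x : M} : x ∈ Hat A J hJJ hA ↔ x ∈ A ∨ x * J ∈ A := Iff.rfl

theorem le_Hat : A ≤ Hat A J hJJ hA := fun _ h => Or.inl h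

theorem J_mem_Hat : J ∈ Hat A J hJJ hA := Or.inr (by rw [hJJ]; exact A.one_mem)

theorem card_Hat [Finite M] (hJ : J ∉ A) : Nat.card (Hat A J hJJ hA) = 2 * Nat.card A := by
  rw [two_mul, ← Nat.card_sum]
  symm
  let f : A ⊕ A → Hat A J hJJ hA := Sum.elim (fun s => ⟨s, Or.inl s.2⟩)
    (fun s => ⟨s * J, Or.inr (by rw [mul_assoc, hJJ, mul_one]; exact s.2)⟩)
  refine Nat.card_eq_of_bijective f ⟨?_, ?_⟩
  · intro a b hab
    have hab' : ((f a : Hat A J hJJ hA) : M) = f b := by rw [hab]
    rcases a with a | a <;> rcases b with b | b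
    · have h1 : (a : M) = b := hab'
      rw [Subtype.ext h1]
    · exfalso
      have h1 : (a : M) = b * J := hab'
      apply hJ
      have h2 : J = (b : M)⁻¹ * a := by rw [h1]; group
      rw [h2]
      exact A.mul_mem (A.inv_mem b.2) a.2
    · exfalso
      have h1 : (a : M) * J = b := hab'
      apply hJ
      have h2 : J = (a : M)⁻¹ * b := by rw [← h1]; group
      rw [h2]
      exact A.mul_mem (A.inv_mem a.2) b.2
    · have h1 : (a : M) * J = b * J := hab'
      rw [Subtype.ext (mul_right_cancel h1)]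
  · rintro ⟨p, hp | hp⟩
    · exact ⟨Sum.inl ⟨p, hp⟩, rfl⟩
    · refine ⟨Sum.inr ⟨p * J, hp⟩, ?_⟩
      apply Subtype.ext
      change p * J * J = p
      rw [mul_assoc, hJJ, mul_one]

/-- a Sylow 2-subgroup of `K` containing a given 2-subgroup -/
theorem exists_syl_ge [Finite M] {K P : Subgroup M} (hPK : P ≤ K) (hP : IsPGroup 2 P) :
    ∃ T, IsSyl K T ∧ P ≤ T := by
  obtain ⟨S, hS⟩ := exists_syl K
  obtain ⟨c, hcK, hc⟩ := hS.conj_mem hP 1 (by
    intro t ht
    rw [inv_one, one_mul, mul_one]; exact hPK ht)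
  refine ⟨S.map (MulAut.conj c⁻¹).toMonoidHom, ⟨?_, isPGroup_conj hS.2.1 _, ?_⟩, ?_⟩
  · intro x hx
    rw [mem_conj, inv_inv] at hx
    have h1 := K.mul_mem (K.mul_mem (K.inv_mem hcK) (hS.1 hx)) hcK
    have h2 : c⁻¹ * (c * x * c⁻¹) * c = x := by group
    rw [h2] at h1
    exact h1
  · intro hd
    apply hS.2.2
    -- cardinalities
    have hle : S.map (MulAut.conj c⁻¹).toMonoidHom ≤ K := by
      intro x hx
      rw [mem_conj, inv_inv] at hx
      have h1 := K.mul_mem (K.mul_mem (K.inv_mem hcK) (hS.1 hx)) hcK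
      have h2 : c⁻¹ * (c * x * c⁻¹) * c = x := by group
      rw [h2] at h1
      exact h1
    have hc1 : Nat.card (S.map (MulAut.conj c⁻¹).toMonoidHom) = Nat.card S := by
      apply Nat.card_congr
      exact (Subgroup.equivMapOfInjective S _ (MulAut.conj c⁻¹).injective).symm.toEquiv
    have r1 : (S.map (MulAut.conj c⁻¹).toMonoidHom).relIndex K * Nat.card S = Nat.card K := by
      rw [← hc1, ← Subgroup.relIndex_bot_left, ← Subgroup.relIndex_bot_left, mul_comm]
      exact Subgroup.relIndex_mul_relIndex ⊥ _ K bot_le hle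
    have r2 : S.relIndex K * Nat.card S = Nat.card K := by
      rw [← Subgroup.relIndex_bot_left, ← Subgroup.relIndex_bot_left, mul_comm]
      exact Subgroup.relIndex_mul_relIndex ⊥ _ K bot_le hS.1
    have r3 : (S.map (MulAut.conj c⁻¹).toMonoidHom).relIndex K = S.relIndex K :=
      Nat.eq_of_mul_eq_mul_right Nat.card_pos (r1.trans r2.symm)
    rw [r3] at hd
    exact hd
  · intro x hx
    rw [mem_conj, inv_inv]
    have h1 := hc x hx
    rwa [inv_one, one_mul, mul_one] at h1

theorem rel_card_mul {P K : Subgroup M} (h : P ≤ K) : P.relIndex K * Nat.card P = Nat.card K := by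
  rw [← Subgroup.relIndex_bot_left, ← Subgroup.relIndex_bot_left, mul_comm]
  exact Subgroup.relIndex_mul_relIndex ⊥ P K bot_le h

end ALoop
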