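import Pool.Agent.H4.IS.Make
import Pool.Agent.H71.IS.Last

set_option autoImplicit false

/-!
The Sylow 2-subgroups of the inner mapping group.
-/

namespace ALoop

open Equiv

variable {Q : Type*} {G : Subgroup (Perm Q)} {L : Q → Perm Q} {J : Perm Q} {e : Q}
  {S : Subgroup (Perm Q)}

theorem isSyl_map {M : Type*} [Group M] (K : Subgroup M) (P : Sylow 2 K) [Finite M] :
    IsSyl K ((P : Subgroup K).map K.subtype) := by
  refine ⟨Subgroup.map_subtype_le _, P.isPGroup'.map _, ?_⟩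
  have h1 : (((P : Subgroup K).map K.subtype).subgroupOf K) = (P : Subgroup K) := by
    unfold Subgroup.subgroupOf
    exact Subgroup.comap_map_eq_self_of_injective K.subtype_injective _
  unfold Subgroup.relIndex
  rw [h1]
  exact P.not_dvd_index

namespace AL

theorem not_HR [Finite Q] (h : AL G L J e) (hcard : 2 ∣ Nat.card Q)
    (hS : IsSyl (Inn G e) S) (hab : ∀ a ∈ S, ∀ b ∈ S, a * b = b * a) : ¬ HR L J := by
  intro hr
  obtain ⟨T, x, d⟩ := h.exists_TD hcard hr hS hab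
  exact d.false h

/-- `S` has two different involutions -/
theorem exists_two [Finite Q] (h : AL G L J e) (hS : IsSyl (Inn G e) S) (hr : ¬ HR L J) :
    ∃ a ∈ S, ∃ b ∈ S, a ≠ 1 ∧ b ≠ 1 ∧ a ≠ b ∧ a * a = 1 ∧ b * b = 1 := by
  unfold HR at hr
  push Not at hr
  obtain ⟨z, hz, z', hz', hzz, q, hq, hq', hne⟩ := hr
  obtain ⟨g, hg, hgq⟩ := h.exists_map e q
  have h1 : g⁻¹ q = e := by rw [Perm.inv_eq_iff_eq, hgq]
  have hsq := h.Z_sq hz
  have hsq' := h.Z_sq hz'
  have hcom : ∀ s ∈ Subgroup.zpowers z, s * z' = z' * s := by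
    rintro _ ⟨a, rfl⟩
    have h2 : Commute z z' := hzz
    exact h2.zpow_left a
  set V := Tgrp (Subgroup.zpowers z) z' hcom with hV
  have hzpow : ∀ a : ℤ, z ^ a * z ^ a = 1 := by
    intro a
    have h2 : Commute z z := Commute.refl z
    rw [← h2.mul_zpow, hsq, one_zpow]
  have hzpow' : ∀ a : ℤ, z' ^ a * z' ^ a = 1 := by
    intro a
    have h2 : Commute z' z' := Commute.refl z'
    rw [← h2.mul_zpow, hsq', one_zpow]
  have hV2 : IsPGroup 2 V := by
    rintro ⟨p, a, b, hb⟩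
    refine ⟨1, ?_⟩
    apply Subtype.ext
    change p ^ 2 ^ 1 = 1
    have h2 : p = z ^ b * z' ^ (-a) := by
      have h3 : z ^ b = p * z' ^ a := hb
      rw [h3]; group
    have h3 : Commute (z ^ b) (z' ^ (-a)) := by
      have h4 : Commute z z' := hzz
      exact h4.zpow_zpow b (-a)
    rw [pow_one, h2, h3.mul_pow, pow_two, pow_two, hzpow, hzpow', one_mul]
  have hVq : ∀ p ∈ V, p ∈ G ∧ p q = q := by
    rintro p ⟨a, b, hb⟩
    have h3 : z ^ b = p * z' ^ a := hb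
    have h2 : p = z ^ b * z' ^ (-a) := by
      rw [h3]; group
    refine ⟨?_, ?_⟩
    · rw [h2]
      exact G.mul_mem (G.zpow_mem (h.Z_mem hz) _) (G.zpow_mem (h.Z_mem hz') _)
    · rw [h2, Perm.mul_apply, Perm.zpow_apply_eq_self_of_apply_eq_self hq',
        Perm.zpow_apply_eq_self_of_apply_eq_self hq]
  obtain ⟨c, hc, hcS⟩ := hS.conj_mem hV2 g (by
    intro p hp
    obtain ⟨hpG, hpq⟩ := hVq p hp
    refine mem_Inn.2 ⟨G.mul_mem (G.mul_mem (G.inv_mem hg) hpG) hg, ?_⟩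
    rw [Perm.mul_apply, Perm.mul_apply, hgq, hpq, h1])
  have hzV : z ∈ V := le_Tgrp (Subgroup.mem_zpowers z)
  have hzV' : z' ∈ V := gen_mem_Tgrp
  have hinj : ∀ p r : Perm Q, c * (g⁻¹ * p * g) * c⁻¹ = c * (g⁻¹ * r * g) * c⁻¹ → p = r := by
    intro p r hpr
    calc p = g * (c⁻¹ * (c * (g⁻¹ * p * g) * c⁻¹) * c) * g⁻¹ := by group
      _ = g * (c⁻¹ * (c * (g⁻¹ * r * g) * c⁻¹) * c) * g⁻¹ := by rw [hpr]
      _ = r := by group
  have hone : c * (g⁻¹ * 1 * g) * c⁻¹ = 1 := by group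
  refine ⟨_, hcS z hzV, _, hcS z' hzV', ?_, ?_, ?_, ?_, ?_⟩
  · intro h2
    rw [← hone] at h2
    exact h.Z_ne hz (hinj _ _ h2)
  · intro h2
    rw [← hone] at h2
    exact h.Z_ne hz' (hinj _ _ h2)
  · intro h2
    exact hne (hinj _ _ h2)
  · calc c * (g⁻¹ * z * g) * c⁻¹ * (c * (g⁻¹ * z * g) * c⁻¹) = c * (g⁻¹ * (z * z) * g) * c⁻¹ := by
          group
      _ = 1 := by rw [hsq]; exact hone
  · calc c * (g⁻¹ * z' * g) * c⁻¹ * (c * (g⁻¹ * z' * g) * c⁻¹)
        = c * (g⁻¹ * (z' * z') * g) * c⁻¹ := by group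
      _ = 1 := by rw [hsq']; exact hone

theorem not_cyclic [Finite Q] (h : AL G L J e) (hcard : 2 ∣ Nat.card Q)
    (hS : IsSyl (Inn G e) S) : ¬ IsCyclic S := by
  classical
  intro hcyc
  have hab : ∀ a ∈ S, ∀ b ∈ S, a * b = b * a := by
    intro a ha b hb
    let _ : CommGroup S := IsCyclic.commGroup (α := S)
    have := mul_comm (⟨a, ha⟩ : S) ⟨b, hb⟩
    exact congrArg Subtype.val this
  obtain ⟨a, ha, b, hb, ha1, hb1, hne, ha2, hb2⟩ := h.exists_two hS (h.not_HR hcard hS hab)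
  have := Fintype.ofFinite S
  have h1 := IsCyclic.card_pow_eq_one_le (α := S) (n := 2) (by norm_num)
  have h2 : ({1, ⟨a, ha⟩, ⟨b, hb⟩} : Finset S) ⊆ Finset.univ.filter (fun s : S => s ^ 2 = 1) := by
    intro s hs
    rw [Finset.mem_filter]
    refine ⟨Finset.mem_univ _, ?_⟩
    simp only [Finset.mem_insert, Finset.mem_singleton] at hs
    rcases hs with rfl | rfl | rfl
    · rw [one_pow]
    · apply Subtype.ext
      change a ^ 2 = 1
      rw [pow_two, ha2]
    · apply Subtype.ext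
      change b ^ 2 = 1
      rw [pow_two, hb2]
  have h3 : ({1, ⟨a, ha⟩, ⟨b, hb⟩} : Finset S).card = 3 := by
    rw [Finset.card_eq_three]
    refine ⟨1, ⟨a, ha⟩, ⟨b, hb⟩, ?_, ?_, ?_, rfl⟩
    · intro h4; exact ha1 (congrArg Subtype.val h4).symm
    · intro h4; exact hb1 (congrArg Subtype.val h4).symm
    · intro h4; exact hne (congrArg Subtype.val h4)
  have h4 := Finset.card_le_card h2
  omega

end AL

end ALoop
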