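import Pool.Agent.H4.IS.LemD
import Pool.Agent.H4.IS.Fin
import Pool.Agent.H4.FD.Four
import Pool.Agent.H98.IS.NormSyl
import Pool.Agent.H98.IS.OddRatio

set_option autoImplicit false

/-!
From one involution to all of them.
-/

namespace ALoop

open Equiv

theorem IsSyl.max {M : Type*} [Group M] [Finite M] {K S N : Subgroup M} (hS : IsSyl K S)
    (hSN : S ≤ N) (hNK : N ≤ K) (hN : IsPGroup 2 N) : N ≤ S := by
  obtain ⟨c, hcK, hc'⟩ := hS.conj_mem hN 1 (by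
    intro t ht
    rw [inv_one, one_mul, mul_one]
    exact hNK ht)
  have h2 : Nat.card N ≤ Nat.card S := by
    refine Nat.card_le_card_of_injective
      (fun t => (⟨c * (1⁻¹ * t * 1) * c⁻¹, hc' t t.2⟩ : S)) ?_
    intro a b hab
    have h3 : c * (1⁻¹ * (a : M) * 1) * c⁻¹ = c * (1⁻¹ * (b : M) * 1) * c⁻¹ :=
      congrArg Subtype.val hab
    apply Subtype.ext
    simpa using h3
  exact (Subgroup.eq_of_le_of_card_ge hSN h2).ge

variable {Q : Type*} {G : Subgroup (Perm Q)} {L : Q → Perm Q} {J : Perm Q} {e : Q} {x : Q}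

theorem mem_Cz {g y : Perm Q} : g ∈ PD.Cen G y ↔ g ∈ G ∧ g * y = y * g := PD.mem_Cen

namespace AL

/-- every element of `Z` fixes a point -/
theorem Z_fix (h : AL G L J e) {w : Perm Q} (hw : w ∈ Z L J) : ∃ q, w q = q := by
  have hwG := h.Z_mem hw
  obtain ⟨p, q, hne, hc, rfl⟩ := hw
  refine ⟨p, ?_⟩
  rw [← h.D_cent hwG]
  calc D L J p * D L J q * D L J p = D L J p * (D L J q * D L J p) := by group
    _ = D L J p * (D L J p * D L J q) := by rw [hc]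

/-- (a) -/
theorem local_to_global [Finite Q] (h : AL G L J e) (hJx : J x = x) (hxe : x ≠ e)
    (hr : HR1 L J (D L J x * J)) :
    HR L J ∧ ∃ S, IsSyl (Inn G e) S ∧ IsSyl (Inn (PD.Cen G (D L J x * J)) e) S := by
  have hz := h.zx_mem hJx hxe
  have hze := h.zx_e hJx hxe
  have hzG := h.Z_mem hz
  set z := D L J x * J with hzdef
  obtain ⟨S, hSC⟩ := exists_syl (Inn (PD.Cen G z) e)
  have hSz : ∀ s ∈ S, s ∈ G ∧ s * z = z * s ∧ s e = e := by
    intro s hs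
    have h1 := mem_Inn.1 (hSC.1 hs)
    have h2 := mem_Cz.1 h1.1
    exact ⟨h2.1, h2.2, h1.2⟩
  have hzS : z ∈ S := by
    refine hSC.mem_of_comm (mem_Inn.2 ⟨mem_Cz.2 ⟨hzG, rfl⟩, hze⟩) (fun s hs => (hSz s hs).2.1)
      (n := 1) (by rw [pow_one, pow_two, h.Z_sq hz])
  have hZS : ∀ w ∈ Z L J, w ∈ S → w = z := by
    intro w hw hwS
    exact (hr w hw (hSz w hwS).2.1.symm e hze (hSz w hwS).2.2).symm
  have hSH : IsSyl (Inn G e) S := by
    refine isSyl_of_norm (fun s hs => mem_Inn.2 ⟨(hSz s hs).1, (hSz s hs).2.2⟩) hSC.2.1 ?_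
    intro N hNK hSN hN2 hNS
    apply hSC.max hSN _ hN2
    intro n hn
    have hnG := (mem_Inn.1 (hNK hn)).1
    have h1 := hZS _ (h.Z_conj hz hnG) (hNS n hn z hzS)
    refine mem_Inn.2 ⟨mem_Cz.2 ⟨hnG, ?_⟩, (mem_Inn.1 (hNK hn)).2⟩
    calc n * z = (n * z * n⁻¹) * n := by group
      _ = z * n := by rw [h1]
  -- conjugacy
  have hconj : ∀ w ∈ Z L J, ∃ g ∈ G, w = g * z * g⁻¹ := by
    intro w hw
    have hwG := h.Z_mem hw
    obtain ⟨p, hp⟩ := h.Z_fix hw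
    obtain ⟨g, hg, hgp⟩ := h.exists_map e p
    obtain ⟨c, hc, hcS⟩ := hSH.conj_mem (T := Subgroup.zpowers w)
      (zpowers_isPGroup (n := 1) (by rw [pow_one, pow_two, h.Z_sq hw])) g (by
        rintro _ ⟨k, rfl⟩
        have h1 : w ^ k ∈ G := G.zpow_mem hwG k
        have h2 : (w ^ k) p = p := Perm.zpow_apply_eq_self_of_apply_eq_self hp k
        refine mem_Inn.2 ⟨G.mul_mem (G.mul_mem (G.inv_mem hg) h1) hg, ?_⟩
        rw [Perm.mul_apply, Perm.mul_apply, hgp, h2, Perm.inv_eq_iff_eq, hgp])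
    have h1 := hcS w (Subgroup.mem_zpowers w)
    have hcG : c ∈ G := (mem_Inn.1 hc).1
    have h2 : c * (g⁻¹ * w * g) * c⁻¹ = (c * g⁻¹) * w * (c * g⁻¹)⁻¹ := by group
    have h3 := hZS _ (h.Z_conj hw (G.mul_mem hcG (G.inv_mem hg))) (by rw [← h2]; exact h1)
    refine ⟨(c * g⁻¹)⁻¹, G.inv_mem (G.mul_mem hcG (G.inv_mem hg)), ?_⟩
    rw [← h3]; group
  refine ⟨?_, S, hSH, hSC⟩
  intro z1 hz1 z2 hz2 hc q hq1 hq2
  obtain ⟨g, hg, hgz⟩ := hconj z1 hz1
  have h1 : g⁻¹ * z1 * g = z := by rw [hgz]; group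
  have h2 := h.Z_conj hz2 (G.inv_mem hg)
  rw [inv_inv] at h2
  have h3 := hr _ h2 (by
    rw [← h1]
    calc g⁻¹ * z1 * g * (g⁻¹ * z2 * g) = g⁻¹ * (z1 * z2) * g := by group
      _ = g⁻¹ * (z2 * z1) * g := by rw [hc]
      _ = _ := by group) (g⁻¹ q) (by
    rw [← h1, Perm.mul_apply, Perm.mul_apply, apply_inv', hq1]) (by
    rw [Perm.mul_apply, Perm.mul_apply, apply_inv', hq2])
  calc z1 = g * (g⁻¹ * z1 * g) * g⁻¹ := by group
    _ = g * (g⁻¹ * z2 * g) * g⁻¹ := by rw [h1, h3]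
    _ = z2 := by group

/-- (d): the 2-parts of `|Q|` and `|Fix z|` -/
theorem same_two_part [Finite Q] (h : AL G L J e) (hJx : J x = x) (hxe : x ≠ e)
    (hr : HR1 L J (D L J x * J)) : ∃ a b : ℕ, Odd a ∧ Odd b ∧
      a * Nat.card Q = b * Nat.card {q : Q // (D L J x * J) q = q} := by
  obtain ⟨hR, S, hSH, hSC⟩ := h.local_to_global hJx hxe hr
  have hz := h.zx_mem hJx hxe
  have hze := h.zx_e hJx hxe
  have hzG := h.Z_mem hz
  have hiso := fun (y : Perm Q) (hy : y ∈ Z L J) => h.isolated hJx hxe hR hy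
  set z := D L J x * J with hzdef
  obtain ⟨P, hP⟩ := exists_syl (PD.Cen G z)
  have hCG : PD.Cen G z ≤ G := inf_le_left
  have hzP : z ∈ P := by
    refine hP.mem_of_comm (mem_Cz.2 ⟨hzG, rfl⟩) (fun s hs => (mem_Cz.1 (hP.1 hs)).2)
      (n := 1) (by rw [pow_one, pow_two, h.Z_sq hz])
  have hPG : IsSyl G P := by
    refine isSyl_of_norm (hP.1.trans hCG) hP.2.1 ?_
    intro N hNK hPN hN2 hNP
    apply hP.max hPN _ hN2
    intro n hn
    have hnG := hNK hn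
    have h1 := hiso _ (h.Z_conj hz hnG) (mem_Cz.1 (hP.1 (hNP n hn z hzP))).2
    refine mem_Cz.2 ⟨hnG, ?_⟩
    calc n * z = (n * z * n⁻¹) * n := by group
      _ = z * n := by rw [h1]
  refine odd_ratio (F := {q : Q | z q = q}) hCG hPG hP hSH hSC (fun p => h.exists_map e p) ?_
  intro p
  constructor
  · intro hp
    refine ⟨L p, mem_Cz.2 ⟨h.memL p, (h.comL hzG hze hp).symm⟩, h.Le p⟩
  · rintro ⟨g, hg, hgp⟩
    have h1 := (mem_Cz.1 hg).2
    change z p = p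
    rw [← hgp, ← Perm.mul_apply, ← h1, Perm.mul_apply, hze]

/-- (e): the number of fixed points of `z` is divisible by four -/
theorem four_dvd_fix [Finite Q] (h : AL G L J e) (hJx : J x = x) (hxe : x ≠ e) :
    4 ∣ Nat.card {q : Q // (D L J x * J) q = q} := by
  have hz := h.zx_mem hJx hxe
  have h2 : 2 ∣ Nat.card {q : Q // (D L J x * J) q = q} := by
    refine two_dvd_card (fun q => ⟨kp L J (D L J x * J) q, h.kp_fix hz q.2⟩) ?_ ?_
    · intro q; exact Subtype.ext (h.kp_kp hz q.2)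
    · intro q hq
      exact h.kp_ne hz q.2 (congrArg Subtype.val hq)
  by_contra h4
  have hcard : Nat.card {q : Q // (D L J x * J) q = q} % 4 = 2 := by omega
  obtain ⟨a, b, ⟨a', ha⟩, ⟨b', hb⟩, hab⟩ := h.same_two_part hJx hxe (h.HR1_of_card hcard hz)
  apply h.not_two_mod_four
  obtain ⟨c, hc⟩ : ∃ c, Nat.card {q : Q // (D L J x * J) q = q} = 4 * c + 2 :=
    ⟨Nat.card {q : Q // (D L J x * J) q = q} / 4, by omega⟩
  rw [hc, ha, hb] at hab
  set n := Nat.card Q with hn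
  -- `(2 a' + 1) n = (2 b' + 1) (4 c + 2)`
  have h5 : 2 * (a' * n) + n = 4 * (2 * b' * c + b' + c) + 2 := by
    calc 2 * (a' * n) + n = (2 * a' + 1) * n := by ring
      _ = (2 * b' + 1) * (4 * c + 2) := hab
      _ = _ := by ring
  obtain ⟨m, hm⟩ : ∃ m, n = 2 * m := ⟨n / 2, by omega⟩
  rw [hm] at h5 ⊢
  have h6 : 4 * (a' * m) + 2 * m = 4 * (2 * b' * c + b' + c) + 2 := by
    rw [← h5]; ring
  omega

end AL

end ALoop
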