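import Pool.Agent.H4.FD.Syl

set_option autoImplicit false

/-!
# A criterion for Sylow 2-subgroups, with an involution acting
-/

namespace ALoop

variable {M : Type*} [Group M]

/-- `G ∪ GJ` for an involution `J` which normalises `G`. -/
private def hatt (J : M) (hJJ : J * J = 1) (G : Subgroup M) (hJG : ∀ g ∈ G, J * g * J ∈ G) :
    Subgroup M where
  carrier := {x | x ∈ G ∨ x * J ∈ G}
  one_mem' := Or.inl G.one_mem
  mul_mem' := by
    intro x y hx hy
    rcases hx with hx | hx <;> rcases hy with hy | hy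
    · exact Or.inl (G.mul_mem hx hy)
    · refine Or.inr ?_
      have h := G.mul_mem hx hy
      rwa [← mul_assoc] at h
    · refine Or.inr ?_
      have h := G.mul_mem hx (hJG y hy)
      have e : x * J * (J * y * J) = x * y * J := by
        calc x * J * (J * y * J) = x * (J * J) * y * J := by simp only [mul_assoc]
          _ = x * y * J := by rw [hJJ, mul_one]
      rwa [e] at h
    · refine Or.inl ?_
      have h := G.mul_mem hx (hJG _ hy)
      have e : x * J * (J * (y * J) * J) = x * y := by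
        calc x * J * (J * (y * J) * J) = x * (J * J) * y * (J * J) := by simp only [mul_assoc]
          _ = x * y := by rw [hJJ, mul_one, mul_one]
      rwa [e] at h
  inv_mem' := by
    intro x hx
    rcases hx with hx | hx
    · exact Or.inl (G.inv_mem hx)
    · refine Or.inr ?_
      have hJi : J⁻¹ = J := inv_eq_of_mul_eq_one_right hJJ
      have h := hJG _ (G.inv_mem hx)
      have e : J * (x * J)⁻¹ * J = x⁻¹ * J := by
        rw [mul_inv_rev, hJi]
        calc J * (J * x⁻¹) * J = (J * J) * x⁻¹ * J := by simp only [mul_assoc]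
          _ = x⁻¹ * J := by rw [hJJ, one_mul]
      rwa [e] at h

private theorem mem_hatt {J : M} {hJJ : J * J = 1} {G : Subgroup M} {hJG : ∀ g ∈ G, J * g * J ∈ G} {x : M} :
    x ∈ hatt J hJJ G hJG ↔ x ∈ G ∨ x * J ∈ G := Iff.rfl

private theorem rel_two' {J : M} (hJJ : J * J = 1) {A B G : Subgroup M} (hAB : A ≤ B) (hJB : J ∈ B)
    (hJG : J ∉ G) (hAG : A ≤ G) (h : ∀ b ∈ B, b ∈ A ∨ b * J ∈ A) : A.relIndex B = 2 := by
  unfold Subgroup.relIndex
  rw [Subgroup.index_eq_two_iff]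
  refine ⟨⟨J, hJB⟩, ?_⟩
  rintro ⟨b, hb⟩
  have hno : ¬ (b ∈ A ∧ b * J ∈ A) := by
    rintro ⟨h1, h2⟩
    apply hJG
    have h3 := A.mul_mem (A.inv_mem h1) h2
    rw [inv_mul_cancel_left] at h3
    exact hAG h3
  show Xor (b * J ∈ A) (b ∈ A)
  rcases h b hb with h1 | h1
  · exact Or.inr ⟨h1, fun h2 => hno ⟨h1, h2⟩⟩
  · exact Or.inl ⟨h1, fun h2 => hno ⟨h2, h1⟩⟩

private theorem rel_card'' (P K : Subgroup M) (h : P ≤ K) :
    P.relIndex K * Nat.card P = Nat.card K := by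
  rw [← Subgroup.relIndex_bot_left, ← Subgroup.relIndex_bot_left, mul_comm]
  exact Subgroup.relIndex_mul_relIndex ⊥ P K bot_le h

theorem syl_ext2 [Finite M] (G T S : Subgroup M) (J : M) (hJJ : J * J = 1)
    (hJG : ∀ g ∈ G, J * g * J ∈ G) (hJ : J ∉ G) (hTG : T ≤ G) (hT : IsPGroup 2 T)
    (hcen : ∀ t ∈ T, ∀ s ∈ S, t * s = s * t) (hJT : ∀ t ∈ T, J * t * J ∈ T)
    (hST : ∀ t, t ∈ S ↔ t ∈ T ∧ J * t = t * J)
    (hN : ∀ K : Subgroup M, K ≤ G → IsPGroup 2 K → T ≤ K →
      (∀ k ∈ K, ∀ s ∈ S, k * s * k⁻¹ ∈ S) → K ≤ T) : IsSyl G T := by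
  refine ⟨hTG, hT, fun hd => ?_⟩
  have hJT' : J ∉ T := fun h => hJ (hTG h)
  obtain ⟨n, hn⟩ := IsPGroup.iff_card.mp hT
  -- the two extensions
  have hGG : G ≤ hatt J hJJ G hJG := fun x hx => Or.inl hx
  have hTT : T ≤ hatt J hJJ T hJT := fun x hx => Or.inl hx
  have hJG' : J ∈ hatt J hJJ G hJG := Or.inr (by rw [hJJ]; exact G.one_mem)
  have hJT'' : J ∈ hatt J hJJ T hJT := Or.inr (by rw [hJJ]; exact T.one_mem)
  have hTG' : hatt J hJJ T hJT ≤ hatt J hJJ G hJG := by
    intro x hx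
    rcases hx with hx | hx
    · exact Or.inl (hTG hx)
    · exact Or.inr (hTG hx)
  have c1 : Nat.card (hatt J hJJ G hJG) = 2 * Nat.card G := by
    rw [← rel_card'' G _ hGG, rel_two' hJJ hGG hJG' hJ le_rfl (fun b hb => hb)]
  have c2 : Nat.card (hatt J hJJ T hJT) = 2 * Nat.card T := by
    rw [← rel_card'' T _ hTT, rel_two' hJJ hTT hJT'' hJ hTG (fun b hb => hb)]
  have c3 : T.relIndex G * Nat.card T = Nat.card G := rel_card'' T G hTG
  obtain ⟨a, ha⟩ := hd
  have c4 : 2 ^ (n + 1 + 1) ∣ Nat.card (hatt J hJJ G hJG) := by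
    refine ⟨a, ?_⟩
    rw [c1, ← c3, ha, hn]
    ring
  have c5 : Nat.card ((hatt J hJJ T hJT).subgroupOf (hatt J hJJ G hJG)) = 2 ^ (n + 1) := by
    rw [Nat.card_congr (Subgroup.subgroupOfEquivOfLe hTG').toEquiv, c2, hn]
    ring
  obtain ⟨K', hK', hle⟩ := Sylow.exists_subgroup_card_pow_succ c4 c5
  set Kh : Subgroup M := K'.map (hatt J hJJ G hJG).subtype with hKh
  have k1 : Kh ≤ hatt J hJJ G hJG := Subgroup.map_subtype_le _
  have k2 : hatt J hJJ T hJT ≤ Kh := by
    intro x hx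
    exact ⟨⟨x, hTG' hx⟩, hle (Subgroup.mem_subgroupOf.mpr hx), rfl⟩
  have k3 : Nat.card Kh = 2 ^ (n + 1 + 1) := by
    rw [← hK']
    exact Nat.card_congr (K'.equivMapOfInjective _ (Subgroup.subtype_injective _)).toEquiv.symm
  have hJK : J ∈ Kh := k2 hJT''
  -- `K = Kh ∩ G`
  have k4 : (Kh ⊓ G).relIndex Kh = 2 := by
    refine rel_two' hJJ inf_le_left hJK hJ inf_le_right ?_
    intro b hb
    rcases k1 hb with h | h
    · exact Or.inl ⟨hb, h⟩
    · exact Or.inr ⟨Kh.mul_mem hb hJK, h⟩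
  have k5 : Nat.card (Kh ⊓ G : Subgroup M) = 2 ^ (n + 1) := by
    have h := rel_card'' (Kh ⊓ G) Kh inf_le_left
    rw [k4, k3, pow_succ 2 (n + 1), mul_comm (2 ^ (n + 1)) 2] at h
    exact Nat.eq_of_mul_eq_mul_left (by norm_num) h
  have k6 : (hatt J hJJ T hJT).relIndex Kh = 2 := by
    have h := rel_card'' (hatt J hJJ T hJT) Kh k2
    rw [c2, hn, k3] at h
    have h0 : 0 < 2 * 2 ^ n := by positivity
    apply Nat.eq_of_mul_eq_mul_right h0
    rw [h]
    ring
  have k7 : ((hatt J hJJ T hJT).subgroupOf Kh).Normal := Subgroup.normal_of_index_eq_two k6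
  have k8 : ∀ k ∈ Kh, ∀ t ∈ hatt J hJJ T hJT, k * t * k⁻¹ ∈ hatt J hJJ T hJT := by
    intro k hk t ht
    have h := k7.conj_mem ⟨t, k2 ht⟩ (Subgroup.mem_subgroupOf.mpr ht) ⟨k, hk⟩
    exact Subgroup.mem_subgroupOf.mp h
  have k9 : ∀ x, x ∈ G → x ∈ hatt J hJJ T hJT → x ∈ T := by
    intro x hxG hx
    rcases hx with h | h
    · exact h
    · exfalso
      apply hJ
      have h1 := G.mul_mem (G.inv_mem hxG) (hTG h)
      rwa [inv_mul_cancel_left] at h1
  have k10 := hN (Kh ⊓ G) inf_le_right (IsPGroup.of_card k5)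
    (fun x hx => ⟨k2 (hTT hx), hTG hx⟩) (by
      rintro k ⟨hk1, hk2⟩ s hs
      obtain ⟨hsT, hsJ⟩ := (hST s).mp hs
      -- `t = k⁻¹ J k J ∈ T`
      have hk1' := Kh.inv_mem hk1
      have hk2' := G.inv_mem hk2
      have e1 : k⁻¹ * J * k * J ∈ T := by
        have h0 := k8 k⁻¹ hk1' J hJT''
        rw [inv_inv] at h0
        rcases h0 with h | h
        · exfalso
          apply hJ
          have h1 := G.mul_mem (G.mul_mem hk2 (hTG h)) hk2'
          have e : k * (k⁻¹ * J * k) * k⁻¹ = J := by group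
          rwa [e] at h1
        · exact h
      have e2 : k * s * k⁻¹ ∈ T :=
        k9 _ (G.mul_mem (G.mul_mem hk2 (hTG hsT)) (G.inv_mem hk2)) (k8 k hk1 s (hTT hsT))
      refine (hST _).mpr ⟨e2, ?_⟩
      have c1 : Commute (k⁻¹ * J * k * J) s := hcen _ e1 s hs
      have c2 : Commute J s := hsJ
      have c3 : Commute (k⁻¹ * J * k) s := by
        have h := c1.mul_left c2
        rwa [mul_assoc, hJJ, mul_one] at h
      calc J * (k * s * k⁻¹) = k * ((k⁻¹ * J * k) * s) * k⁻¹ := by group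
        _ = k * (s * (k⁻¹ * J * k)) * k⁻¹ := by rw [c3.eq]
        _ = k * s * k⁻¹ * J := by group)
  have k11 : Nat.card (Kh ⊓ G : Subgroup M) ≤ Nat.card T :=
    Nat.card_le_card_of_injective (Subgroup.inclusion k10) (Subgroup.inclusion_injective k10)
  rw [k5, hn, pow_succ] at k11
  have : 0 < 2 ^ n := by positivity
  omega

end ALoop
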