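import Pool.Agent.H4.FD.Pset

set_option autoImplicit false

/-!
The data of (3).
-/

namespace ALoop

open Equiv

variable {Q : Type*}

/-- the data of (3) -/
structure TE (G : Subgroup (Perm Q)) (J : Perm Q) (e : Q) (S T : Subgroup (Perm Q)) : Prop where
  hS : IsSyl (Inn G e) S
  hab : ∀ a ∈ S, ∀ b ∈ S, a * b = b * a
  hT : IsSyl G T
  ST : S ≤ T
  cen : ∀ t ∈ T, ∀ s ∈ S, t * s = s * t
  TH : ∀ t ∈ T, t e = e → t ∈ S
  JT : ∀ t ∈ T, J * t * J ∈ T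
  inv : ∀ t ∈ T, J * t * J * t ∈ S
  com : ∀ a ∈ T, ∀ b ∈ T, a * b * a⁻¹ * b⁻¹ ∈ S

end ALoop
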