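import Pool.Agent.H4.IS.Ext2
import Pool.Agent.H4.IS.Hat
import Pool.Agent.H4.IS.Loc
import Pool.Agent.H4.IS.TEdef
import Pool.Agent.H4.IS.SylE2

set_option autoImplicit false

/-!
The Sylow 2-subgroup `T` of `G` for an abelian Sylow 2-subgroup `S` of the inner mapping group.
-/

namespace ALoop

open Equiv

variable {Q : Type*} {G : Subgroup (Perm Q)} {L : Q → Perm Q} {J : Perm Q} {e : Q}
  {S T : Subgroup (Perm Q)}

/-- the elements of `C_G(S)` that act on the fixed points of `S` as an element of `W` -/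
def MW (G S : Subgroup (Perm Q)) (W : Subgroup (Perm (Fx S))) : Subgroup (Perm Q) where
  carrier := {g | g ∈ G ∧ (∀ s ∈ S, s * g = g * s) ∧ ∃ c ∈ W, ∀ q : Fx S, (c q : Q) = g q}
  one_mem' := ⟨G.one_mem, fun s _ => by rw [mul_one, one_mul], 1, W.one_mem, fun _ => rfl⟩
  mul_mem' := by
    rintro g g' ⟨hg, hgs, c, hc, hcg⟩ ⟨hg', hgs', c', hc', hcg'⟩
    refine ⟨G.mul_mem hg hg', ?_, c * c', W.mul_mem hc hc', ?_⟩
    · intro s hs
      have h1 : Commute s g := hgs s hs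
      have h2 : Commute s g' := hgs' s hs
      exact h1.mul_right h2
    · intro q
      rw [Perm.mul_apply, Perm.mul_apply, hcg, hcg']
  inv_mem' := by
    rintro g ⟨hg, hgs, c, hc, hcg⟩
    refine ⟨G.inv_mem hg, ?_, c⁻¹, W.inv_mem hc, ?_⟩
    · intro s hs
      have h1 : Commute s g := hgs s hs
      exact h1.inv_right
    · intro q
      rw [Perm.eq_inv_iff_eq, ← hcg, apply_inv']

theorem mem_MW {W : Subgroup (Perm (Fx S))} {g : Perm Q} : g ∈ MW G S W ↔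
    g ∈ G ∧ (∀ s ∈ S, s * g = g * s) ∧ ∃ c ∈ W, ∀ q : Fx S, (c q : Q) = g q := Iff.rfl

theorem two_pow_le {a b x y : ℕ} (h : 2 ^ a * x = 2 ^ b * y) (hy : Odd y) : a ≤ b := by
  have h1 : 2 ^ a ∣ 2 ^ b * y := ⟨x, h.symm⟩
  have h2 : Nat.Coprime (2 ^ a) y := Nat.Coprime.pow_left _ ((Nat.coprime_two_left).2 hy)
  have h3 := h2.dvd_of_dvd_mul_right h1
  exact (Nat.pow_dvd_pow_iff_le_right (by norm_num)).1 h3

theorem orbit_index' [Finite Q] {F : Set Q}
    (hF : ∀ p, p ∈ F ↔ ∃ g ∈ G, g e = p) : (Inn G e).relIndex G = Nat.card F := by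
  have h1 : (Inn G e).subgroupOf G = MulAction.stabilizer G e := by
    ext g
    rw [Subgroup.mem_subgroupOf, mem_Inn]
    exact ⟨fun hh => hh.2, fun hh => ⟨g.2, hh⟩⟩
  unfold Subgroup.relIndex
  rw [h1, MulAction.index_stabilizer]
  have h3 : MulAction.orbit G e = F := by
    ext p
    rw [hF p]
    constructor
    · rintro ⟨g, rfl⟩
      exact ⟨g, g.2, rfl⟩
    · rintro ⟨g, hg, rfl⟩
      exact ⟨⟨g, hg⟩, rfl⟩
  rw [h3]
  rfl

namespace AL

theorem exists_TE2 [Finite Q] (h : AL G L J e) (hS : IsSyl (Inn G e) S)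
    (hab : ∀ a ∈ S, ∀ b ∈ S, a * b = b * a) {x : Q} (hJx : J x = x) (hxe : x ≠ e) :
    ∃ T, TE G J e S T ∧ ∀ a ∈ T, ∀ m ∈ G, (∀ s ∈ S, s * m = m * s) →
      (m * a * m⁻¹ * a⁻¹) e = e := by
  classical
  have ho := h.toOM hS
  have hpos : 0 < Nat.card (Fx S) := by
    have : Nonempty (Fx S) := ⟨eb hS⟩
    exact Nat.card_pos
  obtain ⟨k, m, hm, hkm⟩ := Nat.exists_eq_two_pow_mul_odd hpos.ne'
  have hk1 : 2 ^ k ∣ Nat.card (Fx S) := ⟨m, hkm⟩
  have hk2 : ¬ 2 ^ (k + 1) ∣ Nat.card (Fx S) := by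
    intro h1
    rw [hkm, pow_succ] at h1
    have h2 := Nat.dvd_of_mul_dvd_mul_left (by positivity) h1
    rw [← even_iff_two_dvd] at h2
    exact (Nat.not_even_iff_odd.2 hm) h2
  obtain ⟨W, hWG, hW, hWc⟩ := ho.exists_W k hk1
  have hfree : ∀ c ∈ W, c (eb hS) = eb hS → c = 1 := by
    intro c hc hp
    apply ho.cent_ext (hW c hc) (p := eb hS)
    · intro g _; rw [mul_one, one_mul]
    · exact hp
  set A := MW G S W with hA
  have hAG : A ≤ G := fun g hg => (mem_MW.1 hg).1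
  have hJG := h.J_not_mem hJx hxe
  have hJA : ∀ a ∈ A, J * a * J ∈ A := by
    rintro a ha
    obtain ⟨haG, has, c, hc, hca⟩ := mem_MW.1 ha
    refine mem_MW.2 ⟨h.JG a haG, ?_, c⁻¹, W.inv_mem hc, ?_⟩
    · intro s hs
      have h1 : Commute s J := h.S_J hS s hs
      have h2 : Commute s a := has s hs
      exact (h1.mul_right h2).mul_right h1
    · intro q
      rw [← ho.JcJ (hW c hc), Perm.mul_apply, Perm.mul_apply, h.Jb_apply, hca, h.Jb_apply]
      rfl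
  have hJS : ∀ s ∈ S, J * s * J ∈ S := by
    intro s hs
    rw [← h.S_J hS s hs, mul_assoc, h.JJ1, mul_one]
    exact hs
  have hSA : S ≤ A := by
    intro s hs
    refine mem_MW.2 ⟨(hS.1 hs).1, fun r hr => hab r hr s hs, 1, W.one_mem, ?_⟩
    intro q
    exact (q.2 s hs).symm
  have hJnA : J ∉ A := fun hj => hJG (hAG hj)
  have hJnS : J ∉ S := fun hj => hJnA (hSA hj)
  -- the Sylow subgroup
  have hS2 : IsPGroup 2 (Hat S J h.JJ1 hJS) := by
    have : Fact (Nat.Prime 2) := ⟨Nat.prime_two⟩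
    have hS2 := hS.2.1
    rw [IsPGroup.iff_card] at hS2 ⊢
    obtain ⟨n, hn⟩ := hS2
    exact ⟨n + 1, by rw [card_Hat hJnS, hn, pow_succ, mul_comm]⟩
  have hSle : Hat S J h.JJ1 hJS ≤ Hat A J h.JJ1 hJA := by
    intro p hp
    rcases mem_Hat.1 hp with hp | hp
    · exact mem_Hat.2 (Or.inl (hSA hp))
    · exact mem_Hat.2 (Or.inr (hSA hp))
  obtain ⟨Th, hTh, hSTh⟩ := exists_syl_ge hSle hS2
  set T := Th ⊓ A with hT
  have hJTh : J ∈ Th := hSTh J_mem_Hat
  have hTA : T ≤ A := inf_le_right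
  have hTG : T ≤ G := hTA.trans hAG
  have hST : S ≤ T := fun s hs => ⟨hSTh (le_Hat hs), hSA hs⟩
  have hT2 : IsPGroup 2 T := hTh.2.1.to_le inf_le_left
  have hJT : ∀ t ∈ T, J * t * J ∈ T := fun t ht =>
    ⟨Th.mul_mem (Th.mul_mem hJTh ht.1) hJTh, hJA t ht.2⟩
  have hTH : ∀ t ∈ T, t e = e → t ∈ S := by
    intro t ht hte
    have h1 := hS.max (N := T ⊓ Inn G e) (fun s hs => ⟨hST hs, hS.1 hs⟩) inf_le_right
      (hT2.to_le inf_le_left)
    exact h1 ⟨ht, mem_Inn.2 ⟨hTG ht, hte⟩⟩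
  have hcen : ∀ t ∈ T, ∀ s ∈ S, t * s = s * t := fun t ht s hs =>
    ((mem_MW.1 (hTA ht)).2.1 s hs).symm
  have hinv : ∀ t ∈ T, J * t * J * t ∈ S := by
    intro t ht
    apply hTH _ (T.mul_mem (hJT t ht) ht)
    obtain ⟨htG, hts, c, hc, hct⟩ := mem_MW.1 (hTA ht)
    have h1 : (h.Jb hS * c * h.Jb hS * c) (eb hS) = eb hS := by
      rw [ho.JcJ (hW c hc), inv_mul_cancel, Perm.one_apply]
    have h2 := congrArg Subtype.val h1
    rw [Perm.mul_apply, Perm.mul_apply, Perm.mul_apply, h.Jb_apply, hct, h.Jb_apply, hct] at h2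
    exact h2
  have hcom : ∀ a ∈ T, ∀ b ∈ T, a * b * a⁻¹ * b⁻¹ ∈ S := by
    intro a ha b hb
    apply hTH _ (T.mul_mem (T.mul_mem (T.mul_mem ha hb) (T.inv_mem ha)) (T.inv_mem hb))
    obtain ⟨haG, has, c, hc, hca⟩ := mem_MW.1 (hTA ha)
    obtain ⟨hbG, hbs, d, hd, hdb⟩ := mem_MW.1 (hTA hb)
    have h1 : c * d * c⁻¹ * d⁻¹ = 1 := by
      rw [hW d hd c (hWG hc)]; group
    have hinvp : ∀ (f : Perm (Fx S)) (g : Perm Q), (∀ q, (f q : Q) = g q) →
        ∀ q, ((f⁻¹ q : Fx S) : Q) = g⁻¹ q := by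
      intro f g hfg q
      rw [Perm.eq_inv_iff_eq, ← hfg, apply_inv']
    have h2 := congrArg (fun f : Perm (Fx S) => ((f (eb hS) : Fx S) : Q)) h1
    simp only [Perm.mul_apply] at h2
    rw [hca, hdb, hinvp c a hca, hinvp d b hdb] at h2
    exact h2
  -- cardinalities
  have hThat : Th = Hat T J h.JJ1 hJT := by
    apply le_antisymm
    · intro p hp
      rcases mem_Hat.1 (hTh.1 hp) with h1 | h1
      · exact mem_Hat.2 (Or.inl ⟨hp, h1⟩)
      · exact mem_Hat.2 (Or.inr ⟨Th.mul_mem hp hJTh, h1⟩)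
    · intro p hp
      rcases mem_Hat.1 hp with h1 | h1
      · exact h1.1
      · have h2 : p = (p * J) * J := by rw [mul_assoc, h.JJ1, mul_one]
        rw [h2]
        exact Th.mul_mem h1.1 hJTh
  have hJnT : J ∉ T := fun hj => hJnA (hTA hj)
  have hcTh : Nat.card Th = 2 * Nat.card T := by
    rw [hThat]; exact card_Hat hJnT
  have hcA : Nat.card (Hat A J h.JJ1 hJA) = 2 * Nat.card A := card_Hat hJnA
  have r1 := rel_card_mul hTh.1
  rw [hcTh, hcA] at r1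
  have r1' : Th.relIndex (Hat A J h.JJ1 hJA) * Nat.card T = Nat.card A := by
    have h1 : 2 * (Th.relIndex (Hat A J h.JJ1 hJA) * Nat.card T) = 2 * Nat.card A := by
      rw [← r1]; ring
    omega
  have hSI : IsSyl (Inn A e) S := by
    refine hS.mono (fun s hs => mem_Inn.2 ⟨hSA hs, (hS.1 hs).2⟩) ?_
    intro g hg
    exact mem_Inn.2 ⟨hAG (mem_Inn.1 hg).1, (mem_Inn.1 hg).2⟩
  have r2 := rel_card_mul hSI.1
  have hIA : Inn A e ≤ A := inf_le_left
  have r3 := rel_card_mul hIA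
  -- the index of the stabiliser
  have r4 : (Inn A e).relIndex A = 2 ^ k := by
    have h1 := orbit_index' (G := A) (e := e)
      (F := Set.range (fun c : W => (((c : Perm (Fx S)) (eb hS) : Fx S) : Q))) (by
        intro p
        constructor
        · rintro ⟨⟨c, hc⟩, rfl⟩
          obtain ⟨g, hg, hgs, hgc⟩ := hWG hc
          refine ⟨g, mem_MW.2 ⟨hg, hgs, c, hc, hgc⟩, ?_⟩
          exact (hgc (eb hS)).symm
        · rintro ⟨g, hg, rfl⟩
          obtain ⟨-, -, c, hc, hgc⟩ := mem_MW.1 hg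
          exact ⟨⟨c, hc⟩, hgc (eb hS)⟩)
    rw [h1, ← hWc]
    apply Nat.card_range_of_injective
    rintro ⟨c, hc⟩ ⟨d, hd⟩ hcd
    apply Subtype.ext
    apply ho.cent_ext (hW c hc) (hW d hd) (p := eb hS)
    exact Subtype.ext hcd
  have o1 : Odd (S.relIndex (Inn A e)) := Nat.not_even_iff_odd.mp fun h => hSI.2.2 h.two_dvd
  have o2 : Odd (Th.relIndex (Hat A J h.JJ1 hJA)) :=
    Nat.not_even_iff_odd.mp fun h => hTh.2.2 h.two_dvd
  have hTc : Nat.card T = 2 ^ k * Nat.card S := by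
    have : Fact (Nat.Prime 2) := ⟨Nat.prime_two⟩
    obtain ⟨t, ht⟩ := IsPGroup.iff_card.1 hT2
    obtain ⟨n, hn⟩ := IsPGroup.iff_card.1 hS.2.1
    have h1 : 2 ^ t * Th.relIndex (Hat A J h.JJ1 hJA) = 2 ^ (k + n) * S.relIndex (Inn A e) := by
      rw [← ht, mul_comm, r1', ← r3, r4, ← r2, hn, pow_add]; ring
    have h2 := two_pow_le h1 o1
    have h3 := two_pow_le h1.symm o2
    rw [ht, hn, ← pow_add]
    congr 1
    omega
  refine ⟨T, ⟨hS, hab, ?_, hST, hcen, hTH, hJT, hinv, hcom⟩, ?_⟩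
  swap
  · intro a ha m hm hms
    obtain ⟨haG, has, c, hc, hca⟩ := mem_MW.1 (hTA ha)
    have hmres : resP S m hms ∈ resG G S := ⟨m, hm, hms, fun q => rfl⟩
    have h1 : resP S m hms * c * (resP S m hms)⁻¹ * c⁻¹ = 1 := by
      rw [hW c hc _ hmres]; group
    have hinvp : ∀ (f : Perm (Fx S)) (g : Perm Q), (∀ q, (f q : Q) = g q) →
        ∀ q, ((f⁻¹ q : Fx S) : Q) = g⁻¹ q := by
      intro f g hfg q
      rw [Perm.eq_inv_iff_eq, ← hfg, apply_inv']
    have h2 := congrArg (fun f : Perm (Fx S) => ((f (eb hS) : Fx S) : Q)) h1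
    simp only [Perm.mul_apply] at h2
    rw [resP_apply, hca, hinvp (resP S m hms) m (fun q => rfl), hinvp c a hca] at h2
    exact h2
  apply syl_ext2 G T S J h.JJ1 h.JG hJG hTG hT2 hcen hJT
  · intro p
    constructor
    · intro hp
      exact ⟨hST hp, (h.S_J hS p hp).symm⟩
    · rintro ⟨hp, hpJ⟩
      exact hTH p hp (h.centJ (hTG hp) hpJ.symm)
  · intro K hKG hK2 hTK hKS
    exact norm_le hS (fun p hp => ⟨L p, h.memL p, h.S_L hS hp, h.Le p⟩) hTc hk2 hKG hK2 hTK hKS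

theorem exists_TE [Finite Q] (h : AL G L J e) (hS : IsSyl (Inn G e) S)
    (hab : ∀ a ∈ S, ∀ b ∈ S, a * b = b * a) {x : Q} (hJx : J x = x) (hxe : x ≠ e) :
    ∃ T, TE G J e S T := by
  obtain ⟨T, d, -⟩ := h.exists_TE2 hS hab hJx hxe
  exact ⟨T, d⟩

end AL

end ALoop
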