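import Mathlib

set_option autoImplicit false

/-!
# A normal subgroup from the transfer into `T / S`
-/

namespace ALoop

open Subgroup MulAction

theorem exists_kernel {M : Type*} [Group M] [Finite M] (G T S : Subgroup M) (hTG : T ≤ G)
    (hT : IsPGroup 2 T) (hodd : ¬ 2 ∣ T.relIndex G) (hST : S ≤ T)
    (hcom : ∀ a ∈ T, ∀ b ∈ T, a * b * a⁻¹ * b⁻¹ ∈ S)
    (hfus : ∀ g ∈ G, ∀ a ∈ T, g * a * g⁻¹ ∈ T → g * a * g⁻¹ * a⁻¹ ∈ S) :
    ∃ N : Subgroup M, N ≤ G ∧ (∀ g ∈ G, ∀ n ∈ N, g * n * g⁻¹ ∈ N) ∧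
      ∀ t ∈ T, (t ∈ N ↔ t ∈ S) := by
  classical
  let K : Subgroup T := S.subgroupOf T
  have hK : K.Normal := ⟨by
    intro s hs g
    rw [Subgroup.mem_subgroupOf] at hs ⊢
    have h1 := hcom g g.2 s (hST hs)
    have h2 : ((g * s * g⁻¹ : T) : M) = (g * s * (g : M)⁻¹ * (s : M)⁻¹) * s := by
      push_cast; group
    rw [h2]
    exact S.mul_mem h1 hs⟩
  have hcomm : ∀ a b : T ⧸ K, a * b = b * a := by
    intro a b
    induction a using QuotientGroup.induction_on with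
    | H a =>
      induction b using QuotientGroup.induction_on with
      | H b =>
        rw [← QuotientGroup.mk_mul, ← QuotientGroup.mk_mul, QuotientGroup.eq,
          Subgroup.mem_subgroupOf]
        have h1 := hcom (b : M)⁻¹ (T.inv_mem b.2) (a : M)⁻¹ (T.inv_mem a.2)
        have h2 : (((a * b)⁻¹ * (b * a) : T) : M) =
            (b : M)⁻¹ * (a : M)⁻¹ * ((b : M)⁻¹)⁻¹ * ((a : M)⁻¹)⁻¹ := by
          push_cast
          group
        rw [h2]
        exact h1
  let inst : CommGroup (T ⧸ K) := { (inferInstance : Group (T ⧸ K)) with mul_comm := hcomm }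
  let φ : T.subgroupOf G →* T ⧸ K :=
    (QuotientGroup.mk' K).comp (Subgroup.subgroupOfEquivOfLe hTG).toMonoidHom
  set V : G →* T ⧸ K := MonoidHom.transfer φ with hV
  have hfin : ∀ Z : G, Fintype (Quotient (orbitRel (zpowers Z) (G ⧸ T.subgroupOf G))) :=
    fun Z => Fintype.ofFinite _
  -- the transfer on `T`
  have hVT : ∀ (t : M) (ht : t ∈ T), V ⟨t, hTG ht⟩ =
      (QuotientGroup.mk' K ⟨t, ht⟩) ^ (T.subgroupOf G).index := by
    intro t ht
    set Z : G := ⟨t, hTG ht⟩ with hZ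
    have := hfin Z
    have hfac : ∀ q : Quotient (orbitRel (zpowers Z) (G ⧸ T.subgroupOf G)),
        φ ⟨q.out.out⁻¹ * Z ^ Function.minimalPeriod (Z • ·) q.out * q.out.out,
          QuotientGroup.out_conj_pow_minimalPeriod_mem (T.subgroupOf G) Z q.out⟩ =
        (QuotientGroup.mk' K ⟨t, ht⟩) ^ Function.minimalPeriod (Z • ·) q.out := by
      intro q
      have hmem := QuotientGroup.out_conj_pow_minimalPeriod_mem (T.subgroupOf G) Z q.out
      rw [Subgroup.mem_subgroupOf] at hmem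
      set m := Function.minimalPeriod (Z • ·) q.out with hm
      rw [← map_pow]
      show QuotientGroup.mk' K _ = _
      rw [QuotientGroup.mk'_apply, QuotientGroup.mk'_apply, eq_comm, QuotientGroup.eq,
        Subgroup.mem_subgroupOf]
      set g : M := ((q.out.out : G) : M)⁻¹ with hg
      have hgG : g ∈ G := G.inv_mem (q.out.out : G).2
      have h1 : g * t ^ m * g⁻¹ ∈ T := by
        have h2 : ((q.out.out⁻¹ * Z ^ m * q.out.out : G) : M) = g * t ^ m * g⁻¹ := by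
          push_cast; rw [hg, inv_inv]
        rw [← h2]; exact hmem
      have h3 := hfus g hgG (t ^ m) (T.pow_mem ht m) h1
      -- move to the other side
      have h4 : ((((⟨t, ht⟩ : T) ^ m)⁻¹ *
          (Subgroup.subgroupOfEquivOfLe hTG) ⟨q.out.out⁻¹ * Z ^ m * q.out.out, by
            rw [Subgroup.mem_subgroupOf]; exact hmem⟩ : T) : M) =
          (t ^ m)⁻¹ * (g * t ^ m * g⁻¹ * (t ^ m)⁻¹) * (t ^ m) := by
        push_cast
        have h5 : ((((Subgroup.subgroupOfEquivOfLe hTG) ⟨q.out.out⁻¹ * Z ^ m * q.out.out, by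
            rw [Subgroup.mem_subgroupOf]; exact hmem⟩ : T) : M)) = g * t ^ m * g⁻¹ := by
          show ((q.out.out⁻¹ * Z ^ m * q.out.out : G) : M) = _
          push_cast; rw [hg, inv_inv]
        rw [h5]; group
      have h6 : (t ^ m)⁻¹ * (g * t ^ m * g⁻¹ * (t ^ m)⁻¹) * (t ^ m) ∈ S := by
        have h7 := hcom (t ^ m)⁻¹ (T.inv_mem (T.pow_mem ht m)) _ (hST h3)
        have h8 : (t ^ m)⁻¹ * (g * t ^ m * g⁻¹ * (t ^ m)⁻¹) * (t ^ m) =
            ((t ^ m)⁻¹ * (g * t ^ m * g⁻¹ * (t ^ m)⁻¹) * ((t ^ m)⁻¹)⁻¹ *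
              (g * t ^ m * g⁻¹ * (t ^ m)⁻¹)⁻¹) * (g * t ^ m * g⁻¹ * (t ^ m)⁻¹) := by
          group
        rw [h8]
        exact S.mul_mem h7 h3
      rw [← h4] at h6
      exact h6
    rw [hV, MonoidHom.transfer_eq_prod_quotient_orbitRel_zpowers_quot,
      Finset.prod_congr rfl fun q _ => hfac q, Finset.prod_pow_eq_pow_sum,
      ← Subgroup.index_eq_sum_minimalPeriod]
  refine ⟨V.ker.map G.subtype, Subgroup.map_subtype_le _, ?_, ?_⟩
  · rintro g hg _ ⟨n, hn, rfl⟩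
    refine ⟨⟨g, hg⟩ * n * ⟨g, hg⟩⁻¹, ?_, rfl⟩
    exact (inferInstance : V.ker.Normal).conj_mem n hn ⟨g, hg⟩
  · intro t ht
    have hodd' : Odd (T.subgroupOf G).index := by
      rw [← Nat.not_even_iff_odd, even_iff_two_dvd]; exact hodd
    constructor
    · rintro ⟨n, hn, hnt⟩
      have h1 : n = ⟨t, hTG ht⟩ := Subtype.ext hnt
      rw [h1] at hn
      have h2 : V ⟨t, hTG ht⟩ = 1 := hn
      rw [hVT t ht] at h2
      -- order argument
      obtain ⟨k, hk⟩ := hT ⟨t, ht⟩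
      have h3 : (QuotientGroup.mk' K ⟨t, ht⟩) ^ 2 ^ k = 1 := by
        rw [← map_pow, hk, map_one]
      have h4 : QuotientGroup.mk' K ⟨t, ht⟩ = 1 := by
        have hcop : Nat.Coprime (2 ^ k) (T.subgroupOf G).index :=
          Nat.Coprime.pow_left _ ((Nat.coprime_two_left).2 hodd')
        have h5 := Nat.dvd_gcd (orderOf_dvd_of_pow_eq_one h3) (orderOf_dvd_of_pow_eq_one h2)
        rw [hcop.gcd_eq_one] at h5
        exact orderOf_eq_one_iff.1 (Nat.dvd_one.1 h5)
      rw [QuotientGroup.mk'_apply, QuotientGroup.eq_one_iff, Subgroup.mem_subgroupOf] at h4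
      exact h4
    · intro hts
      refine ⟨⟨t, hTG ht⟩, ?_, rfl⟩
      show V ⟨t, hTG ht⟩ = 1
      rw [hVT t ht]
      have h4 : QuotientGroup.mk' K ⟨t, ht⟩ = 1 := by
        rw [QuotientGroup.mk'_apply, QuotientGroup.eq_one_iff, Subgroup.mem_subgroupOf]
        exact hts
      rw [h4, one_pow]

end ALoop
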