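import Pool.Agent.H4.IS.Burn
import Pool.Agent.H4.IS.Hat

set_option autoImplicit false

/-!
(iii), (iv): weak closure of `S` and control of fusion by the normaliser of `S`.
-/

namespace ALoop

variable {M : Type*} [Group M] [Finite M] {G T S : Subgroup M}

theorem weak_closed (hT : IsSyl G T) (hST : S ≤ T) (hcen : ∀ t ∈ T, ∀ s ∈ S, t * s = s * t)
    (hcom : ∀ a ∈ T, ∀ b ∈ T, a * b * a⁻¹ * b⁻¹ ∈ S)
    (hX : ∀ X : Subgroup M, S ≤ X → X ≤ T → ∀ g ∈ G, (∀ x ∈ X, g * x * g⁻¹ ∈ X) →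
      ∀ s ∈ S, g * s * g⁻¹ ∈ S) {g : M} (hg : g ∈ G) (hgS : ∀ s ∈ S, g * s * g⁻¹ ∈ T) :
    ∀ s ∈ S, g * s * g⁻¹ ∈ S := by
  have hTG := hT.1
  have hS2 : IsPGroup 2 S := hT.2.1.to_le hST
  -- without loss `S ≤ g T g⁻¹`
  have hC : ∀ c, c ∈ (G ⊓ Subgroup.centralizer (S : Set M) : Subgroup M) ↔
      c ∈ G ∧ ∀ s ∈ S, s * c = c * s := by
    intro c
    rw [Subgroup.mem_inf, Subgroup.mem_centralizer_iff]
    exact Iff.rfl
  have hTC : IsSyl (G ⊓ Subgroup.centralizer (S : Set M) : Subgroup M) T :=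
    hT.mono (fun t ht => (hC t).2 ⟨hTG ht, fun s hs => (hcen t ht s hs).symm⟩) inf_le_left
  obtain ⟨c, hc, hcT⟩ := hTC.conj_mem hS2 g (by
    intro s hs
    refine (hC _).2 ⟨G.mul_mem (G.mul_mem (G.inv_mem hg) (hTG (hST hs))) hg, ?_⟩
    intro s' hs'
    have h1 := hcen _ (hgS s' hs') s hs
    calc s' * (g⁻¹ * s * g) = g⁻¹ * ((g * s' * g⁻¹) * s) * g := by group
      _ = g⁻¹ * (s * (g * s' * g⁻¹)) * g := by rw [h1]
      _ = g⁻¹ * s * g * s' := by group)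
  obtain ⟨hcG, hcS⟩ := (hC c).1 hc
  set g' := g * c⁻¹ with hg'
  have hg'G : g' ∈ G := G.mul_mem hg (G.inv_mem hcG)
  have hconj : ∀ s ∈ S, g' * s * g'⁻¹ = g * s * g⁻¹ := by
    intro s hs
    have h1 := hcS s hs
    calc g' * s * g'⁻¹ = g * (c⁻¹ * (s * c)) * g⁻¹ := by rw [hg']; group
      _ = g * s * g⁻¹ := by rw [h1]; group
  have hST' : ∀ s ∈ S, g'⁻¹ * s * g' ∈ T := by
    intro s hs
    have h1 := hcT s hs
    have h2 : g'⁻¹ * s * g' = c * (g⁻¹ * s * g) * c⁻¹ := by rw [hg']; group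
    rw [h2]; exact h1
  -- the product of `S` and its conjugate
  have hg'T : ∀ s ∈ S, g' * s * g'⁻¹ ∈ T := fun s hs => by rw [hconj s hs]; exact hgS s hs
  have hcc : ∀ s ∈ S, ∀ s' ∈ S, (g' * s' * g'⁻¹) * s = s * (g' * s' * g'⁻¹) :=
    fun s hs s' hs' => hcen _ (hg'T s' hs') s hs
  let X : Subgroup M :=
    { carrier := {x | ∃ s ∈ S, ∃ s' ∈ S, x = s * (g' * s' * g'⁻¹)}
      one_mem' := ⟨1, S.one_mem, 1, S.one_mem, by group⟩
      mul_mem' := by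
        rintro _ _ ⟨s, hs, s', hs', rfl⟩ ⟨r, hr, r', hr', rfl⟩
        refine ⟨s * r, S.mul_mem hs hr, s' * r', S.mul_mem hs' hr', ?_⟩
        calc s * (g' * s' * g'⁻¹) * (r * (g' * r' * g'⁻¹))
            = s * ((g' * s' * g'⁻¹) * r) * (g' * r' * g'⁻¹) := by group
          _ = s * (r * (g' * s' * g'⁻¹)) * (g' * r' * g'⁻¹) := by rw [hcc r hr s' hs']
          _ = _ := by group
      inv_mem' := by
        rintro _ ⟨s, hs, s', hs', rfl⟩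
        refine ⟨s⁻¹, S.inv_mem hs, s'⁻¹, S.inv_mem hs', ?_⟩
        have h1 := hcc _ (S.inv_mem hs) _ (S.inv_mem hs')
        rw [← h1]; group }
  have hSX : S ≤ X := fun s hs => ⟨s, hs, 1, S.one_mem, by group⟩
  have hSX' : ∀ s ∈ S, g' * s * g'⁻¹ ∈ X := fun s hs => ⟨1, S.one_mem, s, hs, by group⟩
  have hXT : X ≤ T := by
    rintro _ ⟨s, hs, s', hs', rfl⟩
    exact T.mul_mem (hST hs) (hg'T s' hs')
  have hXT' : ∀ x ∈ X, g'⁻¹ * x * g' ∈ T := by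
    rintro _ ⟨s, hs, s', hs', rfl⟩
    have h1 : g'⁻¹ * (s * (g' * s' * g'⁻¹)) * g' = (g'⁻¹ * s * g') * s' := by group
    rw [h1]
    exact T.mul_mem (hST' s hs) (hST hs')
  have hTN : ∀ t ∈ T, ∀ x ∈ X, t * x * t⁻¹ ∈ X := by
    intro t ht x hx
    have h1 := hcom t ht x (hXT hx)
    have h2 : t * x * t⁻¹ = (t * x * t⁻¹ * x⁻¹) * x := by group
    rw [h2]; exact X.mul_mem (hSX h1) hx
  have hTN' : ∀ t ∈ T, ∀ x ∈ X, (g' * t * g'⁻¹) * x * (g' * t * g'⁻¹)⁻¹ ∈ X := by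
    intro t ht x hx
    have h1 := hcom t ht _ (hXT' x hx)
    have h2 : (g' * t * g'⁻¹) * x * (g' * t * g'⁻¹)⁻¹ =
        (g' * (t * (g'⁻¹ * x * g') * t⁻¹ * (g'⁻¹ * x * g')⁻¹) * g'⁻¹) * x := by group
    rw [h2]; exact X.mul_mem (hSX' _ h1) hx
  let N : Subgroup M :=
    { carrier := {a | ∀ x ∈ X, a * x * a⁻¹ ∈ X}
      one_mem' := fun x hx => by simpa using hx
      mul_mem' := by
        intro a b ha hb x hx
        have h1 : (a * b) * x * (a * b)⁻¹ = a * (b * x * b⁻¹) * a⁻¹ := by group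
        rw [h1]; exact ha _ (hb x hx)
      inv_mem' := by
        intro a ha x hx
        rw [inv_inv]; exact norm_symm ha x hx }
  have hSyl : IsSyl (G ⊓ N) T := hT.mono (fun t ht => ⟨hTG ht, hTN t ht⟩) inf_le_left
  obtain ⟨n, hn, hnT⟩ := hSyl.conj_mem hT.2.1 g'⁻¹ (by
    intro t ht
    rw [inv_inv]
    exact ⟨G.mul_mem (G.mul_mem hg'G (hTG ht)) (G.inv_mem hg'G), hTN' t ht⟩)
  have h1 := hX T hST le_rfl (n * g') (G.mul_mem hn.1 hg'G) (by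
    intro t ht
    have h2 := hnT t ht
    rw [inv_inv] at h2
    have h3 : n * g' * t * (n * g')⁻¹ = n * (g' * t * g'⁻¹) * n⁻¹ := by group
    rw [h3]; exact h2)
  have h2 := hX X hSX hXT n hn.1 hn.2
  intro s hs
  rw [← hconj s hs]
  have h3 := norm_symm h2 _ (h1 s hs)
  have h4 : n⁻¹ * (n * g' * s * (n * g')⁻¹) * n = g' * s * g'⁻¹ := by group
  rwa [h4] at h3

theorem fus_norm (hT : IsSyl G T) (hST : S ≤ T) (hcen : ∀ t ∈ T, ∀ s ∈ S, t * s = s * t)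
    (hwc : ∀ g ∈ G, (∀ s ∈ S, g * s * g⁻¹ ∈ T) → ∀ s ∈ S, g * s * g⁻¹ ∈ S) {a g : M}
    (ha : a ∈ T) (hg : g ∈ G) (hga : g * a * g⁻¹ ∈ T) :
    ∃ m ∈ G, (∀ s ∈ S, m * s * m⁻¹ ∈ S) ∧ m * a * m⁻¹ = g * a * g⁻¹ := by
  have hTG := hT.1
  have hS2 : IsPGroup 2 S := hT.2.1.to_le hST
  set b := g * a * g⁻¹ with hb
  have hC : ∀ c, c ∈ (G ⊓ Subgroup.centralizer {b} : Subgroup M) ↔ c ∈ G ∧ c * b = b * c := by
    intro c
    rw [Subgroup.mem_inf, Subgroup.mem_centralizer_singleton_iff]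
  have hSC : S ≤ (G ⊓ Subgroup.centralizer {b} : Subgroup M) := fun s hs =>
    (hC s).2 ⟨hTG (hST hs), (hcen b hga s hs).symm⟩
  obtain ⟨R, hR, hSR⟩ := exists_syl_ge hSC hS2
  obtain ⟨c, hc, hcR⟩ := hR.conj_mem hS2 g⁻¹ (by
    intro s hs
    rw [inv_inv]
    refine (hC _).2 ⟨G.mul_mem (G.mul_mem hg (hTG (hST hs))) (G.inv_mem hg), ?_⟩
    have h1 := hcen a ha s hs
    calc g * s * g⁻¹ * b = g * (s * a) * g⁻¹ := by rw [hb]; group
      _ = g * (a * s) * g⁻¹ := by rw [h1]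
      _ = b * (g * s * g⁻¹) := by rw [hb]; group)
  obtain ⟨hcG, hcb⟩ := (hC c).1 hc
  obtain ⟨y, hy, hyT⟩ := hT.conj_mem hR.2.1 1 (by
    intro r hr
    rw [inv_one, one_mul, mul_one]
    exact ((hC r).1 (hR.1 hr)).1)
  have hy1 := hwc y hy (by
    intro s hs
    have := hyT s (hSR hs)
    rwa [inv_one, one_mul, mul_one] at this)
  have hy2 := hwc (y * (c * g)) (G.mul_mem hy (G.mul_mem hcG hg)) (by
    intro s hs
    have h1 := hyT _ (hcR s hs)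
    rw [inv_one, one_mul, mul_one, inv_inv] at h1
    have h2 : y * (c * g) * s * (y * (c * g))⁻¹ = y * (c * (g * s * g⁻¹) * c⁻¹) * y⁻¹ := by group
    rw [h2]; exact h1)
  refine ⟨c * g, G.mul_mem hcG hg, ?_, ?_⟩
  · intro s hs
    have h1 := norm_symm hy1 _ (hy2 s hs)
    have h2 : y⁻¹ * (y * (c * g) * s * (y * (c * g))⁻¹) * y = c * g * s * (c * g)⁻¹ := by group
    rwa [h2] at h1
  · calc c * g * a * (c * g)⁻¹ = (c * b) * c⁻¹ := by rw [hb]; group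
      _ = b := by rw [hcb]; group

end ALoop
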