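import Pool.Agent.H4.IS.BB
import Pool.Agent.H4.IS.TW
import Pool.Agent.H4.IS.TransC
import Pool.Agent.H4.IS.Weak

set_option autoImplicit false

/-!
An abelian Sylow 2-subgroup of the inner mapping group is not central in its normaliser.
-/

namespace ALoop

open Equiv

variable {Q : Type*} {G : Subgroup (Perm Q)} {L : Q → Perm Q} {J : Perm Q} {e : Q}
  {S T : Subgroup (Perm Q)} {x : Q}

namespace AL

/-- an element of `G` that normalises `S` centralises `S` -/
theorem norm_cent_S [Finite Q] (h : AL G L J e) (hS : IsSyl (Inn G e) S) (hc : HC G e S)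
    {m : Perm Q} (hmG : m ∈ G) (hmS : ∀ s ∈ S, m * s * m⁻¹ ∈ S) : ∀ s ∈ S, s * m = m * s := by
  set p := m e with hp
  have hpS : ∀ s ∈ S, s p = p := by
    intro s hs
    have hmS' : ∀ s ∈ S, m⁻¹ * s * m ∈ S := norm_symm hmS
    have h2 : (m⁻¹ * s * m) e = e := (hS.1 (hmS' s hs)).2
    rw [Perm.mul_apply, Perm.mul_apply, Perm.inv_eq_iff_eq, ← hp] at h2
    exact h2
  have hSL := h.S_L hS hpS
  have hn : (L p)⁻¹ * m ∈ Inn G e := by
    refine mem_Inn.2 ⟨G.mul_mem (G.inv_mem (h.memL p)) hmG, ?_⟩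
    rw [Perm.mul_apply, ← hp, Perm.inv_eq_iff_eq, h.Le]
  have hcent := hc _ hn (by
    intro s hs
    have h1 := hmS s hs
    have h2 : Commute (m * s * m⁻¹) (L p) := hSL _ h1
    have h3 : (L p)⁻¹ * m * s * ((L p)⁻¹ * m)⁻¹ = (L p)⁻¹ * (m * s * m⁻¹) * L p := by group
    rw [h3, mul_assoc, h2.eq, inv_mul_cancel_left]
    exact h1)
  intro s hs
  have c1 : Commute ((L p)⁻¹ * m) s := hcent s hs
  have c2 : Commute (L p) s := (hSL s hs).symm
  have c3 := c2.mul_left c1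
  rw [mul_inv_cancel_left] at c3
  exact c3.symm.eq

/-- an abelian Sylow 2-subgroup of the inner mapping group is not central in its normaliser -/
theorem burnside [Finite Q] (h : AL G L J e) (hcard : 2 ∣ Nat.card Q) (hS : IsSyl (Inn G e) S)
    (hab : ∀ a ∈ S, ∀ b ∈ S, a * b = b * a) : ¬ HC G e S := by
  intro hc
  obtain ⟨x, hxe, hJx, hSx⟩ := h.exists_x2 hcard hS
  have hJG := h.J_not_mem hJx hxe
  obtain ⟨T, d, hw⟩ := h.exists_TE2 hS hab hJx hxe
  have hwc : ∀ g ∈ G, (∀ s ∈ S, g * s * g⁻¹ ∈ T) → ∀ s ∈ S, g * s * g⁻¹ ∈ S :=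
    fun g hg hgS => weak_closed d.hT d.ST d.cen d.com
      (fun X hSX hXT g hg hgX => d.norm_X h hc hJG hSX hXT hg hgX) hg hgS
  have hfus : ∀ g ∈ G, ∀ a ∈ T, g * a * g⁻¹ ∈ T → g * a * g⁻¹ * a⁻¹ ∈ S := by
    intro g hg a ha hga
    obtain ⟨m, hm, hmS, hma⟩ := fus_norm d.hT d.ST d.cen hwc ha hg hga
    apply d.TH _ (T.mul_mem hga (T.inv_mem ha))
    rw [← hma]
    exact hw a ha m hm (h.norm_cent_S hS hc hm hmS)
  obtain ⟨N, hNG, hNn, hNT⟩ := exists_kernel G T S d.hT.1 d.hT.2.1 d.hT.2.2 d.ST d.com hfus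
  have hSN : S ≤ N := fun s hs => (hNT s (d.ST hs)).2 hs
  -- `S` is a Sylow 2-subgroup of `N`
  obtain ⟨P, hP, hSP⟩ := exists_syl_ge hSN hS.2.1
  obtain ⟨c, hcG, hcT⟩ := d.hT.conj_mem hP.2.1 1 (by
    intro p hp
    rw [inv_one, one_mul, mul_one]
    exact hNG (hP.1 hp))
  have hcS : ∀ p ∈ P, c * p * c⁻¹ ∈ S := by
    intro p hp
    have h1 := hcT p hp
    rw [inv_one, one_mul, mul_one] at h1
    exact (hNT _ h1).1 (hNn c hcG p (hP.1 hp))
  have hle : Nat.card P ≤ Nat.card S := by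
    refine Nat.card_le_card_of_injective (fun p => (⟨c * p * c⁻¹, hcS p p.2⟩ : S)) ?_
    intro a b hab
    have h3 : c * (a : Perm Q) * c⁻¹ = c * (b : Perm Q) * c⁻¹ := congrArg Subtype.val hab
    exact Subtype.ext (mul_left_cancel (mul_right_cancel h3))
  have hPS : S = P := Subgroup.eq_of_le_of_card_ge hSP hle
  -- `N` is transitive
  have hzZ := h.zx_mem hJx hxe
  have hzS := h.zS hS hSx hJx hxe
  have hne : N ≠ ⊥ := by
    intro h0
    have h1 := hSN hzS
    rw [h0, Subgroup.mem_bot] at h1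
    exact h.Z_ne hzZ h1
  have hidx := orbit_index' (G := N) (e := e) (F := Set.univ) (by
    intro p
    constructor
    · intro _
      exact h.trans hNn hne e p
    · intro _
      trivial)
  have hcardQ : Nat.card (Set.univ : Set Q) = Nat.card Q := Nat.card_congr (Equiv.Set.univ Q)
  rw [hcardQ] at hidx
  have hSI : S ≤ Inn N e := fun s hs => mem_Inn.2 ⟨hSN hs, (hS.1 hs).2⟩
  have hIN : Inn N e ≤ N := inf_le_left
  have hmul := Subgroup.relIndex_mul_relIndex S (Inn N e) N hSI hIN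
  apply hP.2.2
  rw [← hPS, ← hmul, hidx]
  exact dvd_mul_of_dvd_right hcard _

end AL

end ALoop
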