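import Pool.Agent.H4.FD.Pset

set_option autoImplicit false

/-!
Burnside's lemma: elements of an abelian Sylow 2-subgroup `S` of `K` that are conjugate in `K` are
conjugate in the normaliser of `S`.
-/

namespace ALoop

theorem norm_symm {M : Type*} [Group M] [Finite M] {T : Subgroup M} {m : M}
    (h : ∀ t ∈ T, m * t * m⁻¹ ∈ T) : ∀ t ∈ T, m⁻¹ * t * m ∈ T := by
  intro t ht
  let f : T → T := fun t => ⟨m * t * m⁻¹, h t t.2⟩
  have hf : Function.Injective f := by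
    intro a b hab
    have h1 : m * (a : M) * m⁻¹ = m * b * m⁻¹ := congrArg Subtype.val hab
    exact Subtype.ext (mul_left_cancel (mul_right_cancel h1))
  obtain ⟨r, hr⟩ := (Finite.injective_iff_surjective.1 hf) ⟨t, ht⟩
  have h1 : m * (r : M) * m⁻¹ = t := congrArg Subtype.val hr
  have h2 : m⁻¹ * t * m = r := by rw [← h1]; group
  rw [h2]
  exact r.2

theorem burn {M : Type*} [Group M] [Finite M] {K S : Subgroup M} (hS : IsSyl K S)
    (hab : ∀ a ∈ S, ∀ b ∈ S, a * b = b * a) {a b k : M} (ha : a ∈ S) (hb : b ∈ S) (hk : k ∈ K)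
    (hkab : k * a * k⁻¹ = b) :
    ∃ n ∈ K, (∀ s ∈ S, n * s * n⁻¹ ∈ S) ∧ n * a * n⁻¹ = b := by
  -- `C_K(b)` contains `S` and `k S k⁻¹`
  have hC : ∀ g : M, g ∈ (K ⊓ Subgroup.centralizer {b} : Subgroup M) ↔ g ∈ K ∧ g * b = b * g := by
    intro g
    rw [Subgroup.mem_inf, Subgroup.mem_centralizer_singleton_iff]
  have hSC : IsSyl (K ⊓ Subgroup.centralizer {b} : Subgroup M) S :=
    hS.mono (fun s hs => (hC s).2 ⟨hS.1 hs, hab s hs b hb⟩) inf_le_left
  obtain ⟨c, hc, hcS⟩ := hSC.conj_mem hS.2.1 k⁻¹ (by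
    intro s hs
    rw [inv_inv]
    refine (hC _).2 ⟨K.mul_mem (K.mul_mem hk (hS.1 hs)) (K.inv_mem hk), ?_⟩
    rw [← hkab]
    calc k * s * k⁻¹ * (k * a * k⁻¹) = k * (s * a) * k⁻¹ := by group
      _ = k * (a * s) * k⁻¹ := by rw [hab s hs a ha]
      _ = _ := by group)
  obtain ⟨hcK, hcb⟩ := (hC c).1 hc
  refine ⟨c * k, K.mul_mem hcK hk, ?_, ?_⟩
  · intro s hs
    have h1 := hcS s hs
    rw [inv_inv] at h1
    have h2 : c * k * s * (c * k)⁻¹ = c * (k * s * k⁻¹) * c⁻¹ := by group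
    rw [h2]; exact h1
  · calc c * k * a * (c * k)⁻¹ = c * (k * a * k⁻¹) * c⁻¹ := by group
      _ = c * b * c⁻¹ := by rw [hkab]
      _ = b := by rw [hcb]; group

end ALoop
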