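import Pool.Agent.H4.IS.Fin2

/-!
# Commuting involutions in finite simple automorphic loops

A loop on `Q` with identity `e` is given by its left translations `L x` and right translations `R y`
(`x * y = L x y = R y x`). `G = Mlt(Q)` is the subgroup of `Perm Q` generated by all of them, and the
inner mapping group `H` consists of the elements of `G` that fix `e`.

Let `Q` be a finite simple automorphic loop in which `y * y ≠ e` for some `y`, and let `x` be an
involution of `Q`. Then

1. the order of `Q` is divisible by `4`;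
2. the number of elements of `Q` that commute with `x` is divisible by `4`;
3. if `x` commutes with no other involution of `Q`, then no two different involutions of `Q` commute,
   the Sylow 2-subgroups of `H` are not abelian, and `z = (R x)⁻¹ * L x` is an involution of `H` whose
   centraliser in `G` centralises `L x` and that commutes with none of its other conjugates in `G`.
-/

set_option autoImplicit false

namespace Pool.Agent.H4.IS.CommInv

theorem result (Q : Type) [Finite Q] (L R : Q → Equiv.Perm Q) (e : Q)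
    (hLR : ∀ x y, L x y = R y x) (he : ∀ x, L e x = x ∧ L x e = x)
    (G : Subgroup (Equiv.Perm Q)) (hG : G = Subgroup.closure (Set.range L ∪ Set.range R))
    (hautomorphic : ∀ g ∈ G, g e = e → ∀ x y, g (L x y) = L (g x) (g y))
    (hsimple : ∀ r : Q → Q → Prop, Equivalence r →
      (∀ a b c d, r a b → r c d → r (L a c) (L b d)) → (∀ a b, r a b → a = b) ∨ (∀ a b, r a b))
    (hexp : ∃ y, L y y ≠ e)
    (H : Subgroup (Equiv.Perm Q)) (hH : ∀ g, g ∈ H ↔ g ∈ G ∧ g e = e)
    -- `x` is an involution
    (x : Q) (hx : x ≠ e) (hxx : L x x = e) :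
    4 ∣ Nat.card Q ∧
    4 ∣ Nat.card {q // L x q = L q x} ∧
    -- if `x` commutes with no other involution
    ((∀ y, y ≠ e → L y y = e → L x y = L y x → y = x) →
      (∀ u v, u ≠ e → v ≠ e → L u u = e → L v v = e → L u v = L v u → u = v) ∧
      (∀ S : Sylow 2 H, ¬ ∀ a ∈ S, ∀ b ∈ S, a * b = b * a) ∧
      ∃ z ∈ H, z = (R x)⁻¹ * L x ∧ z ≠ 1 ∧ z * z = 1 ∧
        (∀ g ∈ G, g * z = z * g → g * L x = L x * g) ∧
        (∀ g ∈ G, (g * z * g⁻¹) * z = z * (g * z * g⁻¹) → g * z * g⁻¹ = z)) := by
  subst hG
  obtain ⟨J, h⟩ := ALoop.al_of_loop L R e hLR he hautomorphic hsimple hexp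
  have hHI : H = ALoop.Inn (Subgroup.closure (Set.range L ∪ Set.range R)) e := by
    ext g
    rw [hH, ALoop.mem_Inn]
  subst hHI
  have hJx := h.J_of_sq hxx
  refine ⟨?_, ?_, ?_⟩
  · have h1 := h.two_dvd hJx hx
    have h2 := h.not_two_mod_four
    omega
  · have hcount : Nat.card {q // L x q = L q x} =
        Nat.card {q // (ALoop.D L J x * J) q = q} := by
      apply Nat.card_congr
      exact Equiv.subtypeEquivRight (h.comm_iff hJx hx)
    rw [hcount]
    exact h.four_dvd_fix hJx hx
  intro hx'
  have hz := h.zx_mem hJx hx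
  have hr1 : ALoop.HR1 L J (ALoop.D L J x * J) := by
    apply h.HR1_of hJx hx
    intro y hye hJy hzy
    apply hx' y hye _ ((h.comm_iff hJx hx y).2 hzy)
    exact h.LxLx hJy
  obtain ⟨hr, -⟩ := h.local_to_global hJx hx hr1
  refine ⟨?_, ?_, ?_⟩
  · intro u v hue hve huu hvv huv
    exact h.no_comm hr (h.J_of_sq huu) hue (h.J_of_sq hvv) hve huv
  · intro S hab
    have hS := ALoop.isSyl_map (ALoop.Inn (Subgroup.closure (Set.range L ∪ Set.range R)) e) S
    apply h.not_HR (h.two_dvd hJx hx) hS _ hr
    rintro _ ⟨a, ha, rfl⟩ _ ⟨b, hb, rfl⟩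
    exact congrArg Subtype.val (hab a ha b hb)
  · refine ⟨ALoop.D L J x * J, ?_, ?_, h.Z_ne hz, h.Z_sq hz, ?_, ?_⟩
    · exact ALoop.mem_Inn.2 ⟨h.Z_mem hz, h.zx_e hJx hx⟩
    · rw [← h.Tx_eq hJx hx]
      congr 2
      ext p
      rw [h.R_apply, hLR]
    · intro g hg hgz
      exact h.Lx_central hJx hx hr1 hg hgz
    · intro g hg hgz
      exact h.isolated hJx hx hr (h.Z_conj hz hg) hgz

end Pool.Agent.H4.IS.CommInv
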