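import Pool.Agent.H4.FD.Pset

set_option autoImplicit false

/-!
The data of the last steps.
-/

namespace ALoop

open Equiv

variable {Q : Type*}

/-- `z`, `z'` in `Z` that commute and have a common fixed point are equal -/
def HR (L : Q → Perm Q) (J : Perm Q) : Prop :=
  ∀ z ∈ Z L J, ∀ z' ∈ Z L J, z * z' = z' * z → ∀ q, z q = q → z' q = q → z = z'

/-- an abelian Sylow 2-subgroup `T` of `G` containing a Sylow 2-subgroup `S` of the inner mapping
group, and a fixed point `x` of `S` and `J` -/
structure TD (G : Subgroup (Perm Q)) (L : Q → Perm Q) (J : Perm Q) (e : Q)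
    (S T : Subgroup (Perm Q)) (x : Q) : Prop where
  hr : HR L J
  hS : IsSyl (Inn G e) S
  hT : IsSyl G T
  ST : S ≤ T
  hab : ∀ a ∈ T, ∀ b ∈ T, a * b = b * a
  Jx : J x = x
  xe : x ≠ e
  Sx : ∀ s ∈ S, s x = x

end ALoop
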