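import Pool.Agent.H4.IS.Orb
import Pool.Agent.H4.IS.TD
import Pool.Agent.H4.FD.PsetB

set_option autoImplicit false

/-!
Restriction to the fixed points of a Sylow 2-subgroup `S` of the inner mapping group.
-/

namespace ALoop

open Equiv

variable {Q : Type*}

/-- the fixed points of `S` -/
abbrev Fx (S : Subgroup (Perm Q)) : Type _ := {q : Q // ∀ s ∈ S, s q = q}

/-- restriction to the fixed points of `S` -/
def resP (S : Subgroup (Perm Q)) (g : Perm Q) (hg : ∀ s ∈ S, s * g = g * s) : Perm (Fx S) :=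
  Perm.subtypePerm g (by
    intro q
    have h1 : ∀ s ∈ S, s (g q) = g (s q) := by
      intro s hs
      rw [← Perm.mul_apply, hg s hs, Perm.mul_apply]
    constructor
    · intro h2 s hs
      have h3 := h2 s hs
      rw [h1 s hs] at h3
      exact g.injective h3
    · intro h2 s hs
      rw [h1 s hs, h2 s hs])

theorem resP_apply (S : Subgroup (Perm Q)) (g : Perm Q) (hg : ∀ s ∈ S, s * g = g * s)
    (q : Fx S) : (resP S g hg q : Q) = g q := rfl

/-- the group induced by the centraliser of `S` in `G` -/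
def resG (G S : Subgroup (Perm Q)) : Subgroup (Perm (Fx S)) where
  carrier := {f | ∃ g ∈ G, (∀ s ∈ S, s * g = g * s) ∧ ∀ q : Fx S, (f q : Q) = g q}
  one_mem' := ⟨1, G.one_mem, fun s _ => by rw [mul_one, one_mul], fun q => rfl⟩
  mul_mem' := by
    rintro f f' ⟨g, hg, hgs, hf⟩ ⟨g', hg', hgs', hf'⟩
    refine ⟨g * g', G.mul_mem hg hg', ?_, ?_⟩
    · intro s hs
      have h1 : Commute s g := hgs s hs
      have h2 : Commute s g' := hgs' s hs
      exact h1.mul_right h2
    · intro q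
      rw [Perm.mul_apply, Perm.mul_apply, hf, hf']
  inv_mem' := by
    rintro f ⟨g, hg, hgs, hf⟩
    refine ⟨g⁻¹, G.inv_mem hg, ?_, ?_⟩
    · intro s hs
      have h1 : Commute s g := hgs s hs
      exact h1.inv_right
    · intro q
      rw [Perm.eq_inv_iff_eq, ← hf, apply_inv']

theorem resG_pow {S : Subgroup (Perm Q)} {f : Perm (Fx S)} {g : Perm Q}
    (hf : ∀ q : Fx S, (f q : Q) = g q) (n : ℕ) (q : Fx S) : ((f ^ n) q : Q) = (g ^ n) q := by
  induction n with
  | zero => rfl
  | succ n ih => rw [pow_succ', pow_succ', Perm.mul_apply, Perm.mul_apply, hf, ih]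

variable {G : Subgroup (Perm Q)} {L : Q → Perm Q} {J : Perm Q} {e : Q}

namespace AL

/-- a fixed point of `S` and `J` other than `e` -/
theorem exists_x2 [Finite Q] (h : AL G L J e) (hcard : 2 ∣ Nat.card Q)
    {S : Subgroup (Perm Q)} (hS : IsSyl (Inn G e) S) :
    ∃ x, x ≠ e ∧ J x = x ∧ ∀ s ∈ S, s x = x := by
  by_contra hcon
  push Not at hcon
  have h1 := fix_parity hS.2.1 hcard
  let A : Set Q := {q | ∀ s ∈ S, s q = q}
  have h2 : (A \ {e}).ncard + 1 = A.ncard := by
    exact Set.ncard_sdiff_singleton_add_one (show e ∈ A from fun s hs => (hS.1 hs).2)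
      (Set.toFinite _)
  have hJ : ∀ q ∈ A \ {e}, J q ∈ A \ {e} := by
    rintro q ⟨hq, hqe⟩
    refine ⟨?_, ?_⟩
    · intro s hs
      have h3 := h.comJ s (hS.1 hs).1 (hS.1 hs).2
      rw [← Perm.mul_apply, h3, Perm.mul_apply, hq s hs]
    · intro h3
      have h4 : J q = e := h3
      apply hqe
      change q = e
      rw [← h.JJ q, h4, h.Je]
  have h3 : 2 ∣ Nat.card (A \ {e} : Set Q) := by
    refine two_dvd_card (fun q => ⟨J q, hJ q q.2⟩) ?_ ?_
    · intro q; exact Subtype.ext (h.JJ q)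
    · rintro ⟨q, hq⟩ h4
      have h5 : J q = q := congrArg Subtype.val h4
      obtain ⟨s, hs, hsq⟩ := hcon q hq.2 h5
      exact hsq (hq.1 s hs)
  have h4 : Nat.card (A \ {e} : Set Q) = (A \ {e}).ncard := rfl
  have h5 : Nat.card {x : Q // ∀ s ∈ S, s x = x} = A.ncard := rfl
  rw [h4] at h3
  rw [h5] at h1
  omega

section S

variable {S : Subgroup (Perm Q)}

/-- `S` commutes with the left translations by its fixed points -/
theorem S_L (h : AL G L J e) (hS : IsSyl (Inn G e) S) {q : Q} (hq : ∀ s ∈ S, s q = q) :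
    ∀ s ∈ S, s * L q = L q * s :=
  fun s hs => h.comL (hS.1 hs).1 (hS.1 hs).2 (hq s hs)

theorem S_J (h : AL G L J e) (hS : IsSyl (Inn G e) S) : ∀ s ∈ S, s * J = J * s :=
  fun s hs => h.comJ s (hS.1 hs).1 (hS.1 hs).2

theorem S_D (h : AL G L J e) (hS : IsSyl (Inn G e) S) {q : Q} (hq : ∀ s ∈ S, s q = q) :
    ∀ s ∈ S, s * (D L J q * J) = (D L J q * J) * s := by
  intro s hs
  have h1 : Commute s (D L J q) := (h.D_cent (hS.1 hs).1 q).2 (hq s hs)
  have h2 : Commute s J := h.S_J hS s hs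
  exact h1.mul_right h2

/-- `z` is in `S` -/
theorem zS [Finite Q] (h : AL G L J e) (hS : IsSyl (Inn G e) S) {q : Q} (hq : ∀ s ∈ S, s q = q)
    (hJq : J q = q) (hqe : q ≠ e) : D L J q * J ∈ S := by
  have hz := h.zx_mem hJq hqe
  exact hS.mem_of_comm (mem_Inn.2 ⟨h.Z_mem hz, h.zx_e hJq hqe⟩) (h.S_D hS hq) (n := 1)
    (by rw [pow_one, pow_two, h.Z_sq hz])

/-- the fixed points of `J` in the fixed points of `S` -/
theorem fixJ_eq [Finite Q] (h : AL G L J e) (hr : HR L J) (hS : IsSyl (Inn G e) S) {q x : Q}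
    (hq : ∀ s ∈ S, s q = q) (hJq : J q = q) (hqe : q ≠ e) (hx : ∀ s ∈ S, s x = x)
    (hJx : J x = x) (hxe : x ≠ e) : q = x := by
  have h1 := hr _ (h.zx_mem hJq hqe) _ (h.zx_mem hJx hxe)
    (h.S_D hS hx _ (h.zS hS hq hJq hqe)) e (h.zx_e hJq hqe) (h.zx_e hJx hxe)
  exact h.D_inj (mul_right_cancel h1)

/-- the restricted left translations -/
def Lb (h : AL G L J e) (hS : IsSyl (Inn G e) S) (q : Fx S) : Perm (Fx S) :=
  resP S (L q) (h.S_L hS q.2)

/-- the restricted inversion -/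
def Jb (h : AL G L J e) (hS : IsSyl (Inn G e) S) : Perm (Fx S) := resP S J (h.S_J hS)

/-- the identity element as a fixed point of `S` -/
def eb (hS : IsSyl (Inn G e) S) : Fx S := ⟨e, fun _ hs => (hS.1 hs).2⟩

theorem Lb_apply (h : AL G L J e) (hS : IsSyl (Inn G e) S) (q p : Fx S) :
    (h.Lb hS q p : Q) = L q p := rfl

theorem Jb_apply (h : AL G L J e) (hS : IsSyl (Inn G e) S) (p : Fx S) :
    (h.Jb hS p : Q) = J p := rfl

theorem toOL [Finite Q] (h : AL G L J e) (hr : HR L J) (hS : IsSyl (Inn G e) S) {x : Q}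
    (hx : ∀ s ∈ S, s x = x) (hJx : J x = x) (hxe : x ≠ e) :
    OL (resG G S) (h.Lb hS) (h.Jb hS) (eb hS) ⟨x, hx⟩ where
  memL q := ⟨L q, h.memL q, h.S_L hS q.2, fun _ => rfl⟩
  Le q := Subtype.ext (h.Le q)
  Je := Subtype.ext h.Je
  JJ q := Subtype.ext (h.JJ q)
  LJ q := Subtype.ext (h.LJ q)
  aaip p q := Subtype.ext (h.aaip p q)
  equi := by
    rintro f ⟨g, hg, hgs, hfg⟩ hfe q
    have hge : g e = e := by
      have := hfg (eb hS)
      rw [hfe] at this
      exact this.symm
    rw [mul_inv_eq_iff_eq_mul]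
    ext p
    rw [Perm.mul_apply, Perm.mul_apply, hfg, h.Lb_apply, h.Lb_apply, hfg, hfg]
    exact h.aut hg hge _ _
  comJ := by
    rintro f ⟨g, hg, hgs, hfg⟩ hfe
    have hge : g e = e := by
      have := hfg (eb hS)
      rw [hfe] at this
      exact this.symm
    ext p
    rw [Perm.mul_apply, Perm.mul_apply, hfg, h.Jb_apply, h.Jb_apply, hfg, ← Perm.mul_apply,
      h.comJ g hg hge, Perm.mul_apply]
  JG := by
    rintro f ⟨g, hg, hgs, hfg⟩
    refine ⟨J * g * J, h.JG g hg, ?_, ?_⟩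
    · intro s hs
      have h1 : Commute s J := h.S_J hS s hs
      have h2 : Commute s g := hgs s hs
      exact (h1.mul_right h2).mul_right h1
    · intro q
      rw [Perm.mul_apply, Perm.mul_apply, h.Jb_apply, hfg, h.Jb_apply]
      rfl
  odd := by
    rintro f ⟨g, hg, hgs, hfg⟩ hfe
    have hge : g e = e := by
      have := hfg (eb hS)
      rw [hfe] at this
      exact this.symm
    obtain ⟨r, hr, n, hn⟩ := exists_odd_pow g
    refine ⟨r, hr, ?_⟩
    have h1 : g ^ r ∈ S := by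
      refine hS.mem_of_comm ((Inn G e).pow_mem (mem_Inn.2 ⟨hg, hge⟩) r) ?_ hn
      intro s hs
      have h2 : Commute s g := hgs s hs
      exact h2.pow_right r
    ext q
    rw [resG_pow hfg, Perm.one_apply]
    exact q.2 _ h1
  fixJ := by
    intro q hq
    by_cases hqe : q = eb hS
    · exact Or.inl hqe
    · right
      apply Subtype.ext
      refine h.fixJ_eq hr hS q.2 (congrArg Subtype.val hq) ?_ hx hJx hxe
      intro h1
      exact hqe (Subtype.ext h1)
  Jx := Subtype.ext hJx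
  xe := fun h1 => hxe (congrArg Subtype.val h1)

end S

end AL

end ALoop
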