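import Pool.Agent.H4.IS.Orb2
import Pool.Agent.H4.IS.Ext

set_option autoImplicit false

/-!
Restriction to the fixed points of a Sylow 2-subgroup `S` of the inner mapping group, general case.
-/

namespace ALoop

open Equiv

variable {Q : Type*} {G : Subgroup (Perm Q)} {L : Q → Perm Q} {J : Perm Q} {e : Q}
  {S : Subgroup (Perm Q)}

namespace AL

theorem toOM [Finite Q] (h : AL G L J e) (hS : IsSyl (Inn G e) S) :
    OM (resG G S) (h.Lb hS) (h.Jb hS) (eb hS) where
  memL q := ⟨L q, h.memL q, h.S_L hS q.2, fun _ => rfl⟩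
  Le q := Subtype.ext (h.Le q)
  Je := Subtype.ext h.Je
  JJ q := Subtype.ext (h.JJ q)
  LJ q := Subtype.ext (h.LJ q)
  aaip p q := Subtype.ext (h.aaip p q)
  equi := by
    rintro f ⟨g, hg, hgs, hfg⟩ hfe q
    have hge : g e = e := by
      have := hfg (eb hS)
      rw [hfe] at this
      exact this.symm
    rw [mul_inv_eq_iff_eq_mul]
    ext p
    rw [Perm.mul_apply, Perm.mul_apply, hfg, h.Lb_apply, h.Lb_apply, hfg, hfg]
    exact h.aut hg hge _ _
  comJ := by
    rintro f ⟨g, hg, hgs, hfg⟩ hfe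
    have hge : g e = e := by
      have := hfg (eb hS)
      rw [hfe] at this
      exact this.symm
    ext p
    rw [Perm.mul_apply, Perm.mul_apply, hfg, h.Jb_apply, h.Jb_apply, hfg, ← Perm.mul_apply,
      h.comJ g hg hge, Perm.mul_apply]
  JG := by
    rintro f ⟨g, hg, hgs, hfg⟩
    refine ⟨J * g * J, h.JG g hg, ?_, ?_⟩
    · intro s hs
      have h1 : Commute s J := h.S_J hS s hs
      have h2 : Commute s g := hgs s hs
      exact (h1.mul_right h2).mul_right h1
    · intro q
      rw [Perm.mul_apply, Perm.mul_apply, h.Jb_apply, hfg, h.Jb_apply]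
      rfl
  odd := by
    rintro f ⟨g, hg, hgs, hfg⟩ hfe
    have hge : g e = e := by
      have := hfg (eb hS)
      rw [hfe] at this
      exact this.symm
    obtain ⟨r, hr, n, hn⟩ := exists_odd_pow g
    refine ⟨r, hr, ?_⟩
    have h1 : g ^ r ∈ S := by
      refine hS.mem_of_comm ((Inn G e).pow_mem (mem_Inn.2 ⟨hg, hge⟩) r) ?_ hn
      intro s hs
      have h2 : Commute s g := hgs s hs
      exact h2.pow_right r
    ext q
    rw [resG_pow hfg, Perm.one_apply]
    exact q.2 _ h1
  fixJ := by
    rintro q hq f ⟨g, hg, hgs, hfg⟩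
    have hJq : J (q : Q) = q := congrArg Subtype.val hq
    by_cases hqe : (q : Q) = e
    · have h1 : h.Lb hS q = 1 := by
        ext p
        rw [h.Lb_apply, hqe, h.Le1]
        rfl
      rw [h1, mul_one, one_mul]
    · have hzS := h.zS hS q.2 hJq hqe
      have hz := h.zx_mem hJq hqe
      ext p
      have hp : (D L J q * J) (p : Q) = p := p.2 _ hzS
      have h1 := h.kp_com hz hp hg (hgs _ hzS).symm
      rw [Perm.mul_apply, Perm.mul_apply, hfg, h.Lb_apply, h.Lb_apply, hfg,
        h.Lx_kp hJq hqe hp, h.Lx_kp hJq hqe h1.1, h1.2]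

end AL

end ALoop
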