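import Pool.Agent.H4.IS.Loc

set_option autoImplicit false

/-!
Involutions of the loop and elements of `Z`.
-/

namespace ALoop

open Equiv

variable {Q : Type*} {G : Subgroup (Perm Q)} {L : Q → Perm Q} {J : Perm Q} {e : Q} {x : Q}

namespace AL

theorem J_of_sq (h : AL G L J e) {y : Q} (hy : L y y = e) : J y = y := by
  apply (L y).injective
  rw [h.LJ, hy]

/-- `x` and `q` commute if and only if `z` fixes `q` -/
theorem comm_iff (h : AL G L J e) (hJx : J x = x) (hxe : x ≠ e) (q : Q) :
    L x q = L q x ↔ (D L J x * J) q = q := by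
  have h1 : L q x = L x ((D L J x * J) q) := by
    have h2 := h.R_apply q x
    rw [hJx, h.zt_eq hJx, h.Lx_z hJx hxe, Perm.mul_apply] at h2
    exact h2.symm
  rw [h1, (L x).injective.eq_iff]
  exact ⟨fun h2 => h2.symm, fun h2 => h2.symm⟩

theorem HR1_of (h : AL G L J e) (hJx : J x = x) (hxe : x ≠ e)
    (hx : ∀ y, y ≠ e → J y = y → (D L J x * J) y = y → y = x) :
    HR1 L J (D L J x * J) := by
  have hz := h.zx_mem hJx hxe
  have hze := h.zx_e hJx hxe
  have hzG := h.Z_mem hz
  have hDx : D L J x = (D L J x * J) * J := by rw [mul_assoc, h.JJ1, mul_one]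
  intro z' hz' hc q hq hq'
  set z := D L J x * J with hzdef
  have c1 : Commute z (L q) := h.comL hzG hze hq
  have hqe : (L q)⁻¹ q = e := by rw [Perm.inv_eq_iff_eq, h.Le]
  set w := (L q)⁻¹ * z' * L q with hw
  have hwZ : w ∈ Z L J := by
    have := h.Z_conj hz' (G.inv_mem (h.memL q))
    rwa [inv_inv] at this
  have hwG := h.Z_mem hwZ
  have hwe : w e = e := by rw [hw, Perm.mul_apply, Perm.mul_apply, h.Le, hq', hqe]
  have c2 : Commute z w := by
    have c3 : Commute z z' := hc
    exact (c1.inv_right.mul_right c3).mul_right c1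
  obtain ⟨y, hye, hy⟩ := h.Z_part hwZ hwe
  rw [h.D_e] at hy
  have hwJ := h.comJ w hwG hwe
  have hJy : J y = y := by
    have h2 := h.D_J y
    rw [hy] at h2
    apply h.D_inj
    rw [← h2, hy]
    calc J * (J * w) * J = (J * J) * (w * J) := by group
      _ = J * w := by rw [h.JJ1, one_mul, hwJ]
  have hzy : z y = y := by
    rw [← h.D_cent hzG, hy]
    have c3 : Commute z J := h.comJ z hzG hze
    exact (c3.mul_right c2).eq
  have hyx := hx y hye hJy hzy
  have hwz : w = z := by
    have h3 : D L J x = J * w := by rw [← hyx]; exact hy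
    calc w = (J * J) * w := by rw [h.JJ1, one_mul]
      _ = J * (J * w) := by group
      _ = J * D L J x := by rw [h3]
      _ = z := by rw [← h.Dx_J hJx]
  calc z = z * L q * (L q)⁻¹ := by group
    _ = L q * z * (L q)⁻¹ := by rw [c1.eq]
    _ = L q * w * (L q)⁻¹ := by rw [hwz]
    _ = z' := by rw [hw]; group

theorem no_comm (h : AL G L J e) (hr : HR L J) {u v : Q} (hJu : J u = u) (hue : u ≠ e)
    (hJv : J v = v) (hve : v ≠ e) (huv : L u v = L v u) : u = v := by
  have hz := h.zx_mem hJu hue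
  have hze := h.zx_e hJu hue
  have hzG := h.Z_mem hz
  have hv := (h.comm_iff hJu hue v).1 huv
  have c1 : Commute (D L J u * J) (D L J v) := (h.D_cent hzG v).2 hv
  have c2 : Commute (D L J u * J) J := h.comJ _ hzG hze
  have h1 := hr _ hz _ (h.zx_mem hJv hve) (c1.mul_right c2) e hze (h.zx_e hJv hve)
  exact h.D_inj (mul_right_cancel h1)

/-- a loop with an involution has even order -/
theorem two_dvd [Finite Q] (h : AL G L J e) (hJx : J x = x) (hxe : x ≠ e) :
    2 ∣ Nat.card Q := by
  classical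
  have hz := h.zx_mem hJx hxe
  have hsq := h.Z_sq hz
  set z := D L J x * J with hzdef
  have h1 : 2 ∣ Nat.card {q : Q // z q = q} := by
    refine two_dvd_card (fun q => ⟨kp L J z q, h.kp_fix hz q.2⟩) ?_ ?_
    · intro q; exact Subtype.ext (h.kp_kp hz q.2)
    · intro q hq
      exact h.kp_ne hz q.2 (congrArg Subtype.val hq)
  have h2 : 2 ∣ Nat.card {q : Q // ¬ z q = q} := by
    refine two_dvd_card (fun q => ⟨z q, fun hq => q.2 (z.injective hq)⟩) ?_ ?_
    · intro q
      apply Subtype.ext
      change (z * z) q = q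
      rw [hsq, Perm.one_apply]
    · intro q hq
      exact q.2 (congrArg Subtype.val hq)
  have h3 : Nat.card Q = Nat.card {q : Q // z q = q} + Nat.card {q : Q // ¬ z q = q} := by
    rw [← Nat.card_sum]
    exact Nat.card_congr (Equiv.sumCompl (fun q => z q = q)).symm
  rw [h3]
  exact dvd_add h1 h2

/-- `T x = z` -/
theorem Tx_eq (h : AL G L J e) (hJx : J x = x) (hxe : x ≠ e) :
    (J * L (J x) * J)⁻¹ * L x = D L J x * J := by
  have h1 := h.Z_sq (h.zx_mem hJx hxe)
  have h2 := h.Lx_z hJx hxe
  rw [hJx, h.zt_eq hJx]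
  set z := D L J x * J with hz
  have h3 : z⁻¹ = z := inv_eq_of_mul_eq_one_left h1
  rw [mul_inv_rev, h3, mul_assoc, h2]
  group

end AL

end ALoop
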