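import Pool.Agent.H4.IS.TEdef
import Pool.Agent.H4.IS.Burn
import Pool.Agent.H4.IS.Hat
import Pool.Agent.H4.IS.Fin2

set_option autoImplicit false

/-!
(4), (5), (6): elements of `Z` in the centre of `T`.
-/

namespace ALoop

open Equiv

variable {Q : Type*} {G : Subgroup (Perm Q)} {L : Q → Perm Q} {J : Perm Q} {e : Q}
  {S T : Subgroup (Perm Q)} {x : Q}

/-- the normaliser of `S` in the inner mapping group centralises `S` -/
def HC (G : Subgroup (Perm Q)) (e : Q) (S : Subgroup (Perm Q)) : Prop :=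
  ∀ n ∈ Inn G e, (∀ s ∈ S, n * s * n⁻¹ ∈ S) → ∀ s ∈ S, n * s = s * n

namespace AL

/-- `L x ^ 2` commutes with `C_G(z)` -/
theorem cen2 (h : AL G L J e) (hJx : J x = x) (hxe : x ≠ e) {g : Perm Q} (hg : g ∈ G)
    (hgz : g * (D L J x * J) = (D L J x * J) * g) : g * (L x * L x) = (L x * L x) * g := by
  have hzG := h.Z_mem (h.zx_mem hJx hxe)
  have hze := h.zx_e hJx hxe
  set z := D L J x * J with hz
  set a := g e with ha
  have haz : z a = a := by
    have h1 : z (g e) = (g * z) e := by rw [hgz]; rfl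
    rw [ha, h1, Perm.mul_apply, hze]
  obtain ⟨hk, hke⟩ := h.fix_part hg
  rw [← ha] at hk hke
  have c1 : Commute z (L a) := h.comL hzG hze haz
  have c2 : Commute g z := hgz
  have c3 : Commute ((L a)⁻¹ * g) z := c1.symm.inv_left.mul_left c2
  have hkx := h.fixx hJx hxe hk hke c3
  have hkL : Commute ((L a)⁻¹ * g) (L x) := h.comL hk hke hkx
  have h2G : L x * L x ∈ G := G.mul_mem (h.memL x) (h.memL x)
  have h2e : (L x * L x) e = e := by rw [Perm.mul_apply, h.Le, h.LxLx hJx]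
  have h2a : (L x * L x) a = a := by
    have := (h.pow_kp hJx hxe 1 haz).1
    rwa [mul_one, pow_two] at this
  have h2L : Commute (L x * L x) (L a) := h.comL h2G h2e h2a
  have h3 : g = L a * ((L a)⁻¹ * g) := by group
  have c4 : Commute g (L x * L x) := by
    rw [h3]
    exact h2L.symm.mul_left (hkL.mul_right hkL)
  exact c4

/-- the elements of `Z` in `S` -/
theorem ZS_form (h : AL G L J e) (hS : IsSyl (Inn G e) S) (hab : ∀ a ∈ S, ∀ b ∈ S, a * b = b * a)
    {z : Perm Q} (hz : z ∈ Z L J) (hzS : z ∈ S) :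
    ∃ x, x ≠ e ∧ J x = x ∧ (∀ s ∈ S, s x = x) ∧ z = D L J x * J := by
  have hzG := (hS.1 hzS).1
  have hze : z e = e := (hS.1 hzS).2
  obtain ⟨x, hxe, hx⟩ := h.Z_part hz hze
  rw [h.D_e] at hx
  have hzJ := h.comJ z hzG hze
  refine ⟨x, hxe, ?_, ?_, ?_⟩
  · have h2 := h.D_J x
    rw [hx] at h2
    apply h.D_inj
    rw [← h2, hx]
    calc J * (J * z) * J = (J * J) * (z * J) := by group
      _ = J * z := by rw [h.JJ1, one_mul, hzJ]
  · intro s hs
    rw [← h.D_cent (hS.1 hs).1, hx]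
    have c1 : Commute s J := h.comJ s (hS.1 hs).1 (hS.1 hs).2
    have c2 : Commute s z := hab s hs z hzS
    exact c1.mul_right c2
  · rw [hx, mul_assoc, hzJ, ← mul_assoc, h.JJ1, one_mul]

end AL

namespace TE

/-- the commutators with `L x` -/
theorem comm_mem [Finite Q] (h : AL G L J e) (d : TE G J e S T) (hJx : J x = x) (hxe : x ≠ e)
    (hx : ∀ s ∈ S, s x = x) {m : Perm Q} (hm : m ∈ T) :
    ∃ u ∈ S, L x * u = m⁻¹ * L x * m ∧ u * u = 1 ∧ u * L x = L x * u := by
  have hzZ := h.zx_mem hJx hxe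
  have hze := h.zx_e hJx hxe
  have hzx := h.zx_x hJx hxe
  have hzS := h.zS d.hS hx hJx hxe
  have hmG : m ∈ G := d.hT.1 hm
  have hmz := d.cen m hm _ hzS
  have hm2 := h.cen2 hJx hxe hmG hmz
  have hLxk := fun (q : Q) => h.Lx_kp hJx hxe (q := q)
  set z := D L J x * J with hz
  have hSx : ∀ s ∈ S, s * L x = L x * s := fun s hs =>
    h.comL (mem_Inn.1 (d.hS.1 hs)).1 (mem_Inn.1 (d.hS.1 hs)).2 (hx s hs)
  set u := (L x)⁻¹ * m⁻¹ * L x * m with hu
  have huG : u ∈ G := G.mul_mem (G.mul_mem (G.mul_mem (G.inv_mem (h.memL x)) (G.inv_mem hmG))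
    (h.memL x)) hmG
  have hufix : ∀ q, z q = q → u q = q := by
    intro q hq
    have h1 := h.kp_com hzZ hq hmG hmz
    have h2 := hLxk _ h1.1
    have h3 := hLxk q hq
    show (L x)⁻¹ (m⁻¹ (L x (m q))) = q
    rw [h2, h1.2, inv_apply', Perm.inv_eq_iff_eq, h3]
  have hue : u e = e := hufix e hze
  have hux : u x = x := hufix x hzx
  have huL : u * L x = L x * u := h.comL huG hue hux
  have h1 : L x * u = m⁻¹ * L x * m := by rw [hu]; group
  have huu : u * u = 1 := by
    have h2 : (L x * u) * (L x * u) = L x * L x := by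
      rw [h1]
      calc m⁻¹ * L x * m * (m⁻¹ * L x * m) = m⁻¹ * ((L x * L x) * m) := by group
        _ = m⁻¹ * (m * (L x * L x)) := by rw [hm2]
        _ = L x * L x := by group
    have h3 : (L x * u) * (L x * u) = (L x * L x) * (u * u) := by
      calc (L x * u) * (L x * u) = L x * (u * L x) * u := by group
        _ = L x * (L x * u) * u := by rw [huL]
        _ = _ := by group
    rw [h3] at h2
    exact mul_eq_left.1 h2
  refine ⟨u, ?_, h1, huu, huL⟩
  refine d.hS.mem_of_comm (mem_Inn.2 ⟨huG, hue⟩) ?_ (n := 1) (by rw [pow_one, pow_two, huu])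
  intro s hs
  have c1 : Commute s (L x) := hSx s hs
  have c2 : Commute s m := (d.cen m hm s hs).symm
  exact ((c1.inv_right.mul_right c2.inv_right).mul_right c1).mul_right c2

/-- (4) -/
theorem comLx [Finite Q] (h : AL G L J e) (d : TE G J e S T) (hJx : J x = x) (hxe : x ≠ e)
    (hx : ∀ s ∈ S, s x = x) {m : Perm Q} (hm : m ∈ T) (hmc : ∀ t ∈ T, m * t = t * m) :
    m * L x = L x * m := by
  obtain ⟨n, hn, k, hk⟩ := exists_odd_pow (L x)
  set t := L x ^ n with ht
  have htG : t ∈ G := G.pow_mem (h.memL x) n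
  -- conjugates of `t`
  have hconj : ∀ m ∈ T, ∃ u ∈ S, L x * u = m⁻¹ * L x * m ∧ m⁻¹ * t * m = t * u := by
    intro m hm
    obtain ⟨u, huS, h1, huu, huL⟩ := d.comm_mem h hJx hxe hx hm
    refine ⟨u, huS, h1, ?_⟩
    have h2 : m⁻¹ * t * m = (m⁻¹ * L x * m) ^ n := by
      have := conj_pow (i := n) (a := m⁻¹) (b := L x)
      rw [inv_inv] at this
      exact this.symm
    have h3 : Commute (L x) u := huL.symm
    rw [h2, ← h1, h3.mul_pow, ht]
    congr 1
    obtain ⟨j, rfl⟩ := hn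
    rw [pow_succ, pow_mul, pow_two, huu, one_pow, one_mul]
  have htT : t ∈ T := by
    have h1 : t⁻¹ ∈ T := by
      refine d.hT.mem_of_norm (G.inv_mem htG) ?_ (n := k) (by rw [inv_pow, hk, inv_one])
      intro s hs
      obtain ⟨u, huS, -, h2⟩ := hconj s⁻¹ (T.inv_mem hs)
      rw [inv_inv] at h2
      have h3 : t⁻¹ * s * t⁻¹⁻¹ = u * s := by
        calc t⁻¹ * s * t⁻¹⁻¹ = t⁻¹ * (s * t * s⁻¹) * s := by group
          _ = t⁻¹ * (t * u) * s := by rw [h2]
          _ = u * s := by group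
      rw [h3]
      exact T.mul_mem (d.ST huS) hs
    have h2 := T.inv_mem h1
    rwa [inv_inv] at h2
  obtain ⟨u, huS, h1, h2⟩ := hconj m hm
  have h3 : m⁻¹ * t * m = t := by
    rw [mul_assoc, ← hmc t htT]; group
  rw [h3] at h2
  have h4 : u = 1 := mul_eq_left.1 h2.symm
  rw [h4, mul_one] at h1
  calc m * L x = m * (m⁻¹ * L x * m) := by rw [← h1]
    _ = L x * m := by group

/-- first half of (5) -/
theorem half [Finite Q] (h : AL G L J e) (d : TE G J e S T) {w g : Perm Q} (hw : w ∈ Z L J)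
    (hg : g ∈ G) {q : Q} (hgq : g e = q) (hwq : w q = q)
    (hcom : ∀ z ∈ Z L J, z ∈ S → w * (g * z * g⁻¹) = (g * z * g⁻¹) * w) :
    g⁻¹ * w * g ∈ S := by
  set y := g⁻¹ * w * g with hy
  have hyZ : y ∈ Z L J := by
    have := h.Z_conj hw (G.inv_mem hg)
    rwa [inv_inv] at this
  have hye : y e = e := by
    rw [hy, Perm.mul_apply, Perm.mul_apply, hgq, hwq, Perm.inv_eq_iff_eq, hgq]
  have hyz : ∀ z ∈ Z L J, z ∈ S → y * z = z * y := by
    intro z hz hzS
    have h1 := hcom z hz hzS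
    calc y * z = g⁻¹ * (w * (g * z * g⁻¹)) * g := by rw [hy]; group
      _ = g⁻¹ * ((g * z * g⁻¹) * w) * g := by rw [h1]
      _ = z * y := by rw [hy]; group
  set B : Subgroup (Perm Q) := Inn G e ⊓ Subgroup.centralizer {z | z ∈ Z L J ∧ z ∈ S} with hB
  have hmB : ∀ b, b ∈ B ↔ b ∈ Inn G e ∧ ∀ z ∈ Z L J, z ∈ S → b * z = z * b := by
    intro b
    rw [hB, Subgroup.mem_inf, Subgroup.mem_centralizer_iff]
    constructor
    · rintro ⟨h1, h2⟩
      exact ⟨h1, fun z hz hzS => (h2 z ⟨hz, hzS⟩).symm⟩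
    · rintro ⟨h1, h2⟩
      exact ⟨h1, fun z hz => (h2 z hz.1 hz.2).symm⟩
  have hSB : IsSyl B S := d.hS.mono
    (fun s hs => (hmB s).2 ⟨d.hS.1 hs, fun z _ hzS => d.hab s hs z hzS⟩) inf_le_left
  have hyB : y ∈ B := (hmB y).2 ⟨mem_Inn.2 ⟨h.Z_mem hyZ, hye⟩, hyz⟩
  obtain ⟨c, hc, hcS⟩ := hSB.conj_mem (T := Subgroup.zpowers y)
    (zpowers_isPGroup (n := 1) (by rw [pow_one, pow_two, h.Z_sq hyZ])) 1 (by
      rintro _ ⟨k, rfl⟩
      rw [inv_one, one_mul, mul_one]
      exact B.zpow_mem hyB k)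
  have h1 := hcS y (Subgroup.mem_zpowers y)
  rw [inv_one, one_mul, mul_one] at h1
  obtain ⟨hcI, hcz⟩ := (hmB c).1 hc
  have h2 := hcz _ (h.Z_conj hyZ (mem_Inn.1 hcI).1) h1
  have h3 : y = c * y * c⁻¹ := by
    calc y = c⁻¹ * (c * y * c⁻¹ * c) := by group
      _ = c⁻¹ * (c * (c * y * c⁻¹)) := by rw [h2]
      _ = c * y * c⁻¹ := by group
  rw [h3]
  exact h1

/-- (5) -/
theorem ZT [Finite Q] (h : AL G L J e) (d : TE G J e S T) (hc : HC G e S) {w : Perm Q}
    (hw : w ∈ Z L J) (hwT : w ∈ T) (hwc : ∀ t ∈ T, w * t = t * w) : w ∈ S := by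
  have hwG := h.Z_mem hw
  obtain ⟨q, hq⟩ := h.Z_fix hw
  have hRG := h.memR q
  have hRe : (J * L (J q) * J) e = q := by rw [h.R_apply, h.Le1, Perm.one_apply]
  -- commutation
  have hx1 : ∀ z ∈ Z L J, z ∈ S → ∃ x, x ≠ e ∧ J x = x ∧ z = D L J x * J ∧
      w * L x = L x * w ∧ w * (J * L x * J) = (J * L x * J) * w := by
    intro z hz hzS
    obtain ⟨x, hxe, hJx, hSx, rfl⟩ := h.ZS_form d.hS d.hab hz hzS
    have h1 := d.comLx h hJx hxe hSx hwT hwc
    refine ⟨x, hxe, hJx, rfl, h1, ?_⟩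
    rw [h.zt_eq hJx]
    have c1 : Commute w (D L J x * J) := hwc _ (d.ST hzS)
    have c2 : Commute w (L x) := h1
    exact c1.mul_right c2
  have hR := d.half h hw hRG hRe hq (by
    intro z hz hzS
    obtain ⟨x, hxe, hJx, rfl, hwL, -⟩ := hx1 z hz hzS
    have h1 : (J * L (J q) * J) * (D L J x * J) * (J * L (J q) * J)⁻¹ =
        D L J (L x q) * D L J q := by
      have h2 := h.D_conj hRG x
      have h3 := h.D_conj hRG e
      rw [h.R_apply] at h2
      rw [hRe, h.D_e] at h3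
      rw [← h2, ← h3]; group
    have h4 : w (L x q) = L x q := by rw [← Perm.mul_apply, hwL, Perm.mul_apply, hq]
    have c1 : Commute w (D L J (L x q)) := (h.D_cent hwG _).2 h4
    have c2 : Commute w (D L J q) := (h.D_cent hwG _).2 hq
    rw [h1]
    exact c1.mul_right c2)
  have hL := d.half h hw (h.memL q) (h.Le q) hq (by
    intro z hz hzS
    obtain ⟨x, hxe, hJx, rfl, -, hwR⟩ := hx1 z hz hzS
    have h0 : (J * L x * J) q = L q x := by
      have := h.R_apply q x
      rwa [hJx] at this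
    have h1 : L q * (D L J x * J) * (L q)⁻¹ = D L J ((J * L x * J) q) * D L J q := by
      have h2 := h.D_conj (h.memL q) x
      have h3 := h.D_conj (h.memL q) e
      rw [h.Le, h.D_e] at h3
      rw [h0, ← h2, ← h3]; group
    have h4 : w ((J * L x * J) q) = (J * L x * J) q := by
      rw [← Perm.mul_apply, hwR, Perm.mul_apply, hq]
    have c1 : Commute w (D L J ((J * L x * J) q)) := (h.D_cent hwG _).2 h4
    have c2 : Commute w (D L J q) := (h.D_cent hwG _).2 hq
    rw [h1]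
    exact c1.mul_right c2)
  -- the two elements of `S` are conjugate in the inner mapping group
  set R := J * L (J q) * J with hRdef
  have hkI : R⁻¹ * L q ∈ Inn G e := by
    refine mem_Inn.2 ⟨G.mul_mem (G.inv_mem hRG) (h.memL q), ?_⟩
    rw [Perm.mul_apply, h.Le, Perm.inv_eq_iff_eq, hRe]
  obtain ⟨n, hnI, hnS, hn⟩ := burn d.hS d.hab hL hR hkI (by group)
  have h1 := hc n hnI hnS _ hL
  have h2 : R⁻¹ * w * R = (L q)⁻¹ * w * L q := by
    rw [← hn, h1]; group
  have hzZ : R⁻¹ * w * R ∈ Z L J := by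
    have := h.Z_conj hw (G.inv_mem hRG)
    rwa [inv_inv] at this
  obtain ⟨x, hxe, hJx, hx, hwL, hwR⟩ := hx1 _ hzZ hR
  have hzx := h.zx_mem hJx hxe
  have e1 : w = R * (D L J x * J) * R⁻¹ := by rw [← hx]; group
  have e2 : w = L q * (D L J x * J) * (L q)⁻¹ := by rw [← hx, h2]; group
  have e3 : w = D L J (L x q) * D L J q := by
    have h3 := h.D_conj hRG x
    have h4 := h.D_conj hRG e
    have hRx : R x = L x q := h.R_apply x q
    rw [hRx] at h3
    rw [hRe, h.D_e] at h4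
    rw [← h3, ← h4]
    calc w = R * (D L J x * J) * R⁻¹ := e1
      _ = _ := by group
  have h0 : (J * L x * J) q = L q x := by
    have := h.R_apply q x
    rwa [hJx] at this
  have e4 : w = D L J ((J * L x * J) q) * D L J q := by
    have h3 := h.D_conj (h.memL q) x
    have h4 := h.D_conj (h.memL q) e
    rw [h.Le, h.D_e] at h4
    rw [h0, ← h3, ← h4]
    calc w = L q * (D L J x * J) * (L q)⁻¹ := e2
      _ = _ := by group
  have e5 : L x q = (J * L x * J) q := h.D_inj (mul_right_cancel (e3.symm.trans e4))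
  have e6 : (D L J x * J) q = q := by
    rw [h.zt_eq hJx, h.Lx_z hJx hxe, Perm.mul_apply] at e5
    exact ((L x).injective e5).symm
  have e7 : w = D L J x * J := by
    have h3 := h.kp_spec hzx e6
    rw [← h.Lx_kp hJx hxe e6] at h3
    have h4 : (D L J x * J) * D L J q = D L J q * (D L J x * J) :=
      (h.D_cent (h.Z_mem hzx) q).2 e6
    rw [e3, h3, mul_assoc, h4, ← mul_assoc, h.D_sq, one_mul]
  rw [e7, ← hx]
  exact hR

end TE

end ALoop
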