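import Pool.Agent.H4.IS.Fus

set_option autoImplicit false

/-!
(6): the normaliser of `T` centralises the elements of `Z` in `S`.
-/

namespace ALoop

open Equiv

variable {Q : Type*} {G : Subgroup (Perm Q)} {L : Q → Perm Q} {J : Perm Q} {e : Q}
  {S T : Subgroup (Perm Q)} {x : Q}

namespace TE

/-- an element that normalises `T ∪ T J` normalises `S` -/
theorem norm_S [Finite Q] (h : AL G L J e) (d : TE G J e S T) (hJG : J ∉ G) {m : Perm Q}
    (hm : m ∈ G) (hmT : ∀ t ∈ T, m * t * m⁻¹ ∈ T) (hmJ : m * J * m⁻¹ * J ∈ T) :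
    ∀ s ∈ S, m * s * m⁻¹ ∈ S := by
  have h1 : ∀ s ∈ S, m⁻¹ * s * m ∈ S := by
    intro s hs
    have h2 : m⁻¹ * s * m ∈ T := norm_symm hmT s (d.ST hs)
    apply d.TH _ h2
    apply h.centJ (d.hT.1 h2)
    -- `s` commutes with `m J m⁻¹`
    have c1 : Commute (m * J * m⁻¹ * J) s := d.cen _ hmJ s hs
    have c2 : Commute J s := (h.comJ s (d.hS.1 hs).1 (d.hS.1 hs).2).symm
    have c3 : Commute (m * J * m⁻¹) s := by
      have := c1.mul_left c2
      rwa [mul_assoc, h.JJ1, mul_one] at this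
    calc m⁻¹ * s * m * J = m⁻¹ * (s * (m * J * m⁻¹)) * m := by group
      _ = m⁻¹ * ((m * J * m⁻¹) * s) * m := by rw [c3.eq]
      _ = J * (m⁻¹ * s * m) := by group
  have h2 : ∀ s ∈ S, m⁻¹ * s * (m⁻¹)⁻¹ ∈ S := by
    intro s hs
    rw [inv_inv]; exact h1 s hs
  intro s hs
  have := norm_symm h2 s hs
  rwa [inv_inv] at this

/-- (6) -/
theorem norm_cent [Finite Q] (h : AL G L J e) (d : TE G J e S T) (hc : HC G e S) (hJG : J ∉ G)
    {g : Perm Q} (hg : g ∈ G) (hgT : ∀ t ∈ T, g * t * g⁻¹ ∈ T) {z : Perm Q} (hz : z ∈ Z L J)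
    (hzS : z ∈ S) : g * z * g⁻¹ = z := by
  -- conjugates of elements of `Z` in `S` by elements normalising `T`
  have hstep : ∀ k ∈ G, (∀ t ∈ T, k * t * k⁻¹ ∈ T) → ∀ z ∈ Z L J, z ∈ S →
      k * z * k⁻¹ ∈ S := by
    intro k hk hkT z hz hzS
    apply d.ZT h hc (h.Z_conj hz hk) (hkT z (d.ST hzS))
    intro t ht
    have h1 := norm_symm hkT t ht
    have h2 := d.cen _ h1 z hzS
    calc k * z * k⁻¹ * t = k * (z * (k⁻¹ * t * k)) * k⁻¹ := by group
      _ = k * ((k⁻¹ * t * k) * z) * k⁻¹ := by rw [h2]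
      _ = t * (k * z * k⁻¹) := by group
  have hgT' : ∀ t ∈ T, g⁻¹ * t * (g⁻¹)⁻¹ ∈ T := by
    intro t ht
    rw [inv_inv]; exact norm_symm hgT t ht
  have hJT : J ∉ T := fun hj => hJG (d.hT.1 hj)
  set Gh := Hat G J h.JJ1 h.JG with hGh
  set Th := Hat T J h.JJ1 d.JT with hTh
  have hTG : T ≤ G := d.hT.1
  have hThle : Th ≤ Gh := by
    intro p hp
    rcases mem_Hat.1 hp with hp | hp
    · exact mem_Hat.2 (Or.inl (hTG hp))
    · exact mem_Hat.2 (Or.inr (hTG hp))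
  have hTh2 : IsPGroup 2 Th := by
    have : Fact (Nat.Prime 2) := ⟨Nat.prime_two⟩
    have h2 := d.hT.2.1
    rw [IsPGroup.iff_card] at h2 ⊢
    obtain ⟨n, hn⟩ := h2
    exact ⟨n + 1, by rw [hTh, card_Hat hJT, hn, pow_succ, mul_comm]⟩
  have hSyl : IsSyl Gh Th := by
    refine ⟨hThle, hTh2, ?_⟩
    intro hd
    apply d.hT.2.2
    have r1 := rel_card_mul hThle
    have r2 := rel_card_mul hTG
    rw [hTh, hGh, card_Hat hJT, card_Hat hJG, ← hTh, ← hGh, ← r2] at r1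
    have hpos : 0 < Nat.card T := Nat.card_pos
    have r3 : Th.relIndex Gh = T.relIndex G := by
      apply Nat.eq_of_mul_eq_mul_right (show 0 < 2 * Nat.card T by omega)
      rw [r1]; ring
    rw [← r3]; exact hd
  -- the centraliser of `Z ∩ S`
  set C : Subgroup (Perm Q) := Gh ⊓ Subgroup.centralizer {z | z ∈ Z L J ∧ z ∈ S} with hC
  have hmC : ∀ b, b ∈ C ↔ b ∈ Gh ∧ ∀ z ∈ Z L J, z ∈ S → b * z = z * b := by
    intro b
    rw [hC, Subgroup.mem_inf, Subgroup.mem_centralizer_iff]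
    constructor
    · rintro ⟨h1, h2⟩
      exact ⟨h1, fun z hz hzS => (h2 z ⟨hz, hzS⟩).symm⟩
    · rintro ⟨h1, h2⟩
      exact ⟨h1, fun z hz => (h2 z hz.1 hz.2).symm⟩
  have hJz : ∀ z ∈ S, Commute J z := fun z hzS =>
    (h.comJ z (d.hS.1 hzS).1 (d.hS.1 hzS).2).symm
  have hThz : ∀ p ∈ Th, ∀ z ∈ S, p * z = z * p := by
    intro p hp z hzS
    rcases mem_Hat.1 hp with hp | hp
    · exact d.cen p hp z hzS
    · have c1 : Commute (p * J) z := d.cen _ hp z hzS
      have c2 := c1.mul_left (hJz z hzS)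
      rw [mul_assoc, h.JJ1, mul_one] at c2
      exact c2
  have hSylC : IsSyl C Th := hSyl.mono
    (fun p hp => (hmC p).2 ⟨hThle hp, fun z _ hzS => hThz p hp z hzS⟩) inf_le_left
  obtain ⟨c, hcC, hcT⟩ := hSylC.conj_mem hTh2 g⁻¹ (by
    intro p hp
    rw [inv_inv]
    refine (hmC _).2 ⟨Gh.mul_mem (Gh.mul_mem (le_Hat hg) (hThle hp)) (Gh.inv_mem (le_Hat hg)), ?_⟩
    intro z hz hzS
    have h1 : g⁻¹ * z * g ∈ S := by
      have := hstep g⁻¹ (G.inv_mem hg) hgT' z hz hzS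
      rwa [inv_inv] at this
    have h2 := hThz p hp _ h1
    calc g * p * g⁻¹ * z = g * (p * (g⁻¹ * z * g)) * g⁻¹ := by group
      _ = g * ((g⁻¹ * z * g) * p) * g⁻¹ := by rw [h2]
      _ = z * (g * p * g⁻¹) := by group)
  obtain ⟨hcG, hcz⟩ := (hmC c).1 hcC
  -- without loss `c ∈ G`
  obtain ⟨b, hbG, hbz, hbT⟩ : ∃ b ∈ G, (∀ z ∈ Z L J, z ∈ S → b * z = z * b) ∧
      ∀ t ∈ Th, b * (g * t * g⁻¹) * b⁻¹ ∈ Th := by
    rcases mem_Hat.1 hcG with h1 | h1
    · refine ⟨c, h1, hcz, ?_⟩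
      intro t ht
      have := hcT t ht
      rwa [inv_inv] at this
    · refine ⟨J * c, ?_, ?_, ?_⟩
      · have h2 := h.JG _ h1
        have h3 : J * (c * J) * J = J * c := by
          calc J * (c * J) * J = J * c * (J * J) := by group
            _ = J * c := by rw [h.JJ1, mul_one]
        rw [h3] at h2
        exact h2
      · intro z hz hzS
        have c1 : Commute c z := hcz z hz hzS
        exact (hJz z hzS).mul_left c1
      · intro t ht
        have h2 := hcT t ht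
        rw [inv_inv] at h2
        have h3 : J * c * (g * t * g⁻¹) * (J * c)⁻¹ = J * (c * (g * t * g⁻¹) * c⁻¹) * J := by
          rw [mul_inv_rev, h.Jinv]; group
        rw [h3]
        exact Th.mul_mem (Th.mul_mem J_mem_Hat h2) J_mem_Hat
  set m := b * g with hm
  have hmG : m ∈ G := G.mul_mem hbG hg
  have hmTh : ∀ t ∈ Th, m * t * m⁻¹ ∈ Th := by
    intro t ht
    have := hbT t ht
    have h2 : m * t * m⁻¹ = b * (g * t * g⁻¹) * b⁻¹ := by rw [hm]; group
    rw [h2]; exact this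
  have hTG' : ∀ p ∈ Th, p ∈ G → p ∈ T := by
    intro p hp hpG
    rcases mem_Hat.1 hp with h1 | h1
    · exact h1
    · exfalso
      apply hJG
      have h2 := G.mul_mem (G.inv_mem hpG) (hTG h1)
      rwa [inv_mul_cancel_left] at h2
  have hmT : ∀ t ∈ T, m * t * m⁻¹ ∈ T := fun t ht =>
    hTG' _ (hmTh t (le_Hat ht)) (G.mul_mem (G.mul_mem hmG (hTG ht)) (G.inv_mem hmG))
  have hmJ : m * J * m⁻¹ * J ∈ T := by
    rcases mem_Hat.1 (hmTh J J_mem_Hat) with h1 | h1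
    · exfalso
      apply hJG
      have h2 := G.mul_mem (G.mul_mem (G.inv_mem hmG) (hTG h1)) hmG
      have h3 : m⁻¹ * (m * J * m⁻¹) * m = J := by group
      rw [h3] at h2
      exact h2
    · exact h1
  have hmS := d.norm_S h hJG hmG hmT hmJ
  -- `m` centralises `S`
  set p := m e with hp
  have hpS : ∀ s ∈ S, s p = p := by
    intro s hs
    have hmS' : ∀ s ∈ S, m⁻¹ * s * m ∈ S := norm_symm hmS
    have h1 := (d.hS.1 (hmS' s hs)).2
    have h2 : (m⁻¹ * s * m) e = e := h1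
    rw [Perm.mul_apply, Perm.mul_apply, Perm.inv_eq_iff_eq, ← hp] at h2
    exact h2
  have hSL := h.S_L d.hS hpS
  have hn : (L p)⁻¹ * m ∈ Inn G e := by
    refine mem_Inn.2 ⟨G.mul_mem (G.inv_mem (h.memL p)) hmG, ?_⟩
    rw [Perm.mul_apply, ← hp, Perm.inv_eq_iff_eq, h.Le]
  have hcent := hc _ hn (by
    intro s hs
    have h1 := hmS s hs
    have h2 : Commute (m * s * m⁻¹) (L p) := hSL _ h1
    have h3 : (L p)⁻¹ * m * s * ((L p)⁻¹ * m)⁻¹ = (L p)⁻¹ * (m * s * m⁻¹) * L p := by group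
    rw [h3, mul_assoc, h2.eq, inv_mul_cancel_left]
    exact h1)
  have hmz : m * z = z * m := by
    have c1 : Commute ((L p)⁻¹ * m) z := hcent z hzS
    have c2 : Commute (L p) z := (hSL z hzS).symm
    have c3 := c2.mul_left c1
    rw [mul_inv_cancel_left] at c3
    exact c3
  have hbz' : Commute b z := hbz z hz hzS
  have hgz : Commute g z := by
    have h1 : g = b⁻¹ * m := by rw [hm]; group
    have c1 : Commute m z := hmz
    rw [h1]
    exact hbz'.inv_left.mul_left c1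
  rw [hgz.eq, mul_inv_cancel_right]

end TE

end ALoop
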