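import Pool.Agent.H4.FD.Syl

set_option autoImplicit false

/-!
The group `S ⟨t⟩` for an element `t` that centralises `S`.
-/

namespace ALoop

variable {M : Type*} [Group M]

theorem com_zpow {S : Subgroup M} {t : M} (ht : ∀ s ∈ S, s * t = t * s) (a : ℤ) :
    ∀ s ∈ S, s * t ^ a = t ^ a * s := by
  intro s hs
  have h1 : Commute s t := ht s hs
  exact h1.zpow_right a

/-- `S ⟨t⟩` -/
def Tgrp (S : Subgroup M) (t : M) (ht : ∀ s ∈ S, s * t = t * s) : Subgroup M where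
  carrier := {p | ∃ a : ℤ, p * t ^ a ∈ S}
  one_mem' := ⟨0, by rw [zpow_zero, mul_one]; exact S.one_mem⟩
  mul_mem' := by
    rintro p q ⟨a, ha⟩ ⟨b, hb⟩
    refine ⟨b + a, ?_⟩
    have h1 := com_zpow ht a _ hb
    have h2 : p * q * t ^ (b + a) = (p * t ^ a) * (q * t ^ b) := by
      calc p * q * t ^ (b + a) = p * ((q * t ^ b) * t ^ a) := by rw [zpow_add]; group
        _ = p * (t ^ a * (q * t ^ b)) := by rw [h1]
        _ = _ := by group
    rw [h2]
    exact S.mul_mem ha hb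
  inv_mem' := by
    rintro p ⟨a, ha⟩
    refine ⟨-a, ?_⟩
    have h1 := com_zpow ht a _ (S.inv_mem ha)
    have h2 : p⁻¹ * t ^ (-a) = (p * t ^ a)⁻¹ := by
      calc p⁻¹ * t ^ (-a) = t ^ a * (p * t ^ a)⁻¹ * t ^ (-a) := by group
        _ = (p * t ^ a)⁻¹ * t ^ a * t ^ (-a) := by rw [h1]
        _ = _ := by group
    rw [h2]
    exact S.inv_mem ha

theorem mem_Tgrp {S : Subgroup M} {t : M} {ht : ∀ s ∈ S, s * t = t * s} {p : M} :
    p ∈ Tgrp S t ht ↔ ∃ a : ℤ, p * t ^ a ∈ S := Iff.rfl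

theorem le_Tgrp {S : Subgroup M} {t : M} {ht : ∀ s ∈ S, s * t = t * s} : S ≤ Tgrp S t ht :=
  fun s hs => ⟨0, by rw [zpow_zero, mul_one]; exact hs⟩

theorem gen_mem_Tgrp {S : Subgroup M} {t : M} {ht : ∀ s ∈ S, s * t = t * s} : t ∈ Tgrp S t ht :=
  ⟨-1, by rw [zpow_neg_one, mul_inv_cancel]; exact S.one_mem⟩

theorem Tgrp_comm {S : Subgroup M} {t : M} {ht : ∀ s ∈ S, s * t = t * s}
    (hab : ∀ a ∈ S, ∀ b ∈ S, a * b = b * a) : ∀ p ∈ Tgrp S t ht, ∀ q ∈ Tgrp S t ht,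
      p * q = q * p := by
  rintro p ⟨a, ha⟩ q ⟨b, hb⟩
  have h1 : Commute (p * t ^ a) (q * t ^ b) := hab _ ha _ hb
  have h2 : Commute (p * t ^ a) (t ^ b) := com_zpow ht b _ ha
  have h3 : Commute (t ^ a) (q * t ^ b) := (com_zpow ht a _ hb).symm
  have h4 : Commute (t ^ a) (t ^ b) := Commute.zpow_zpow_self t a b
  have h5 : Commute (p * t ^ a) q := by
    have := h1.mul_right h2.inv_right
    rwa [mul_inv_cancel_right] at this
  have h6 : Commute (t ^ a) q := by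
    have := h3.mul_right h4.inv_right
    rwa [mul_inv_cancel_right] at this
  have h7 := h5.mul_left h6.inv_left
  rw [mul_inv_cancel_right] at h7
  exact h7

theorem card_Tgrp [Finite M] {S : Subgroup M} {t : M} {ht : ∀ s ∈ S, s * t = t * s} {n : ℕ}
    (hn : 0 < n) (h : ∀ a : ℤ, t ^ a ∈ S ↔ (n : ℤ) ∣ a) :
    Nat.card (Tgrp S t ht) = n * Nat.card S := by
  have h1 : Nat.card (S × Fin n) = n * Nat.card S := by
    rw [Nat.card_prod, Nat.card_fin, mul_comm]
  rw [← h1]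
  symm
  let f : S × Fin n → Tgrp S t ht := fun y => ⟨y.1 * t ^ (y.2 : ℕ), ⟨-(y.2 : ℕ), by
    rw [zpow_neg, zpow_natCast, mul_inv_cancel_right]; exact y.1.2⟩⟩
  refine Nat.card_eq_of_bijective f ⟨?_, ?_⟩
  · rintro ⟨s, i⟩ ⟨s', j⟩ hij
    have h2 : (s : M) * t ^ (i : ℕ) = s' * t ^ (j : ℕ) := congrArg Subtype.val hij
    have h3 : t ^ ((i : ℤ) - j) ∈ S := by
      have h4 : t ^ ((i : ℤ) - j) = (s : M)⁻¹ * s' := by
        rw [zpow_sub, zpow_natCast, zpow_natCast]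
        calc t ^ (i : ℕ) * (t ^ (j : ℕ))⁻¹ = (s : M)⁻¹ * (s * t ^ (i : ℕ)) * (t ^ (j : ℕ))⁻¹ := by
              group
          _ = (s : M)⁻¹ * (s' * t ^ (j : ℕ)) * (t ^ (j : ℕ))⁻¹ := by rw [h2]
          _ = _ := by group
      rw [h4]
      exact S.mul_mem (S.inv_mem s.2) s'.2
    rw [h] at h3
    have hi := i.2
    have hj := j.2
    have h5 : (i : ℕ) = j := by
      obtain ⟨c, hc⟩ := h3
      have h6 : c = 0 := by
        by_contra hc0
        rcases lt_or_gt_of_ne hc0 with h7 | h7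
        · have : (n : ℤ) * c ≤ (n : ℤ) * (-1) := by
            apply mul_le_mul_of_nonneg_left <;> omega
          omega
        · have : (n : ℤ) * 1 ≤ (n : ℤ) * c := by
            apply mul_le_mul_of_nonneg_left <;> omega
          omega
      rw [h6, mul_zero] at hc
      omega
    have h6 : i = j := Fin.ext h5
    subst h6
    have h7 : s = s' := Subtype.ext (mul_right_cancel h2)
    rw [h7]
  · rintro ⟨p, a, ha⟩
    have hn' : (0 : ℤ) < n := by exact_mod_cast hn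
    have h2 : 0 ≤ (-a) % n := Int.emod_nonneg _ hn'.ne'
    have h3 : (-a) % n < n := Int.emod_lt_of_pos _ hn'
    refine ⟨(⟨p * t ^ (-((-a) % n)), ?_⟩, ⟨((-a) % n).toNat, by omega⟩), ?_⟩
    · have h4 : p * t ^ (-((-a) % n)) = (p * t ^ a) * t ^ (-a - (-a) % n) := by
        rw [mul_assoc, ← zpow_add]
        congr 2
        ring
      rw [h4]
      apply S.mul_mem ha
      rw [h]
      exact Int.dvd_self_sub_emod
    · apply Subtype.ext
      change p * t ^ (-((-a) % n)) * t ^ (((-a) % n).toNat) = p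
      rw [← zpow_natCast, Int.toNat_of_nonneg h2, zpow_neg, inv_mul_cancel_right]

end ALoop
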