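import Pool.Agent.H4.IS.Ext
import Pool.Agent.H4.IS.Tgrp

set_option autoImplicit false

/-!
(3): the element `t` of the centraliser of `S`.
-/

namespace ALoop

open Equiv

variable {Q : Type*} {G : Subgroup (Perm Q)} {L : Q → Perm Q} {J : Perm Q} {e : Q}
  {S : Subgroup (Perm Q)}

namespace AL

/-- the element `t` -/
theorem exists_t [Finite Q] (h : AL G L J e) (hr : HR L J) (hS : IsSyl (Inn G e) S) {x : Q}
    (hx : ∀ s ∈ S, s x = x) (hJx : J x = x) (hxe : x ≠ e) {k : ℕ}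
    (hk : 2 ^ k ∣ Nat.card (Fx S)) :
    ∃ t ∈ G, (∀ s ∈ S, s * t = t * s) ∧ (∀ a : ℤ, t ^ a ∈ S ↔ ((2 ^ k : ℕ) : ℤ) ∣ a) ∧
      (∀ a : ℤ, (t ^ a) e = e → t ^ a ∈ S) ∧ J * t * J * t ∈ S := by
  have ho := h.toOL hr hS hx hJx hxe
  obtain ⟨b, hb, hbo⟩ := ho.exists_gen k hk
  have hbf : ∀ q : Fx S, (h.Lb hS b q : Q) = L b q := fun q => rfl
  obtain ⟨r, hrodd, n, hn⟩ := exists_odd_pow (L b)
  set t := L b ^ r with ht
  set c := h.Lb hS b with hc
  have hct : ∀ q : Fx S, ((c ^ r) q : Q) = t q := fun q => resG_pow hbf r q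
  have htG : t ∈ G := G.pow_mem (h.memL _) r
  have hSt : ∀ s ∈ S, s * t = t * s := by
    intro s hs
    have h1 : Commute s (L b) := h.S_L hS b.2 s hs
    exact h1.pow_right r
  have hcr : ∀ g ∈ resG G S, g * c ^ r = c ^ r * g := by
    intro g hg
    have h1 : Commute g c := hb g hg
    exact h1.pow_right r
  have hcz : ∀ (a : ℤ) (q : Fx S), (((c ^ r) ^ a) q : Q) = (t ^ a) q := by
    intro a q
    obtain ⟨m, rfl | rfl⟩ := a.eq_nat_or_neg
    · rw [zpow_natCast, zpow_natCast]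
      exact resG_pow hct m q
    · rw [zpow_neg, zpow_neg, zpow_natCast, zpow_natCast]
      rw [Perm.eq_inv_iff_eq, ← resG_pow hct m, apply_inv']
  have hcro : orderOf (c ^ r) = 2 ^ k := by
    rw [← hbo]
    apply Nat.Coprime.orderOf_pow
    rw [hbo]
    apply Nat.Coprime.pow_left
    exact (Nat.coprime_two_left).2 hrodd
  have hfree : ∀ a : ℤ, (t ^ a) e = e → ((2 ^ k : ℕ) : ℤ) ∣ a := by
    intro a hta
    have h1 : (c ^ r) ^ a = 1 := by
      apply ho.cent_ext (OL.cent_zpow hcr a) (p := eb hS)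
      · intro g _; rw [mul_one, one_mul]
      · apply Subtype.ext
        rw [hcz, Perm.one_apply]
        exact hta
    rw [← hcro]
    exact orderOf_dvd_iff_zpow_eq_one.2 h1
  have hpow : ∀ a : ℤ, (t ^ a) e = e → t ^ a ∈ S := by
    intro a hta
    have hN : (t ^ a) ^ 2 ^ n = 1 := by
      rw [← zpow_natCast, ← zpow_mul, mul_comm, zpow_mul, zpow_natCast, hn, one_zpow]
    refine hS.mem_of_comm (mem_Inn.2 ⟨G.zpow_mem htG a, hta⟩) ?_ hN
    exact com_zpow hSt a
  refine ⟨t, htG, hSt, ?_, hpow, ?_⟩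
  · intro a
    constructor
    · intro h1
      exact hfree a (hS.1 h1).2
    · intro h1
      apply hpow
      have h2 : (c ^ r) ^ a = 1 := by
        rw [← orderOf_dvd_iff_zpow_eq_one, hcro]; exact h1
      have h3 := hcz a (eb hS)
      rw [h2, Perm.one_apply] at h3
      exact h3.symm
  · have h1 : J * t * J = (J * L b * J) ^ r := by
      have h2 : J * t * J = J * L b ^ r * J⁻¹ := by rw [h.Jinv]
      rw [h2, ← conj_pow, h.Jinv]
    have h2 : Commute (J * L b * J) (L b) := (h.comLR _).symm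
    have h3 : Commute (J * t * J) t := by
      rw [h1]; exact h2.pow_pow r r
    have h4 : J * t * J * t ∈ G := G.mul_mem (h.JG _ htG) htG
    have h5 : (J * t * J * t) ^ 2 ^ n = 1 := by
      rw [h3.mul_pow, hn, mul_one]
      have h6 : J * t * J = J * t * J⁻¹ := by rw [h.Jinv]
      rw [h6, conj_pow, hn, mul_one, mul_inv_cancel]
    refine hS.mem_of_comm (mem_Inn.2 ⟨h4, ?_⟩) ?_ h5
    · -- value at `e`
      have h6 : h.Jb hS * c * h.Jb hS = c⁻¹ := ho.JLbJ hb
      have h7 : h.Jb hS * c ^ r * h.Jb hS = (c ^ r)⁻¹ := by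
        have h8 : h.Jb hS * c ^ r * h.Jb hS = h.Jb hS * c ^ r * (h.Jb hS)⁻¹ := by rw [ho.Jinv]
        rw [h8, ← conj_pow, ho.Jinv, h6, inv_pow]
      have h9 : (h.Jb hS * c ^ r * h.Jb hS * c ^ r) (eb hS) = eb hS := by
        rw [h7, inv_mul_cancel, Perm.one_apply]
      have h10 := congrArg Subtype.val h9
      rw [Perm.mul_apply, Perm.mul_apply, Perm.mul_apply, h.Jb_apply, hct, h.Jb_apply, hct] at h10
      exact h10
    · intro s hs
      have h6 : Commute s J := h.S_J hS s hs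
      have h7 : Commute s t := hSt s hs
      exact ((h6.mul_right h7).mul_right h6).mul_right h7

/-- `J` is not in `G` -/
theorem J_not_mem (h : AL G L J e) {x : Q} (hJx : J x = x) (hxe : x ≠ e) : J ∉ G := by
  intro hJG
  have h5 := h.comL hJG h.Je hJx
  have h6 := h.centJ (h.memL x) h5.symm
  rw [h.Le] at h6
  exact hxe h6

end AL

end ALoop
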