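import Pool.Agent.H4.IS.Small

set_option autoImplicit false

/-!
Groups of class two with a central subgroup whose quotient is generated by two elements.
-/

namespace ALoop

/-- a finite abelian 2-group with at most four elements modulo squares has two generators -/
theorem gen_two {A : Type*} [CommGroup A] [Finite A] (hA : ∀ a : A, ∃ k : ℕ, a ^ 2 ^ k = 1)
    (h4 : (powMonoidHom 2 : A →* A).range.index ≤ 4) :
    ∃ a1 a2 : A, ∀ K : Subgroup A, a1 ∈ K → a2 ∈ K → K = ⊤ := by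
  classical
  set U := (powMonoidHom 2 : A →* A).range with hU
  have hsq : ∀ a : A, a * a ∈ U := fun a => ⟨a, pow_two a⟩
  -- two elements that generate `A` modulo `U`
  obtain ⟨a1, a2, h12⟩ : ∃ a1 a2 : A, ∀ a : A, a ∈ U ∨ a1⁻¹ * a ∈ U ∨ a2⁻¹ * a ∈ U ∨
      (a1 * a2)⁻¹ * a ∈ U := by
    by_cases hU1 : ∀ a, a ∈ U
    · exact ⟨1, 1, fun a => Or.inl (hU1 a)⟩
    push Not at hU1
    obtain ⟨a1, ha1⟩ := hU1
    by_cases hU2 : ∀ a, a ∈ U ∨ a1⁻¹ * a ∈ U
    · refine ⟨a1, 1, fun a => ?_⟩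
      rcases hU2 a with h | h
      · exact Or.inl h
      · exact Or.inr (Or.inl h)
    push Not at hU2
    obtain ⟨a2, ha2, ha21⟩ := hU2
    refine ⟨a1, a2, fun a => ?_⟩
    by_contra hcon
    push Not at hcon
    obtain ⟨h1, h2, h3, h5⟩ := hcon
    -- five different cosets
    have hnd : ([((1 : A) : A ⧸ U), (a1 : A ⧸ U), (a2 : A ⧸ U),
        ((a1 * a2 : A) : A ⧸ U), (a : A ⧸ U)] : List (A ⧸ U)).Nodup := by
      have e1 : ((1 : A) : A ⧸ U) ≠ (a1 : A ⧸ U) := by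
        intro h; rw [QuotientGroup.eq] at h; exact ha1 (by simpa using h)
      have e2 : ((1 : A) : A ⧸ U) ≠ (a2 : A ⧸ U) := by
        intro h; rw [QuotientGroup.eq] at h; exact ha2 (by simpa using h)
      have e3 : ((1 : A) : A ⧸ U) ≠ ((a1 * a2 : A) : A ⧸ U) := by
        intro h; rw [QuotientGroup.eq] at h
        apply ha21
        have h6 : a1⁻¹ * a2 = (1⁻¹ * (a1 * a2)) * (a1⁻¹ * a1⁻¹) := by
          rw [inv_one, one_mul, mul_comm a1 a2, mul_assoc, mul_inv_cancel_left, mul_comm]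
        rw [h6]
        exact U.mul_mem h (hsq _)
      have e4 : ((1 : A) : A ⧸ U) ≠ (a : A ⧸ U) := by
        intro h; rw [QuotientGroup.eq] at h; exact h1 (by simpa using h)
      have e5 : (a1 : A ⧸ U) ≠ (a2 : A ⧸ U) := by
        intro h; rw [QuotientGroup.eq] at h; exact ha21 h
      have e6 : (a1 : A ⧸ U) ≠ ((a1 * a2 : A) : A ⧸ U) := by
        intro h; rw [QuotientGroup.eq, inv_mul_cancel_left] at h; exact ha2 h
      have e7 : (a1 : A ⧸ U) ≠ (a : A ⧸ U) := by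
        intro h; rw [QuotientGroup.eq] at h; exact h2 h
      have e8 : (a2 : A ⧸ U) ≠ ((a1 * a2 : A) : A ⧸ U) := by
        intro h; rw [QuotientGroup.eq, mul_comm a1 a2, inv_mul_cancel_left] at h; exact ha1 h
      have e9 : (a2 : A ⧸ U) ≠ (a : A ⧸ U) := by
        intro h; rw [QuotientGroup.eq] at h; exact h3 h
      have e10 : ((a1 * a2 : A) : A ⧸ U) ≠ (a : A ⧸ U) := by
        intro h; rw [QuotientGroup.eq] at h; exact h5 h
      simp only [List.nodup_cons, List.mem_cons, List.not_mem_nil, or_false, not_or,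
        List.nodup_nil, and_true, not_false_eq_true]
      exact ⟨⟨e1, e2, e3, e4⟩, ⟨e5, e6, e7⟩, ⟨e8, e9⟩, e10⟩
    have hft : Fintype (A ⧸ U) := Fintype.ofFinite _
    have h6 := hnd.length_le_card
    rw [← Nat.card_eq_fintype_card] at h6
    simp only [List.length_cons, List.length_nil] at h6
    have h7 : Nat.card (A ⧸ U) = U.index := rfl
    omega
  refine ⟨a1, a2, ?_⟩
  intro K hK1 hK2
  -- squaring is onto on `A ⧸ K`
  have hsurj : Function.Surjective (fun q : A ⧸ K => q * q) := by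
    intro q
    induction q using QuotientGroup.induction_on with
    | H a =>
      have key : ∀ k ∈ K, k⁻¹ * a ∈ U → ∃ q : A ⧸ K, q * q = (a : A ⧸ K) := by
        rintro k hk ⟨b, hb⟩
        refine ⟨(b : A ⧸ K), ?_⟩
        have hb' : b * b = k⁻¹ * a := by rw [← hb]; exact (pow_two b).symm
        rw [← QuotientGroup.mk_mul, hb', QuotientGroup.eq]
        have h8 : (k⁻¹ * a)⁻¹ * a = k := by
          rw [mul_inv_rev, inv_inv, mul_assoc, mul_comm k a, inv_mul_cancel_left]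
        rw [h8]
        exact hk
      rcases h12 a with h | h | h | h
      · exact key 1 K.one_mem (by simpa using h)
      · exact key a1 hK1 h
      · exact key a2 hK2 h
      · exact key (a1 * a2) (K.mul_mem hK1 hK2) h
  have hinj : Function.Injective (fun q : A ⧸ K => q * q) :=
    Finite.injective_iff_surjective.2 hsurj
  have hall : ∀ k : ℕ, ∀ q : A ⧸ K, q ^ 2 ^ k = 1 → q = 1 := by
    intro k
    induction k with
    | zero => intro q hq; simpa using hq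
    | succ k ih =>
      intro q hq
      have h8 : (q ^ 2 ^ k) * (q ^ 2 ^ k) = 1 := by
        rw [← hq, pow_succ, pow_mul, pow_two]
      have h9 : q ^ 2 ^ k = 1 := hinj (by
        show q ^ 2 ^ k * q ^ 2 ^ k = 1 * 1
        rw [h8, mul_one])
      exact ih q h9
  rw [eq_top_iff]
  intro a _
  obtain ⟨k, hk⟩ := hA a
  have h8 : ((a : A ⧸ K)) = 1 := hall k _ (by
    rw [← QuotientGroup.mk_pow, hk, QuotientGroup.mk_one])
  exact (QuotientGroup.eq_one_iff a).1 h8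

/-- commutators of a group of class two that is generated by two elements modulo its centre -/
theorem comm_zpowers {M : Type*} [Group M] {T S : Subgroup M} (hST : S ≤ T)
    (hcen : ∀ t ∈ T, ∀ s ∈ S, t * s = s * t)
    (hcom : ∀ a ∈ T, ∀ b ∈ T, a * b * a⁻¹ * b⁻¹ ∈ S) {t1 t2 : M} (h1 : t1 ∈ T) (h2 : t2 ∈ T)
    (hgen : ∀ K : Subgroup M, S ≤ K → t1 ∈ K → t2 ∈ K → T ≤ K) :
    ∀ a ∈ T, ∀ b ∈ T, a * b * a⁻¹ * b⁻¹ ∈ Subgroup.zpowers (t1 * t2 * t1⁻¹ * t2⁻¹) := by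
  set c := t1 * t2 * t1⁻¹ * t2⁻¹ with hc
  have hcS : c ∈ S := hcom t1 h1 t2 h2
  have hZS : Subgroup.zpowers c ≤ S := by
    rw [Subgroup.zpowers_le]; exact hcS
  have hZc : ∀ t ∈ T, ∀ u ∈ Subgroup.zpowers c, t * u = u * t := fun t ht u hu =>
    hcen t ht u (hZS hu)
  -- for fixed `b` the elements `a` form a subgroup
  have hL : ∀ b ∈ T, ∃ C : Subgroup M, ∀ a, a ∈ C ↔ a ∈ T ∧
      a * b * a⁻¹ * b⁻¹ ∈ Subgroup.zpowers c := by
    intro b hb
    refine ⟨{ carrier := {a | a ∈ T ∧ a * b * a⁻¹ * b⁻¹ ∈ Subgroup.zpowers c}, one_mem' := ?_,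
              mul_mem' := ?_, inv_mem' := ?_ }, fun a => Iff.rfl⟩
    · rintro a a' ⟨ha, hab⟩ ⟨ha', hab'⟩
      refine ⟨T.mul_mem ha ha', ?_⟩
      have h3 := hZc a ha _ hab'
      have h4 : a * a' * b * (a * a')⁻¹ * b⁻¹ =
          (a * (a' * b * a'⁻¹ * b⁻¹)) * (b * a⁻¹ * b⁻¹) := by group
      have h5 : (a' * b * a'⁻¹ * b⁻¹) * (a * b * a⁻¹ * b⁻¹) =
          ((a' * b * a'⁻¹ * b⁻¹) * a) * (b * a⁻¹ * b⁻¹) := by group
      rw [h4, h3, ← h5]
      exact Subgroup.mul_mem _ hab' hab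
    · exact ⟨T.one_mem, by simp⟩
    · rintro a ⟨ha, hab⟩
      refine ⟨T.inv_mem ha, ?_⟩
      have h3 := hZc a⁻¹ (T.inv_mem ha) _ (Subgroup.inv_mem _ hab)
      have h4 : a⁻¹ * b * a⁻¹⁻¹ * b⁻¹ = (a⁻¹ * (a * b * a⁻¹ * b⁻¹)⁻¹) * a := by group
      rw [h4, h3, inv_mul_cancel_right]
      exact Subgroup.inv_mem _ hab
  have hswap : ∀ a b : M, a * b * a⁻¹ * b⁻¹ ∈ Subgroup.zpowers c →
      b * a * b⁻¹ * a⁻¹ ∈ Subgroup.zpowers c := by
    intro a b hab
    have h3 : b * a * b⁻¹ * a⁻¹ = (a * b * a⁻¹ * b⁻¹)⁻¹ := by group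
    rw [h3]; exact Subgroup.inv_mem _ hab
  have hSb : ∀ s ∈ S, ∀ b ∈ T, s * b * s⁻¹ * b⁻¹ ∈ Subgroup.zpowers c := by
    intro s hs b hb
    have h3 := hcen b hb s hs
    have h4 : s * b * s⁻¹ * b⁻¹ = 1 := by rw [← h3]; group
    rw [h4]; exact Subgroup.one_mem _
  have k1 : ∀ a ∈ T, a * t1 * a⁻¹ * t1⁻¹ ∈ Subgroup.zpowers c := by
    obtain ⟨C, hC⟩ := hL t1 h1
    intro a ha
    refine ((hC a).1 (hgen C ?_ ?_ ?_ ha)).2
    · intro s hs; exact (hC s).2 ⟨hST hs, hSb s hs t1 h1⟩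
    · exact (hC t1).2 ⟨h1, by simp⟩
    · exact (hC t2).2 ⟨h2, hswap _ _ (Subgroup.mem_zpowers c)⟩
  have k2 : ∀ a ∈ T, a * t2 * a⁻¹ * t2⁻¹ ∈ Subgroup.zpowers c := by
    obtain ⟨C, hC⟩ := hL t2 h2
    intro a ha
    refine ((hC a).1 (hgen C ?_ ?_ ?_ ha)).2
    · intro s hs; exact (hC s).2 ⟨hST hs, hSb s hs t2 h2⟩
    · exact (hC t1).2 ⟨h1, Subgroup.mem_zpowers c⟩
    · exact (hC t2).2 ⟨h2, by simp⟩
  intro a ha b hb
  obtain ⟨C, hC⟩ := hL a ha
  refine hswap _ _ ((hC b).1 (hgen C ?_ ?_ ?_ hb)).2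
  · intro s hs; exact (hC s).2 ⟨hST hs, hSb s hs a ha⟩
  · exact (hC t1).2 ⟨h1, hswap _ _ (k1 a ha)⟩
  · exact (hC t2).2 ⟨h2, hswap _ _ (k2 a ha)⟩

/-- the involution of a cyclic 2-group -/
theorem invol_zpowers {M : Type*} [Group M] {c : M} {k : ℕ} (hk : c ^ 2 ^ k = 1) {u v : M}
    (hu : u ∈ Subgroup.zpowers c) (hv : v ∈ Subgroup.zpowers c) (hu1 : u ≠ 1) (hv1 : v ≠ 1)
    (hu2 : u * u = 1) (hv2 : v * v = 1) : u = v := by
  classical
  obtain ⟨j, hj, hjo⟩ := (Nat.dvd_prime_pow Nat.prime_two).1 (orderOf_dvd_of_pow_eq_one hk)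
  have key : ∀ w ∈ Subgroup.zpowers c, w ≠ 1 → w * w = 1 → w = c ^ (2 ^ (j - 1) : ℕ) := by
    rintro w ⟨i, rfl⟩ hw1 hw2
    have hw1' : c ^ i ≠ 1 := hw1
    have hw2' : c ^ i * c ^ i = 1 := hw2
    have h1 : c ^ (2 * i) = 1 := by rw [two_mul, zpow_add]; exact hw2'
    rw [← orderOf_dvd_iff_zpow_eq_one, hjo] at h1
    have hj0 : j ≠ 0 := by
      intro h0
      apply hw1'
      rw [← orderOf_dvd_iff_zpow_eq_one, hjo, h0]
      simp
    obtain ⟨j', rfl⟩ := Nat.exists_eq_succ_of_ne_zero hj0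
    rw [Nat.succ_eq_add_one, pow_succ] at h1
    push_cast at h1
    rw [mul_comm] at h1
    obtain ⟨r, hr⟩ := Int.dvd_of_mul_dvd_mul_left (by norm_num : (2 : ℤ) ≠ 0) h1
    -- `i = 2 ^ j' * r`, `r` odd
    have hodd : ¬ (2 : ℤ) ∣ r := by
      rintro ⟨r', rfl⟩
      apply hw1'
      rw [← orderOf_dvd_iff_zpow_eq_one, hjo, hr]
      refine ⟨r', ?_⟩
      rw [Nat.succ_eq_add_one, pow_succ]; push_cast; ring
    obtain ⟨r', hr'⟩ := Int.odd_iff.2 (Int.emod_two_ne_zero.1 fun h => hodd (Int.dvd_of_emod_eq_zero h))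
    show c ^ i = _
    have h2 : i = (2 : ℤ) ^ (j' + 1) * r' + 2 ^ j' := by
      rw [hr, hr', pow_succ]; ring
    rw [h2, zpow_add]
    have h3 : c ^ ((2 : ℤ) ^ (j' + 1) * r') = 1 := by
      rw [zpow_mul]
      have h4 : c ^ ((2 : ℤ) ^ (j' + 1)) = 1 := by
        rw [← orderOf_dvd_iff_zpow_eq_one, hjo]
        push_cast
        exact dvd_refl _
      rw [h4, one_zpow]
    rw [h3, one_mul, Nat.succ_eq_add_one, Nat.add_sub_cancel, ← zpow_natCast]
    push_cast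
    rfl
  rw [key u hu hu1 hu2, key v hv hv1 hv2]

end ALoop
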