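import Pool.Agent.H4.IS.TD
import Pool.Agent.H4.FD.PsetB

set_option autoImplicit false

/-!
If commuting elements of `Z` with a common fixed point are equal then `L x` is central in the
centraliser of `z`, and different elements of `Z` do not commute.
-/

namespace ALoop

open Equiv

variable {Q : Type*} {G : Subgroup (Perm Q)} {L : Q → Perm Q} {J : Perm Q} {e : Q} {x : Q}

/-- the condition for one element `z` -/
def HR1 (L : Q → Perm Q) (J z : Perm Q) : Prop :=
  ∀ z' ∈ Z L J, z * z' = z' * z → ∀ q, z q = q → z' q = q → z = z'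

namespace AL

/-- elements of `G` that fix `e` and commute with `z` fix `x` -/
theorem fixx (h : AL G L J e) (hJx : J x = x) (hxe : x ≠ e) {g : Perm Q} (hg : g ∈ G)
    (hge : g e = e) (hgz : g * (D L J x * J) = (D L J x * J) * g) : g x = x := by
  have h1 := (h.kp_com (h.zx_mem hJx hxe) (h.zx_e hJx hxe) hg hgz).2
  rw [hge, h.kp_e hJx hxe] at h1
  exact h1.symm

theorem Lpx (h : AL G L J e) (hJx : J x = x) (hxe : x ≠ e) {p : Q}
    (hp : (D L J x * J) p = p) : L p x = L x p := by
  have hz := h.zx_mem hJx hxe
  have hze := h.zx_e hJx hxe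
  have h1 := (h.kp_com hz hze (h.memL p) (h.comL (h.Z_mem hz) hze hp).symm).2
  rw [h.Le, h.kp_e hJx hxe] at h1
  rw [← h1, h.Lx_kp hJx hxe hp]

/-- `L x` commutes with `L p` -/
theorem comLL [Finite Q] (h : AL G L J e) (hJx : J x = x) (hxe : x ≠ e)
    (hr : HR1 L J (D L J x * J)) {p : Q} (hp : (D L J x * J) p = p) :
    L x * L p = L p * L x := by
  classical
  have hz := h.zx_mem hJx hxe
  have hze := h.zx_e hJx hxe
  have hzx := h.zx_x hJx hxe
  have hzG := h.Z_mem hz
  have hLpx := h.Lpx hJx hxe hp
  have hxx := h.LxLx hJx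
  have hkk := (h.pow_kp hJx hxe 1 hp).1
  have hfx := fun (g : Perm Q) (hg : g ∈ G) => h.fixx hJx hxe (g := g) hg
  have hLxk := fun (q : Q) => h.Lx_kp hJx hxe (q := q)
  have hDx : D L J x = (D L J x * J) * J := by rw [mul_assoc, h.JJ1, mul_one]
  set z := D L J x * J with hzdef
  have hLpz : L p * z = z * L p := (h.comL hzG hze hp).symm
  set u := (L x)⁻¹ * (L p)⁻¹ * L x * L p with hu
  have huG : u ∈ G := G.mul_mem (G.mul_mem (G.mul_mem (G.inv_mem (h.memL x))
    (G.inv_mem (h.memL p))) (h.memL x)) (h.memL p)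
  have hufix : ∀ q, z q = q → u q = q := by
    intro q hq
    have h1 := h.kp_com hz hq (h.memL p) hLpz
    have h2 := hLxk _ h1.1
    have h3 := hLxk q hq
    show (L x)⁻¹ ((L p)⁻¹ (L x (L p q))) = q
    rw [h2, h1.2, inv_apply', Perm.inv_eq_iff_eq, h3]
  have hue : u e = e := hufix e hze
  have hux : u x = x := hufix x hzx
  have hup : u p = p := hufix p hp
  have cx : Commute u (L x) := h.comL huG hue hux
  have cp : Commute u (L p) := h.comL huG hue hup
  have hrel : L x * L p = L p * (L x * u) := by rw [hu]; group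
  -- `u ^ 2 = 1`
  have h2G : L x * L x ∈ G := G.mul_mem (h.memL x) (h.memL x)
  have h2e : (L x * L x) e = e := by rw [Perm.mul_apply, h.Le, hxx]
  have h2p : (L x * L x) p = p := by
    rwa [mul_one, pow_two] at hkk
  have h2L := h.comL h2G h2e h2p
  have huu : u * u = 1 := by
    have h3 : L x * L x * L p = L p * (L x * L x) * (u * u) := by
      calc L x * L x * L p = L x * (L x * L p) := by group
        _ = L x * (L p * (L x * u)) := by rw [hrel]
        _ = (L x * L p) * (L x * u) := by group
        _ = L p * (L x * u) * (L x * u) := by rw [hrel]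
        _ = L p * L x * (u * L x) * u := by group
        _ = L p * L x * (L x * u) * u := by rw [cx.eq]
        _ = _ := by group
    rw [h2L] at h3
    exact mul_eq_left.1 h3.symm
  -- powers
  have hpow : ∀ n : ℕ, L x * L p ^ n = L p ^ n * (L x * u ^ n) := by
    intro n
    induction n with
    | zero => simp
    | succ n ih =>
      calc L x * L p ^ (n + 1) = (L x * L p ^ n) * L p := by rw [pow_succ]; group
        _ = L p ^ n * L x * (u ^ n * L p) := by rw [ih]; group
        _ = L p ^ n * L x * (L p * u ^ n) := by rw [(cp.pow_left n).eq]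
        _ = L p ^ n * (L x * L p) * u ^ n := by group
        _ = L p ^ n * (L p * (L x * u)) * u ^ n := by rw [hrel]
        _ = L p ^ (n + 1) * (L x * u ^ (n + 1)) := by rw [pow_succ (L p), pow_succ' u]; group
  have hu1 : u = 1 → L x * L p = L p * L x := by
    intro h3
    rw [hrel, h3, mul_one]
  -- the order of `p`
  have hex : ∃ n : ℕ, 0 < n ∧ (L p ^ n) e = e :=
    ⟨orderOf (L p), orderOf_pos _, by rw [pow_orderOf_eq_one]; rfl⟩
  obtain ⟨hn0, hne⟩ := Nat.find_spec hex
  have hmin := fun m => Nat.find_min hex (m := m)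
  set n := Nat.find hex with hndef
  have hpowG : ∀ m : ℕ, L p ^ m ∈ G := fun m => G.pow_mem (h.memL p) m
  have hpowz : ∀ m : ℕ, L p ^ m * z = z * L p ^ m := by
    intro m
    have c1 : Commute (L p) z := hLpz
    exact (c1.pow_left m).eq
  rcases Nat.even_or_odd' n with ⟨m, hm | hm⟩
  · -- even
    have hm0 : 0 < m := by omega
    set v := (L p ^ m) e with hv
    have hve : v ≠ e := by
      intro h3
      exact hmin m (by omega) ⟨hm0, h3⟩
    have hvz : z v = v := by
      rw [hv, ← Perm.mul_apply, ← hpowz m, Perm.mul_apply, hze]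
    -- `J v = v`
    set c := (J * L p * J) * L p with hc
    have hce : c e = e := by
      change (J * L p * J) (L p e) = e
      rw [h.Le]
      change J (L p (J p)) = e
      rw [h.LJ, h.Je]
    have c1 : Commute (L p) (J * L p * J) := h.comLR p
    have c2 : Commute c (L p) := (c1.symm.mul_left (Commute.refl (L p)))
    have hce' : ∀ j : ℕ, (c ^ j) e = e := by
      intro j
      induction j with
      | zero => rfl
      | succ j ih => rw [pow_succ, Perm.mul_apply, hce, ih]
    have hJv : J v = v := by
      have h3 : J * L p ^ m * J = (J * L p * J) ^ m := by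
        have h4 : J * L p ^ m * J = J * L p ^ m * J⁻¹ := by rw [h.Jinv]
        rw [h4, ← conj_pow, h.Jinv]
      have h4 : J v = (J * L p ^ m * J) e := by
        change J v = J ((L p ^ m) (J e))
        rw [h.Je]
      have h5 : J * L p * J = (L p)⁻¹ * c := by
        rw [← c2.inv_right.eq, hc]; group
      have h6 : ((L p)⁻¹ * c) ^ m = (L p ^ m)⁻¹ * c ^ m := by
        rw [(c2.inv_right.symm).mul_pow, inv_pow]
      rw [h4, h3, h5, h6, Perm.mul_apply, hce', Perm.inv_eq_iff_eq, hv, ← Perm.mul_apply,
        ← pow_add]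
      have h7 : m + m = n := by omega
      rw [h7, hne]
    have hzv := h.zx_mem hJv hve
    have hzve := h.zx_e hJv hve
    have hcom : z * (D L J v * J) = (D L J v * J) * z := by
      have d1 : Commute z (D L J v) := (h.D_cent hzG v).2 hvz
      have d2 : Commute z J := h.comJ z hzG hze
      exact d1.mul_right d2
    have heq := hr _ hzv hcom e hze hzve
    have hxv : v = x := by
      apply h.D_inj
      rw [hDx, heq, mul_assoc, h.JJ1, mul_one]
    -- `L x` and `L p ^ m`
    set g := (L x)⁻¹ * L p ^ m with hg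
    have hgG : g ∈ G := G.mul_mem (G.inv_mem (h.memL x)) (hpowG m)
    have hge : g e = e := by
      rw [hg, Perm.mul_apply, ← hv, hxv, Perm.inv_eq_iff_eq, h.Le]
    have hgp : g p = p := by
      have h3 : (L p ^ m) p = L p v := by
        have h4 : (L p ^ m) (L p e) = L p ((L p ^ m) e) := by
          rw [← Perm.mul_apply, ← pow_succ, pow_succ', Perm.mul_apply]
        rw [h.Le] at h4
        rw [h4]
      rw [hg, Perm.mul_apply, h3, hxv, hLpx, inv_apply']
    have hgL : Commute g (L p) := h.comL hgG hge hgp
    have h3 : L x = L p ^ m * g⁻¹ := by rw [hg]; group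
    have h4 : Commute (L x) (L p) := by
      rw [h3]
      exact (Commute.pow_left (Commute.refl (L p)) m).mul_left hgL.inv_left
    exact h4
  · -- odd
    have h3 : (L p ^ n) x = x := hfx _ (hpowG n) hne (hpowz n)
    have h4 : Commute (L p ^ n) (L x) := h.comL (hpowG n) hne h3
    have h5 := hpow n
    rw [← h4.eq] at h5
    have h6 : u ^ n = 1 := by
      have h7 : L p ^ n * L x * 1 = L p ^ n * L x * u ^ n := by
        rw [← mul_assoc] at h5
        rw [mul_one]; exact h5
      exact (mul_left_cancel h7).symm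
    apply hu1
    rw [hm, pow_succ, pow_mul, pow_two, huu, one_pow, one_mul] at h6
    exact h6

/-- `L x` is central in the centraliser of `z` -/
theorem Lx_central [Finite Q] (h : AL G L J e) (hJx : J x = x) (hxe : x ≠ e)
    (hr : HR1 L J (D L J x * J)) {g : Perm Q} (hg : g ∈ G)
    (hgz : g * (D L J x * J) = (D L J x * J) * g) : g * L x = L x * g := by
  have hz := h.zx_mem hJx hxe
  have hze := h.zx_e hJx hxe
  have hzG := h.Z_mem hz
  set a := g e with ha
  have haz : (D L J x * J) a = a := by
    rw [ha, ← Perm.mul_apply, ← hgz, Perm.mul_apply, hze]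
  obtain ⟨hk, hke⟩ := h.fix_part hg
  rw [← ha] at hk hke
  have c1 : Commute (D L J x * J) (L a) := h.comL hzG hze haz
  have c2 : Commute g (D L J x * J) := hgz
  have c3 : Commute ((L a)⁻¹ * g) (D L J x * J) := c1.symm.inv_left.mul_left c2
  have hkx := h.fixx hJx hxe hk hke c3
  have c4 : Commute ((L a)⁻¹ * g) (L x) := h.comL hk hke hkx
  have c5 : Commute (L a) (L x) := (h.comLL hJx hxe hr haz).symm
  have h1 : g = L a * ((L a)⁻¹ * g) := by group
  have c6 : Commute g (L x) := by
    rw [h1]; exact c5.mul_left c4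
  exact c6

/-- different elements of `Z` do not commute -/
theorem isolated [Finite Q] (h : AL G L J e) (hJx : J x = x) (hxe : x ≠ e)
    (hr : HR L J) {y : Perm Q} (hy : y ∈ Z L J)
    (hyz : y * (D L J x * J) = (D L J x * J) * y) : y = D L J x * J := by
  have hzZ := h.zx_mem hJx hxe
  have hyG := h.Z_mem hy
  have hyL := h.Lx_central hJx hxe (fun z' hz' hc q hq hq' => hr _ hzZ z' hz' hc q hq hq') hyG hyz
  have hR := h.zt_eq (x := x) hJx
  set z := D L J x * J with hz
  obtain ⟨q, hq⟩ : ∃ q, y q = q := by
    have hyG' := hyG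
    obtain ⟨p, r, hne, hc, rfl⟩ := hy
    refine ⟨p, ?_⟩
    rw [← h.D_cent hyG']
    calc D L J p * D L J r * D L J p = D L J p * (D L J r * D L J p) := by group
      _ = D L J p * (D L J p * D L J r) := by rw [hc]
  -- an element `r` commuting with `y` and moving `q` to a commuting point
  have key : ∀ r : Perm Q, y * r = r * y → (r q ≠ q ∧
      D L J (r q) * D L J q = D L J q * D L J (r q)) → y = D L J (r q) * D L J q := by
    intro r hr' hadj
    have hwZ : D L J (r q) * D L J q ∈ Z L J := ⟨r q, q, hadj.1, hadj.2, rfl⟩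
    have hyr : y (r q) = r q := by rw [← Perm.mul_apply, hr', Perm.mul_apply, hq]
    have c1 := (h.D_cent hyG (r q)).2 hyr
    have c2 := (h.D_cent hyG q).2 hq
    have hwq : (D L J (r q) * D L J q) q = q := by
      rw [← h.D_cent (h.Z_mem hwZ)]
      calc D L J (r q) * D L J q * D L J q = (D L J (r q) * D L J q) * D L J q := rfl
        _ = D L J q * D L J (r q) * D L J q := by rw [hadj.2]
        _ = _ := by group
    refine hr y hy _ hwZ ?_ q hq hwq
    rw [← mul_assoc, c1, mul_assoc, c2, ← mul_assoc]
  have k1 := key (L x) hyL (h.adjL hJx hxe q)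
  have hyR : y * (J * L x * J) = (J * L x * J) * y := by
    rw [hR, ← mul_assoc, hyz, mul_assoc, hyL, ← mul_assoc]
  have k2 := key (J * L x * J) hyR (h.adjR hJx hxe q)
  have k3 : D L J (L x q) = D L J ((J * L x * J) q) :=
    mul_right_cancel (k1.symm.trans k2)
  have k4 : L x q = z (L x q) := by
    have := h.D_inj k3
    rwa [hR, Perm.mul_apply] at this
  have hyLq : y (L x q) = L x q := by rw [← Perm.mul_apply, hyL, Perm.mul_apply, hq]
  exact hr y hy z hzZ hyz (L x q) hyLq k4.symm

end AL

end ALoop
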