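import Pool.Agent.H4.FD.LemC
import Pool.Agent.H4.IS.Iso

set_option autoImplicit false

/-!
The local form of the lemmas of `LemC`: the congruence is assumed for the fixed points of `z` only.
-/

namespace ALoop

open Equiv

variable {Q : Type*} {G : Subgroup (Perm Q)} {L : Q → Perm Q} {J : Perm Q} {e : Q}

namespace AL

theorem kp_no_swap1 [Finite Q] (h : AL G L J e) {z : Perm Q}
    (hcard : Nat.card {x : Q // z x = x} % 4 = 2)
    (hz : z ∈ Z L J) (hze : z e = e) {s : Perm Q} (hs : s ∈ G) (hse : s e = e)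
    (hsz : s * z = z * s) {n : ℕ} (hn : s ^ 2 ^ n = 1) {a : Q} (ha : z a = a) :
    s a ≠ kp L J z a := by
  intro hcon
  have hzG := h.Z_mem hz
  have hLz : ∀ b : Q, z b = b → L b * z = z * L b := fun b hb => (h.comL hzG hze hb).symm
  have hRz : ∀ b : Q, z b = b → (J * L (J b) * J) * z = z * (J * L (J b) * J) :=
    fun b hb => (h.comR hzG hze hb).symm
  have key := no_swap (X := {x : Q // z x = x})
    (fun x => ⟨kp L J z x, h.kp_fix hz x.2⟩)
    (fun x => Subtype.ext (h.kp_kp hz x.2))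
    (fun x hx => h.kp_ne hz x.2 (congrArg Subtype.val hx))
    (rest z s hsz)
    (fun x => Subtype.ext (h.kp_com hz x.2 hs hsz).2.symm)
    (rest_pow z s hsz hn)
    hcard
    (fun a b => ⟨L a b, (h.kp_com hz b.2 (h.memL a) (hLz a a.2)).1⟩)
    (fun a x y hxy => Subtype.ext ((L a).injective (congrArg Subtype.val hxy)))
    (fun a b => Subtype.ext (h.kp_com hz b.2 (h.memL a) (hLz a a.2)).2.symm)
    (by
      intro a b
      apply Subtype.ext
      have h1 := h.kp_com hz a.2 (h.memR b) (hRz b b.2)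
      rw [h.R_apply, h.R_apply] at h1
      exact h1.2.symm)
    (by
      intro a b
      apply Subtype.ext
      exact h.aut hs hse _ _)
    ⟨a, ha⟩
  exact key (Subtype.ext hcon)

theorem Z_unique_e1 [Finite Q] (h : AL G L J e) {z z' : Perm Q}
    (hcard : Nat.card {x : Q // z x = x} % 4 = 2)
    (hz : z ∈ Z L J) (hz' : z' ∈ Z L J) (hc : z * z' = z' * z) (hq : z e = e) (hq' : z' e = e) :
    z = z' := by
  by_contra hne
  have hzG := h.Z_mem hz
  have hzG' := h.Z_mem hz'
  have hpow : z' ^ 2 ^ 1 = 1 := by rw [pow_one, pow_two, h.Z_sq hz']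
  refine no_two (X := {x : Q // z x = x})
    (fun x => ⟨kp L J z x, h.kp_fix hz x.2⟩)
    (fun x => Subtype.ext (h.kp_kp hz x.2))
    (fun x hx => h.kp_ne hz x.2 (congrArg Subtype.val hx))
    (rest z z' hc.symm)
    (fun x => Subtype.ext (h.kp_com hz x.2 hzG' hc.symm).2.symm)
    (rest_pow z z' hc.symm hpow)
    hcard
    (fun x hx => h.kp_no_swap1 hcard hz hq hzG' hq' hc.symm hpow x.2 (congrArg Subtype.val hx))
    ?_
  have h1 : Nat.card {x : {x : Q // z x = x} // rest z z' hc.symm x = x} =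
      Nat.card {x : Q // z x = x ∧ z' x = x} := by
    apply Nat.card_congr
    exact
      { toFun := fun x => ⟨x.1.1, x.1.2, congrArg Subtype.val x.2⟩
        invFun := fun x => ⟨⟨x.1, x.2.1⟩, Subtype.ext x.2.2⟩
        left_inv := fun _ => rfl
        right_inv := fun _ => rfl }
  rw [h1]
  have hA : ∀ x : Q, z x = x → z' x = x → z' (kp L J z x) = kp L J z x := by
    intro x hx hx'
    have := (h.kp_com hz hx hzG' hc.symm).2
    rw [hx'] at this
    exact this.symm
  have hB : ∀ x : Q, z x = x → z' x = x → z (kp L J z' x) = kp L J z' x := by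
    intro x hx hx'
    have := (h.kp_com hz' hx' hzG hc).2
    rw [hx] at this
    exact this.symm
  refine four_dvd_card (X := {x : Q // z x = x ∧ z' x = x})
    (fun x => ⟨kp L J z x, h.kp_fix hz x.2.1, hA x x.2.1 x.2.2⟩)
    (fun x => ⟨kp L J z' x, hB x x.2.1 x.2.2, h.kp_fix hz' x.2.2⟩)
    (fun x => Subtype.ext (h.kp_kp hz x.2.1))
    (fun x hx => h.kp_ne hz x.2.1 (congrArg Subtype.val hx))
    (fun x => Subtype.ext (h.kp_kp hz' x.2.2))
    (fun x hx => h.kp_ne hz' x.2.2 (congrArg Subtype.val hx))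
    ?_ ?_
  · intro x
    apply Subtype.ext
    apply h.D_inj
    change D L J (kp L J z' (kp L J z x)) = D L J (kp L J z (kp L J z' x))
    rw [h.kp_spec hz' (hA x x.2.1 x.2.2), h.kp_spec hz x.2.1,
      h.kp_spec hz (hB x x.2.1 x.2.2), h.kp_spec hz' x.2.2, mul_assoc, mul_assoc, hc]
  · intro x hx
    have h2 : kp L J z (kp L J z' x) = x := congrArg Subtype.val hx
    have h3 := h.kp_spec hz (hB x x.2.1 x.2.2)
    rw [h2, h.kp_spec hz' x.2.2, mul_assoc] at h3
    have h4 : z' * z = 1 := mul_eq_left.1 h3.symm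
    apply hne
    calc z = (z' * z') * z := by rw [h.Z_sq hz', one_mul]
      _ = z' * (z' * z) := by group
      _ = z' := by rw [h4, mul_one]

theorem card_fix_conj (z g : Perm Q) :
    Nat.card {x : Q // (g * z * g⁻¹) x = x} = Nat.card {x : Q // z x = x} := by
  apply Nat.card_congr
  exact
    { toFun := fun x => ⟨g⁻¹ x, by
        have := x.2
        rw [Perm.mul_apply, Perm.mul_apply] at this
        rw [Perm.eq_inv_iff_eq]; exact this⟩
      invFun := fun x => ⟨g x, by
        rw [Perm.mul_apply, Perm.mul_apply, inv_apply', x.2]⟩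
      left_inv := fun x => Subtype.ext (apply_inv' _ _)
      right_inv := fun x => Subtype.ext (inv_apply' _ _) }

/-- if `z` has `2` modulo `4` fixed points then `HR1` -/
theorem HR1_of_card [Finite Q] (h : AL G L J e) {z : Perm Q}
    (hcard : Nat.card {x : Q // z x = x} % 4 = 2) (hz : z ∈ Z L J) : HR1 L J z := by
  intro z' hz' hc q hq hq'
  obtain ⟨g, hg, hgq⟩ := h.exists_map q e
  have h1 : g⁻¹ e = q := by rw [Perm.inv_eq_iff_eq, hgq]
  have h2 := h.Z_unique_e1 (by rw [card_fix_conj]; exact hcard) (h.Z_conj hz hg)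
    (h.Z_conj hz' hg) (by
    calc g * z * g⁻¹ * (g * z' * g⁻¹) = g * (z * z') * g⁻¹ := by group
      _ = g * (z' * z) * g⁻¹ := by rw [hc]
      _ = _ := by group) (by
    rw [Perm.mul_apply, Perm.mul_apply, h1, hq, hgq]) (by
    rw [Perm.mul_apply, Perm.mul_apply, h1, hq', hgq])
  calc z = g⁻¹ * (g * z * g⁻¹) * g := by group
    _ = g⁻¹ * (g * z' * g⁻¹) * g := by rw [h2]
    _ = z' := by group

end AL

end ALoop
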