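import Pool.Agent.H4.IS.Gen
import Pool.Agent.H98.IS.SylExt
import Pool.Agent.H98.IS.NormLe

set_option autoImplicit false

/-!
(4): the abelian Sylow 2-subgroup `T` of `G`.
-/

namespace ALoop

open Equiv

variable {Q : Type*} {G : Subgroup (Perm Q)} {L : Q → Perm Q} {J : Perm Q} {e : Q}
  {S : Subgroup (Perm Q)}

namespace AL

theorem exists_TD [Finite Q] (h : AL G L J e) (hcard : 2 ∣ Nat.card Q) (hr : HR L J)
    (hS : IsSyl (Inn G e) S) (hab : ∀ a ∈ S, ∀ b ∈ S, a * b = b * a) :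
    ∃ T x, TD G L J e S T x := by
  obtain ⟨x, hxe, hJx, hx⟩ := h.exists_x2 hcard hS
  have hpos : 0 < Nat.card (Fx S) := by
    have : Nonempty (Fx S) := ⟨eb hS⟩
    exact Nat.card_pos
  obtain ⟨k, m, hm, hkm⟩ := Nat.exists_eq_two_pow_mul_odd hpos.ne'
  have hk1 : 2 ^ k ∣ Nat.card (Fx S) := ⟨m, hkm⟩
  have hk2 : ¬ 2 ^ (k + 1) ∣ Nat.card (Fx S) := by
    intro h1
    rw [hkm, pow_succ] at h1
    have h2 := Nat.dvd_of_mul_dvd_mul_left (by positivity) h1
    rw [← even_iff_two_dvd] at h2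
    exact (Nat.not_even_iff_odd.2 hm) h2
  obtain ⟨t, htG, hSt, hts, hte, hJt⟩ := h.exists_t hr hS hx hJx hxe hk1
  set T := Tgrp S t hSt with hT
  have hST : S ≤ T := le_Tgrp
  have hTc : Nat.card T = 2 ^ k * Nat.card S := card_Tgrp (by positivity) hts
  have hTG : T ≤ G := by
    rintro p ⟨a, ha⟩
    have h1 : p = (p * t ^ a) * (t ^ a)⁻¹ := by group
    rw [h1]
    exact G.mul_mem (hS.1 ha).1 (G.inv_mem (G.zpow_mem htG a))
  have hT2 : IsPGroup 2 T := by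
    have : Fact (Nat.Prime 2) := ⟨Nat.prime_two⟩
    have hS2 := hS.2.1
    rw [IsPGroup.iff_card] at hS2 ⊢
    obtain ⟨n, hn⟩ := hS2
    exact ⟨k + n, by rw [hTc, hn, pow_add]⟩
  have hTab : ∀ a ∈ T, ∀ b ∈ T, a * b = b * a := Tgrp_comm hab
  have hTH : ∀ p ∈ T, p e = e → p ∈ S := by
    rintro p ⟨a, ha⟩ hpe
    have h1 : (p * t ^ a) e = e := (hS.1 ha).2
    have h2 : (t ^ a) e = e := by
      apply p.injective
      rw [hpe, ← Perm.mul_apply, h1]
    have h3 := hte a h2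
    have h4 : p = (p * t ^ a) * (t ^ a)⁻¹ := by group
    rw [h4]
    exact S.mul_mem ha (S.inv_mem h3)
  have hJtT : J * t * J ∈ T := ⟨1, by rw [zpow_one]; exact hJt⟩
  have hJS : ∀ s ∈ S, J * s * J = s := by
    intro s hs
    rw [← h.S_J hS s hs, mul_assoc, h.JJ1, mul_one]
  have hJT : ∀ p ∈ T, J * p * J ∈ T := by
    rintro p ⟨a, ha⟩
    have h1 : p = (p * t ^ a) * t ^ (-a) := by group
    have h2 : J * t ^ (-a) * J = (J * t * J) ^ (-a) := by
      have h3 : J * t ^ (-a) * J = J * t ^ (-a) * J⁻¹ := by rw [h.Jinv]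
      rw [h3, ← conj_zpow, h.Jinv]
    rw [h1, h.Jmul, hJS _ ha, h2]
    exact T.mul_mem (hST ha) (T.zpow_mem hJtT _)
  refine ⟨T, x, hr, hS, ?_, hST, hTab, hJx, hxe, hx⟩
  apply syl_ext G T S J h.JJ1 h.JG (h.J_not_mem hJx hxe) hTG hT2 hTab hJT
  · intro p
    constructor
    · intro hp
      exact ⟨hST hp, (h.S_J hS p hp).symm⟩
    · rintro ⟨hp, hpJ⟩
      exact hTH p hp (h.centJ (hTG hp) hpJ.symm)
  · intro K hKG hK2 hTK hKS
    exact norm_le hS (fun p hp => ⟨L p, h.memL p, h.S_L hS hp, h.Le p⟩) hTc hk2 hKG hK2 hTK hKS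

/-- two commuting involutions -/
theorem exists_invol (h : AL G L J e) (hr : ¬ HR L J) :
    ∃ x y, x ≠ e ∧ y ≠ e ∧ x ≠ y ∧ L x x = e ∧ L y y = e ∧ L x y = L y x := by
  unfold HR at hr
  push Not at hr
  obtain ⟨z, hz, z', hz', hzz, q, hq, hq', hne⟩ := hr
  obtain ⟨g, hg, hgq⟩ := h.exists_map q e
  have h1 : g⁻¹ e = q := by rw [Perm.inv_eq_iff_eq, hgq]
  set w := g * z * g⁻¹ with hw
  set w' := g * z' * g⁻¹ with hw'
  have hwZ := h.Z_conj hz hg
  have hwZ' := h.Z_conj hz' hg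
  rw [← hw] at hwZ
  rw [← hw'] at hwZ'
  have hwe : w e = e := by rw [hw, Perm.mul_apply, Perm.mul_apply, h1, hq, hgq]
  have hwe' : w' e = e := by rw [hw', Perm.mul_apply, Perm.mul_apply, h1, hq', hgq]
  have hww : w * w' = w' * w := by
    calc g * z * g⁻¹ * (g * z' * g⁻¹) = g * (z * z') * g⁻¹ := by group
      _ = g * (z' * z) * g⁻¹ := by rw [hzz]
      _ = g * z' * g⁻¹ * (g * z * g⁻¹) := by group
  have hwne : w ≠ w' := by
    intro h2
    apply hne
    calc z = g⁻¹ * (g * z * g⁻¹) * g := by group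
      _ = g⁻¹ * (g * z' * g⁻¹) * g := by rw [← hw, h2]
      _ = z' := by group
  have hwG := h.Z_mem hwZ
  have hwG' := h.Z_mem hwZ'
  -- the partner of `e`
  have key : ∀ v ∈ Z L J, v e = e → ∃ s, s ≠ e ∧ J s = s ∧ D L J s = J * v := by
    intro v hv hve
    obtain ⟨s, hse, hs⟩ := h.Z_part hv hve
    rw [h.D_e] at hs
    refine ⟨s, hse, ?_, hs⟩
    have h2 := h.D_J s
    rw [hs] at h2
    have h3 := h.comJ v (h.Z_mem hv) hve
    apply h.D_inj
    rw [← h2, hs]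
    calc J * (J * v) * J = (J * J) * (v * J) := by group
      _ = J * v := by rw [h.JJ1, one_mul, h3]
  obtain ⟨x, hxe, hJx, hDx⟩ := key w hwZ hwe
  obtain ⟨y, hye, hJy, hDy⟩ := key w' hwZ' hwe'
  have hzx : D L J x * J = w := by
    rw [h.Dx_J hJx, hDx, ← mul_assoc, h.JJ1, one_mul]
  refine ⟨x, y, hxe, hye, ?_, h.LxLx hJx, h.LxLx hJy, ?_⟩
  · intro h2
    apply hwne
    rw [h2, hDy] at hDx
    exact (mul_left_cancel hDx).symm
  · -- `w` fixes `y`
    have h2 : w y = y := by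
      rw [← h.D_cent hwG, hDy]
      have h3 := h.comJ w hwG hwe
      calc w * (J * w') = (w * J) * w' := by group
        _ = J * (w * w') := by rw [h3]; group
        _ = J * w' * w := by rw [hww]; group
    have h4 := h.R_apply y x
    rw [hJx, h.zt_eq hJx, h.Lx_z hJx hxe, Perm.mul_apply, hzx, h2] at h4
    exact h4

end AL

end ALoop
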