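import Pool.Agent.H4.FD.Conj
import Pool.Agent.H4.FD.Pgrp

set_option autoImplicit false

/-!
Loops of odd inner type: the group `G` acts transitively, the elements of `G` that fix `e` have odd
order, and left translations by fixed points of `J` are central. Then there is a central subgroup whose
order is the full power of two in the order of the loop.
-/

namespace ALoop

open Equiv

/-- working data on the fixed point set of a Sylow subgroup -/
structure OM {F : Type*} (G : Subgroup (Perm F)) (L : F → Perm F) (J : Perm F) (e : F) :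
    Prop where
  memL : ∀ q, L q ∈ G
  Le : ∀ q, L q e = q
  Je : J e = e
  JJ : ∀ q, J (J q) = q
  LJ : ∀ q, L q (J q) = e
  aaip : ∀ p q, J (L p q) = L (J q) (J p)
  equi : ∀ g ∈ G, g e = e → ∀ q, g * L q * g⁻¹ = L (g q)
  comJ : ∀ g ∈ G, g e = e → g * J = J * g
  JG : ∀ g ∈ G, J * g * J ∈ G
  odd : ∀ g ∈ G, g e = e → ∃ r, Odd r ∧ g ^ r = 1
  fixJ : ∀ q, J q = q → ∀ g ∈ G, g * L q = L q * g

namespace OM

variable {F : Type*} {G : Subgroup (Perm F)} {L : F → Perm F} {J : Perm F} {e : F}

theorem JJ1 (h : OM G L J e) : J * J = 1 := by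
  ext q; exact h.JJ q

theorem Jinv (h : OM G L J e) : J⁻¹ = J := inv_eq_of_mul_eq_one_left h.JJ1

theorem Jmul (h : OM G L J e) (a b : Perm F) :
    J * (a * b) * J = (J * a * J) * (J * b * J) := by
  have h1 := h.JJ1
  calc J * (a * b) * J = J * a * 1 * b * J := by group
    _ = J * a * (J * J) * b * J := by rw [h1]
    _ = (J * a * J) * (J * b * J) := by group

theorem Jmulinv (h : OM G L J e) (a : Perm F) : (J * a * J)⁻¹ = J * a⁻¹ * J := by
  have h1 := h.Jinv
  rw [mul_inv_rev, mul_inv_rev, h1]; group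

theorem R_apply (h : OM G L J e) (p y : F) : (J * L (J y) * J) p = L p y := by
  have := h.aaip (J y) (J p)
  rw [h.JJ, h.JJ] at this
  simpa using this

theorem Le1 (h : OM G L J e) : L e = 1 := by
  ext q
  have := h.aaip (J q) e
  rw [h.Le, h.JJ, h.Je] at this
  simpa using this.symm

theorem memR (h : OM G L J e) (y : F) : J * L (J y) * J ∈ G := h.JG _ (h.memL _)

theorem conjJ (h : OM G L J e) {g : Perm F} (hg : g ∈ G) :
    g * J * g⁻¹ = D L J (g e) := by
  have h1 : (L (g e))⁻¹ * g ∈ G := G.mul_mem (G.inv_mem (h.memL _)) hg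
  have h2 : ((L (g e))⁻¹ * g) e = e := by
    rw [Perm.mul_apply, Perm.inv_eq_iff_eq]
    exact (h.Le _).symm
  have h3 := h.comJ _ h1 h2
  have h4 : g = L (g e) * ((L (g e))⁻¹ * g) := by group
  unfold D
  set u := (L (g e))⁻¹ * g with hu
  calc g * J * g⁻¹ = (L (g e) * u) * J * (L (g e) * u)⁻¹ := by rw [← h4]
    _ = L (g e) * (u * J) * u⁻¹ * (L (g e))⁻¹ := by group
    _ = L (g e) * J * (L (g e))⁻¹ := by rw [h3]; group

theorem D_conj (h : OM G L J e) {g : Perm F} (hg : g ∈ G) (q : F) :
    g * D L J q * g⁻¹ = D L J (g q) := by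
  have h1 := h.conjJ (G.mul_mem hg (h.memL q))
  rw [Perm.mul_apply, h.Le] at h1
  rw [← h1]
  unfold D
  group

theorem D_e (h : OM G L J e) : D L J e = J := by
  unfold D; rw [h.Le1]; group

theorem D_sq (h : OM G L J e) (q : F) : D L J q * D L J q = 1 := by
  unfold D
  calc L q * J * (L q)⁻¹ * (L q * J * (L q)⁻¹) = L q * (J * J) * (L q)⁻¹ := by group
    _ = 1 := by rw [h.JJ1]; group

theorem D_self (h : OM G L J e) (q : F) : D L J q q = q := by
  unfold D
  have h1 : (L q)⁻¹ q = e := by rw [Perm.inv_eq_iff_eq, h.Le]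
  rw [Perm.mul_apply, Perm.mul_apply, h1, h.Je, h.Le]

theorem Linv_e (h : OM G L J e) (q : F) : (L q)⁻¹ e = J q := by
  rw [Perm.inv_eq_iff_eq, h.LJ]

theorem D_app_e (h : OM G L J e) (q : F) : D L J q e = L q q := by
  unfold D
  rw [Perm.mul_apply, Perm.mul_apply, h.Linv_e, h.JJ]

theorem D_J (h : OM G L J e) (q : F) : J * D L J q * J = D L J (J q) := by
  have hg := h.JG _ (h.memL q)
  have h1 := h.D_conj hg e
  rw [h.D_e] at h1
  have h2 : (J * L q * J) e = J q := by
    rw [Perm.mul_apply, Perm.mul_apply, h.Je, h.Le]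
  rw [h2] at h1
  rw [← h1]
  unfold D
  have h3 : J * J * J = J := by rw [h.JJ1, one_mul]
  rw [h.Jmul, h.Jmul, h.Jmulinv, h3]

theorem PqG (h : OM G L J e) (q : F) : D L J q * J ∈ G := by
  have h1 : D L J q * J = L q * (J * (L q)⁻¹ * J) := by unfold D; group
  rw [h1]
  exact G.mul_mem (h.memL q) (h.JG _ (G.inv_mem (h.memL q)))

/-- `G` is transitive -/
theorem exists_map (h : OM G L J e) (p q : F) : ∃ g ∈ G, g p = q := by
  refine ⟨L q * (L p)⁻¹, G.mul_mem (h.memL q) (G.inv_mem (h.memL p)), ?_⟩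
  have h1 : (L p)⁻¹ p = e := by rw [Perm.inv_eq_iff_eq, h.Le]
  rw [Perm.mul_apply, h1, h.Le]

theorem cent_ext (h : OM G L J e) {c d : Perm F} (hc : ∀ g ∈ G, g * c = c * g)
    (hd : ∀ g ∈ G, g * d = d * g) {p : F} (hp : c p = d p) : c = d := by
  ext q
  obtain ⟨g, hg, hgp⟩ := h.exists_map p q
  have h1 := congrArg (fun f : Perm F => f p) (hc g hg)
  have h2 := congrArg (fun f : Perm F => f p) (hd g hg)
  simp only [Perm.mul_apply] at h1 h2
  rw [hgp] at h1 h2
  rw [← h1, ← h2, hp]

theorem cent_J (h : OM G L J e) {c : Perm F} (hc : ∀ g ∈ G, g * c = c * g) :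
    ∀ g ∈ G, g * (J * c * J) = (J * c * J) * g := by
  intro g hg
  have h1 := hc _ (h.JG g hg)
  have h2 := h.JJ1
  calc g * (J * c * J) = (J * J) * g * (J * c * J) := by rw [h2]; group
    _ = J * ((J * g * J) * c) * J := by group
    _ = J * (c * (J * g * J)) * J := by rw [h1]
    _ = J * c * J * g * (J * J) := by group
    _ = (J * c * J) * g := by rw [h2, mul_one]

theorem cent_inv {c : Perm F} (hc : ∀ g ∈ G, g * c = c * g) :
    ∀ g ∈ G, g * c⁻¹ = c⁻¹ * g := by
  intro g hg
  have h1 : Commute g c := hc g hg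
  exact h1.inv_right

theorem cent_zpow {c : Perm F} (hc : ∀ g ∈ G, g * c = c * g) (j : ℤ) :
    ∀ g ∈ G, g * c ^ j = c ^ j * g := by
  intro g hg
  have h1 : Commute g c := hc g hg
  exact h1.zpow_right j

theorem JcJ (h : OM G L J e) {c : Perm F} (hc : ∀ g ∈ G, g * c = c * g) :
    J * c * J = c⁻¹ := by
  apply h.cent_ext (h.cent_J hc) (cent_inv hc) (p := e)
  rw [Perm.mul_apply, Perm.mul_apply, h.Je, Perm.eq_inv_iff_eq]
  -- `c (J (c e)) = e`
  set b := c e with hb
  have h1 := congrArg (fun f : Perm F => f e) (hc _ (h.memL (J b)))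
  simp only [Perm.mul_apply] at h1
  rw [← hb, h.Le] at h1
  rw [← h1]
  have h2 := h.LJ (J b)
  rwa [h.JJ] at h2

theorem JcJ_zpow (h : OM G L J e) {c : Perm F} (hc : ∀ g ∈ G, g * c = c * g) (j : ℤ) :
    J * c ^ j * J = c ^ (-j) := by
  have h1 : J * c ^ j * J = J * c ^ j * J⁻¹ := by rw [h.Jinv]
  rw [h1, ← conj_zpow, h.Jinv, h.JcJ hc, inv_zpow, zpow_neg]

/-- elements of `G` with a fixed point and square one are trivial -/
theorem triv (h : OM G L J e) {g : Perm F} (hg : g ∈ G) {q : F} (hq : g q = q)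
    (h2 : g * g = 1) : g = 1 := by
  have h3 : (L q)⁻¹ * g * L q ∈ G :=
    G.mul_mem (G.mul_mem (G.inv_mem (h.memL q)) hg) (h.memL q)
  have h4 : ((L q)⁻¹ * g * L q) e = e := by
    rw [Perm.mul_apply, Perm.mul_apply, h.Le, hq, Perm.inv_eq_iff_eq, h.Le]
  obtain ⟨r, hr, hr1⟩ := h.odd _ h3 h4
  obtain ⟨k, hk⟩ := hr
  have h5 : ((L q)⁻¹ * g * L q) * ((L q)⁻¹ * g * L q) = 1 := by
    calc ((L q)⁻¹ * g * L q) * ((L q)⁻¹ * g * L q) = (L q)⁻¹ * (g * g) * L q := by group
      _ = 1 := by rw [h2]; group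
  rw [hk, pow_succ, pow_mul, pow_two, h5, one_pow, one_mul] at hr1
  calc g = L q * ((L q)⁻¹ * g * L q) * (L q)⁻¹ := by group
    _ = 1 := by rw [hr1]; group

/-- the kernel of `D` -/
theorem D_ker (h : OM G L J e) {p q : F} (hpq : D L J p = D L J q) :
    ∃ r, (∀ g ∈ G, g * L r = L r * g) ∧ L r * L r = 1 ∧ q = L r p := by
  have h1 : L p ((L p)⁻¹ q) = q := apply_inv' _ _
  have h2 : D L J ((L p)⁻¹ q) = J := by
    rw [← h.D_conj (G.inv_mem (h.memL p)), ← hpq]
    unfold D; group
  have h3 := h.D_self ((L p)⁻¹ q)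
  rw [h2] at h3
  set r := (L p)⁻¹ q with hr
  have hc := h.fixJ r h3
  refine ⟨r, hc, ?_, ?_⟩
  · apply h.cent_ext (p := e)
    · intro g hg
      rw [← mul_assoc, hc g hg, mul_assoc, hc g hg, mul_assoc]
    · intro g _; rw [mul_one, one_mul]
    · rw [Perm.mul_apply, h.Le, Perm.one_apply]
      have := h.LJ r
      rwa [h3] at this
  · rw [← h1]
    have h4 := congrArg (fun f : Perm F => f e) (hc _ (h.memL p))
    simp only [Perm.mul_apply] at h4
    rw [h.Le, h.Le] at h4
    exact h4

/-- an element of `G` that fixes `e` and moves a point `p` in its class is of square one there -/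
theorem sq_of (h : OM G L J e) {g : Perm F} (hg : g ∈ G) {p : F}
    (hp : D L J (g p) = D L J p) : g (g p) = p := by
  obtain ⟨r, hrc, hr2, hr⟩ := h.D_ker hp.symm
  have h2 := congrArg (fun f : Perm F => f p) (hrc g hg)
  simp only [Perm.mul_apply] at h2
  rw [hr, h2, hr, ← Perm.mul_apply, hr2, Perm.one_apply]

theorem triv_of (h : OM G L J e) {g : Perm F} (hg : g ∈ G) (hge : g e = e)
    (hD : ∀ p, D L J (g p) = D L J p) : g = 1 := by
  apply h.triv hg hge
  ext p
  exact h.sq_of hg (hD p)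

/-- the step -/
theorem step (h : OM G L J e) {z : Perm F} (hzG : z ∈ G) (hb : ∀ g ∈ G, g * z = z * g) {q : F}
    {j : ℤ} (hq : J q = (z ^ j) q) :
    (∀ g ∈ G, g * L q = L q * g) ∧ L q * L q = z ^ (-j) := by
  have hzj := cent_zpow hb j
  have hzn := cent_zpow hb (-j)
  have hJz := h.JcJ_zpow hb
  -- `D q = z ^ (-j) * J`
  have hDJ : D L J (J q) = z ^ (2 * j) * D L J q := by
    rw [hq, ← h.D_conj (G.zpow_mem hzG j)]
    have h1 : D L J q * z ^ (-j) * D L J q = z ^ j := by
      unfold D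
      have h2 := hJz (-j)
      rw [neg_neg] at h2
      have h3 := hzn _ (h.memL q)
      have h4 := hzj _ (h.memL q)
      calc L q * J * (L q)⁻¹ * z ^ (-j) * (L q * J * (L q)⁻¹)
          = L q * J * (L q)⁻¹ * (z ^ (-j) * L q) * J * (L q)⁻¹ := by group
        _ = L q * J * (L q)⁻¹ * (L q * z ^ (-j)) * J * (L q)⁻¹ := by rw [h3]
        _ = L q * (J * z ^ (-j) * J) * (L q)⁻¹ := by group
        _ = z ^ j := by rw [h2, h4]; group
    calc z ^ j * D L J q * (z ^ j)⁻¹ = z ^ j * (D L J q * z ^ (-j) * (D L J q * D L J q)) := by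
          rw [h.D_sq]; group
      _ = z ^ j * (D L J q * z ^ (-j) * D L J q) * D L J q := by group
      _ = z ^ (2 * j) * D L J q := by rw [h1]; group
  have hP : z ^ j * (D L J q * J) = 1 := by
    apply h.triv (G.mul_mem (G.zpow_mem hzG j) (h.PqG q)) (q := q)
    · rw [Perm.mul_apply, Perm.mul_apply, hq]
      have h1 := congrArg (fun f : Perm F => f q) (hzj _ (h.PqG q))
      have h2 : z ^ j * (D L J q * J) = (D L J q * J) * z ^ j := (hzj _ (h.PqG q)).symm
      have h3 : (z ^ j) ((D L J q) ((z ^ j) q)) = (z ^ j * (D L J q * J)) q := by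
        rw [Perm.mul_apply, Perm.mul_apply, hq]
      rw [h3, h2, Perm.mul_apply, Perm.mul_apply, ← hq, h.JJ, h.D_self]
    · have h2 : z ^ j * (D L J q * J) = (D L J q * J) * z ^ j := (hzj _ (h.PqG q)).symm
      have h3 : (D L J q * J) * (D L J q * J) = z ^ (-(2 * j)) := by
        have h4 : D L J q * z ^ (2 * j) * D L J q = z ^ (-(2 * j)) := by
          unfold D
          have h5 := hJz (2 * j)
          have h6 := cent_zpow hb (2 * j) _ (h.memL q)
          have h7 := cent_zpow hb (-(2 * j)) _ (h.memL q)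
          calc L q * J * (L q)⁻¹ * z ^ (2 * j) * (L q * J * (L q)⁻¹)
              = L q * J * (L q)⁻¹ * (z ^ (2 * j) * L q) * J * (L q)⁻¹ := by group
            _ = L q * J * (L q)⁻¹ * (L q * z ^ (2 * j)) * J * (L q)⁻¹ := by rw [h6]
            _ = L q * (J * z ^ (2 * j) * J) * (L q)⁻¹ := by group
            _ = z ^ (-(2 * j)) := by rw [h5, h7]; group
        calc (D L J q * J) * (D L J q * J) = D L J q * (J * D L J q * J) := by group
          _ = D L J q * z ^ (2 * j) * D L J q := by rw [h.D_J, hDJ]; group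
          _ = z ^ (-(2 * j)) := h4
      calc z ^ j * (D L J q * J) * (z ^ j * (D L J q * J))
          = z ^ j * ((D L J q * J) * z ^ j) * (D L J q * J) := by group
        _ = z ^ j * (z ^ j * (D L J q * J)) * (D L J q * J) := by rw [← h2]
        _ = z ^ j * z ^ j * ((D L J q * J) * (D L J q * J)) := by group
        _ = 1 := by rw [h3]; group
  have hD : D L J q = z ^ (-j) * J := by
    calc D L J q = z ^ (-j) * (z ^ j * (D L J q * J)) * J⁻¹ := by group
      _ = z ^ (-j) * J := by rw [hP, h.Jinv]; group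
  -- the action of translations on the `D p`
  have hDg : ∀ g ∈ G, D L J (g q) = z ^ (-j) * D L J (g e) := by
    intro g hg
    rw [← h.D_conj hg, hD, ← h.D_conj hg e, h.D_e]
    have := hzn g hg
    calc g * (z ^ (-j) * J) * g⁻¹ = (g * z ^ (-j)) * J * g⁻¹ := by group
      _ = z ^ (-j) * (g * J * g⁻¹) := by rw [this]; group
  have hD1 : ∀ p, D L J (L p q) = z ^ (-j) * D L J p := by
    intro p
    have := hDg _ (h.memL p)
    rwa [h.Le] at this
  have hD2 : ∀ p, D L J (L q p) = z ^ (-j) * D L J p := by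
    intro p
    have := hDg _ (h.memR p)
    rw [h.R_apply, h.R_apply, h.Le1, Perm.one_apply] at this
    exact this
  -- `L q = R q`
  set R := J * L (J q) * J with hR
  have hRG : R ∈ G := h.memR q
  have hRa : ∀ p, R p = L p q := fun p => h.R_apply p q
  have hLR : L q = R := by
    have h1 : R⁻¹ * L q = 1 := by
      apply h.triv_of (G.mul_mem (G.inv_mem hRG) (h.memL q))
      · rw [Perm.mul_apply, h.Le, Perm.inv_eq_iff_eq, hRa, h.Le1, Perm.one_apply]
      · intro p
        set r := (R⁻¹ * L q) p with hr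
        have h2 : R r = L q p := by
          have h20 : R * (R⁻¹ * L q) = L q := by group
          rw [hr, ← Perm.mul_apply, h20]
        have h3 : D L J (R r) = z ^ (-j) * D L J r := by rw [hRa]; exact hD1 r
        rw [h2, hD2 p] at h3
        exact (mul_left_cancel h3).symm
    calc L q = R * (R⁻¹ * L q) := by group
      _ = R := by rw [h1, mul_one]
  have hcomm : ∀ p, L q p = L p q := fun p => by rw [hLR, hRa]
  -- `L q` commutes with the translations
  have hcomL : ∀ p, L p * L q = L q * L p := by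
    intro p
    have h1 : (L p * L q)⁻¹ * (L q * L p) = 1 := by
      apply h.triv_of (G.mul_mem (G.inv_mem (G.mul_mem (h.memL p) (h.memL q)))
        (G.mul_mem (h.memL q) (h.memL p)))
      · rw [Perm.mul_apply, Perm.mul_apply, h.Le, Perm.inv_eq_iff_eq, Perm.mul_apply, h.Le]
        exact hcomm p
      · intro r
        set s := ((L p * L q)⁻¹ * (L q * L p)) r with hs
        have h2 : L p (L q s) = L q (L p r) := by
          have h20 : (L p * L q) * ((L p * L q)⁻¹ * (L q * L p)) = L q * L p := by group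
          have : (L p * L q) s = (L q * L p) r := by rw [hs, ← Perm.mul_apply, h20]
          simpa using this
        have h3 : D L J (L p (L q s)) = z ^ (-j) * D L J (L p s) := by
          rw [hcomm s, ← Perm.mul_apply, hDg _ (G.mul_mem (h.memL p) (h.memL s)),
            Perm.mul_apply, h.Le]
        rw [h2, hD2] at h3
        have h4 := mul_left_cancel h3
        rw [← h.D_conj (h.memL p), ← h.D_conj (h.memL p)] at h4
        exact (mul_left_cancel (mul_right_cancel h4)).symm
    calc L p * L q = (L p * L q) * ((L p * L q)⁻¹ * (L q * L p)) := by rw [h1, mul_one]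
      _ = L q * L p := by group
  -- `L q` commutes with the elements that fix `e`
  have hcomH : ∀ g ∈ G, g e = e → g * L q = L q * g := by
    intro g hg hge
    have h1 : D L J (g q) = D L J q := by
      rw [hDg g hg, hge, h.D_e, hD]
    have h2 := h.sq_of hg h1
    obtain ⟨r, ⟨k, hk⟩, hr1⟩ := h.odd g hg hge
    have h3 : ∀ m : ℕ, (g ^ (2 * m)) q = q := by
      intro m
      induction m with
      | zero => rfl
      | succ m ih =>
        have : 2 * (m + 1) = 2 * m + 1 + 1 := by ring
        rw [this, pow_succ, pow_succ, Perm.mul_apply, Perm.mul_apply, h2, ih]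
    have h4 : g q = q := by
      have h5 := h3 (k + 1)
      have h6 : 2 * (k + 1) = r + 1 := by rw [hk]; ring
      rw [h6, pow_succ, hr1, one_mul] at h5
      exact h5
    have h7 := h.equi g hg hge q
    rw [h4, mul_inv_eq_iff_eq_mul] at h7
    exact h7
  have hcent : ∀ g ∈ G, g * L q = L q * g := by
    intro g hg
    have h1 : (L (g e))⁻¹ * g ∈ G := G.mul_mem (G.inv_mem (h.memL _)) hg
    have h2 : ((L (g e))⁻¹ * g) e = e := by
      rw [Perm.mul_apply, Perm.inv_eq_iff_eq]
      exact (h.Le _).symm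
    have h3 := hcomH _ h1 h2
    have h4 := hcomL (g e)
    calc g * L q = L (g e) * (((L (g e))⁻¹ * g) * L q) := by group
      _ = (L (g e) * L q) * ((L (g e))⁻¹ * g) := by rw [h3]; group
      _ = L q * g := by rw [h4]; group
  refine ⟨hcent, ?_⟩
  apply h.cent_ext (p := e) _ hzn
  · rw [Perm.mul_apply, h.Le, ← h.D_app_e, hD, Perm.mul_apply, h.Je]
  · intro g hg
    rw [← mul_assoc, hcent g hg, mul_assoc, hcent g hg, mul_assoc]

/-- another class fixed by `J` -/
theorem exists_class [Finite F] (h : OM G L J e) {W : Subgroup (Perm F)}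
    (hW : ∀ c ∈ W, ∀ g ∈ G, g * c = c * g)
    {i : ℕ} (hi : Nat.card W = 2 ^ i) (hd : 2 ^ (i + 1) ∣ Nat.card F) :
    ∃ q, (∀ c ∈ W, c e ≠ q) ∧ ∃ c ∈ W, J q = c q := by
  classical
  have hJz' : ∀ c ∈ W, ∀ p : F, J (c p) = c⁻¹ (J p) := by
    intro c hc p
    rw [← h.JcJ (hW c hc), Perm.mul_apply, Perm.mul_apply, h.JJ]
  have hfree : ∀ c ∈ W, ∀ p : F, c p = p → c = 1 := by
    intro c hc p hp
    apply h.cent_ext (hW c hc) (p := p)
    · intro g _; rw [mul_one, one_mul]
    · exact hp
  have hstab : ∀ p : F, MulAction.stabilizer W p = ⊥ := by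
    intro p
    rw [Subgroup.eq_bot_iff_forall]
    rintro ⟨g, hg⟩ hgp
    apply Subtype.ext
    exact hfree g hg p hgp
  have e1 := Nat.card_congr (MulAction.selfEquivOrbitsQuotientProd hstab)
  rw [Nat.card_prod] at e1
  rw [hi] at e1
  have e3 : 2 ∣ Nat.card (Quotient (MulAction.orbitRel W F)) := by
    rw [e1, pow_succ, mul_comm] at hd
    exact Nat.dvd_of_mul_dvd_mul_right (by positivity) hd
  let J' : Quotient (MulAction.orbitRel W F) → Quotient (MulAction.orbitRel W F) :=
    Quotient.map J (by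
      rintro p q ⟨⟨g, hg⟩, hgq⟩
      have hg' : g q = p := hgq
      refine ⟨⟨g⁻¹, W.inv_mem hg⟩, ?_⟩
      change g⁻¹ (J q) = J p
      rw [← hg', hJz' g hg])
  have hJ' : Function.Involutive J' := by
    intro y
    induction y using Quotient.inductionOn with
    | h p =>
      change Quotient.mk _ (J (J p)) = _
      rw [h.JJ]
  have := Fintype.ofFinite (Quotient (MulAction.orbitRel W F))
  have : Fact (Nat.Prime 2) := ⟨Nat.prime_two⟩
  obtain ⟨y, hy, hye⟩ := Equiv.Perm.exists_fixed_point_of_prime' (p := 2) (n := 1)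
    (σ := hJ'.toPerm) (a := (Quotient.mk _ e : Quotient (MulAction.orbitRel W F)))
    (by rw [← Nat.card_eq_fintype_card]; exact e3)
    (by ext y; rw [pow_one, pow_two]; exact hJ' y)
    (by
      change Quotient.mk _ (J e) = _
      rw [h.Je])
  induction y using Quotient.inductionOn with
  | h q =>
    refine ⟨q, ?_, ?_⟩
    · intro c hc ha
      apply hye
      apply Quotient.sound
      exact ⟨⟨c, hc⟩, ha⟩
    · obtain ⟨⟨g, hg⟩, hgq⟩ := Quotient.exact hy
      exact ⟨g, hg, Eq.symm hgq⟩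

/-- (2): a central subgroup of order `2 ^ k` -/
theorem exists_W [Finite F] (h : OM G L J e) (k : ℕ) (hk : 2 ^ k ∣ Nat.card F) :
    ∃ W : Subgroup (Perm F), W ≤ G ∧ (∀ c ∈ W, ∀ g ∈ G, g * c = c * g) ∧
      Nat.card W = 2 ^ k := by
  induction k with
  | zero =>
    refine ⟨⊥, bot_le, ?_, ?_⟩
    · intro c hc g _
      rw [Subgroup.mem_bot] at hc
      rw [hc, mul_one, one_mul]
    · rw [Subgroup.card_bot, pow_zero]
  | succ k ih =>
    obtain ⟨W, hWG, hW, hWc⟩ := ih (dvd_trans (pow_dvd_pow 2 (Nat.le_succ k)) hk)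
    obtain ⟨q, hq, c, hc, hj⟩ := h.exists_class hW hWc hk
    obtain ⟨h1, h2⟩ := h.step (hWG hc) (hW c hc) (j := 1) (by rw [zpow_one]; exact hj)
    have hu : ∀ s ∈ W, s * L q = L q * s := fun s hs => h1 s (hWG hs)
    have hu2 : L q * L q ∈ W := by
      rw [h2]
      exact W.zpow_mem hc _
    have hne : L q ∉ W := by
      intro h3
      exact hq _ h3 (h.Le q)
    refine ⟨Pgrp W (L q) hu hu2, ?_, ?_, ?_⟩
    · intro p hp
      rcases mem_Pgrp.1 hp with hp | hp
      · exact hWG hp
      · have h3 : p = (p * L q) * (L q)⁻¹ := by group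
        rw [h3]
        exact G.mul_mem (hWG hp) (G.inv_mem (h.memL q))
    · intro p hp g hg
      rcases mem_Pgrp.1 hp with hp | hp
      · exact hW p hp g hg
      · have c1 : Commute g (p * L q) := hW _ hp g hg
        have c2 : Commute g (L q) := h1 g hg
        have c3 := c1.mul_right c2.inv_right
        rw [mul_inv_cancel_right] at c3
        exact c3
    · rw [card_Pgrp hne, hWc, pow_succ, mul_comm]

end OM

end ALoop
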