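import Pool.Agent.H4.IS.Fus2

set_option autoImplicit false

/-!
(8): the centre of `T` has index at most four if `S` has order four.
-/

namespace ALoop

open Equiv

variable {Q : Type*} {G : Subgroup (Perm Q)} {L : Q → Perm Q} {J : Perm Q} {e : Q}
  {S T : Subgroup (Perm Q)} {x : Q}

theorem card_quot_range {A : Type*} [CommGroup A] [Finite A] (n : ℕ)
    (hn : Nat.card (powMonoidHom 2 : A →* A).ker ≤ n) :
    (powMonoidHom 2 : A →* A).range.index ≤ n := by
  have h1 := Subgroup.card_mul_index (powMonoidHom 2 : A →* A).ker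
  have h2 := Subgroup.card_mul_index (powMonoidHom 2 : A →* A).range
  rw [Subgroup.index_ker] at h1
  have h3 : (powMonoidHom 2 : A →* A).range.index = Nat.card (powMonoidHom 2 : A →* A).ker := by
    apply Nat.eq_of_mul_eq_mul_left (Nat.card_pos (α := (powMonoidHom 2 : A →* A).range))
    rw [h2, ← h1, mul_comm]
  rw [h3]
  exact hn

namespace TE

theorem exists_T0 [Finite Q] (h : AL G L J e) (d : TE G J e S T) (hS4 : Nat.card S = 4)
    (hS2 : ∀ s ∈ S, s * s = 1) :
    ∃ T0 : Subgroup (Perm Q), T0 ≤ T ∧ T0.relIndex T ≤ 4 ∧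
      ∀ t ∈ T0, ∀ b ∈ T, t * b = b * t := by
  classical
  let N : Subgroup T := S.subgroupOf T
  have hN : N.Normal := ⟨by
    intro s hs g
    rw [Subgroup.mem_subgroupOf] at hs ⊢
    have h1 := d.cen g g.2 s hs
    have h2 : ((g * s * g⁻¹ : T) : Perm Q) = s := by
      push_cast
      rw [h1, mul_inv_cancel_right]
    rw [h2]
    exact hs⟩
  have hcomm : ∀ a b : T ⧸ N, a * b = b * a := by
    intro a b
    induction a using QuotientGroup.induction_on with
    | H a =>
      induction b using QuotientGroup.induction_on with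
      | H b =>
        rw [← QuotientGroup.mk_mul, ← QuotientGroup.mk_mul, QuotientGroup.eq,
          Subgroup.mem_subgroupOf]
        have h1 := d.com (b : Perm Q)⁻¹ (T.inv_mem b.2) (a : Perm Q)⁻¹ (T.inv_mem a.2)
        have h2 : (((a * b)⁻¹ * (b * a) : T) : Perm Q) =
            (b : Perm Q)⁻¹ * (a : Perm Q)⁻¹ * ((b : Perm Q)⁻¹)⁻¹ * ((a : Perm Q)⁻¹)⁻¹ := by
          push_cast
          group
        rw [h2]
        exact h1
  let inst : CommGroup (T ⧸ N) := { (inferInstance : Group (T ⧸ N)) with mul_comm := hcomm }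
  have hker : ∀ t : T, ((QuotientGroup.mk t : T ⧸ N) ∈ (powMonoidHom 2 : (T ⧸ N) →* (T ⧸ N)).ker) →
      (t : Perm Q) * t ∈ S := by
    intro t ht
    rw [MonoidHom.mem_ker] at ht
    change (QuotientGroup.mk t : T ⧸ N) ^ 2 = 1 at ht
    rw [pow_two] at ht
    change (QuotientGroup.mk (t * t) : T ⧸ N) = 1 at ht
    rw [QuotientGroup.eq_one_iff, Subgroup.mem_subgroupOf] at ht
    exact ht
  have hSe : ∀ s ∈ S, s e = e := fun s hs => (d.hS.1 hs).2
  have hfix : ∀ t : T, (t : Perm Q) * t ∈ S → D L J ((t : Perm Q) e) * J ∈ S := by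
    intro t ht
    set p := (t : Perm Q) e with hp
    have hSp : ∀ s ∈ S, s p = p := by
      intro s hs
      rw [hp, ← Perm.mul_apply, ← d.cen t t.2 s hs, Perm.mul_apply, hSe s hs]
    have hti : ((t : Perm Q)⁻¹) e = p := by
      have h1 := hSe _ (S.inv_mem ht)
      have h2 : (t : Perm Q)⁻¹ = t * ((t : Perm Q) * t)⁻¹ := by group
      rw [h2, Perm.mul_apply, h1]
    have hJp : J p = p := by
      have h1 := d.inv t t.2
      have h2 : J * t * J = (J * t * J * t) * (t : Perm Q)⁻¹ := by group
      have h3 : J p = (J * t * J) e := by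
        change J p = J ((t : Perm Q) (J e))
        rw [h.Je]
      rw [h3, h2, Perm.mul_apply, hti, hSp _ h1]
    by_cases hpe : p = e
    · rw [hpe, h.D_e, h.JJ1]
      exact S.one_mem
    · exact h.zS d.hS hSp hJp hpe
  have hcard : Nat.card (powMonoidHom 2 : (T ⧸ N) →* (T ⧸ N)).ker ≤ 4 := by
    rw [← hS4]
    have hout : ∀ a : T ⧸ N, (QuotientGroup.mk (Quotient.out a) : T ⧸ N) = a := fun a =>
      Quotient.out_eq a
    refine Nat.card_le_card_of_injective
      (fun a => (⟨D L J (((Quotient.out a.1 : T) : Perm Q) e) * J,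
        hfix _ (hker _ (by rw [hout]; exact a.2))⟩ : S)) ?_
    intro a b hab
    have h1 : D L J (((Quotient.out a.1 : T) : Perm Q) e) * J =
        D L J (((Quotient.out b.1 : T) : Perm Q) e) * J :=
      congrArg Subtype.val hab
    have h2 := h.D_inj (mul_right_cancel h1)
    apply Subtype.ext
    rw [← hout a.1, ← hout b.1, QuotientGroup.eq, Subgroup.mem_subgroupOf]
    have h3 : (((Quotient.out a.1 : T)⁻¹ * (Quotient.out b.1 : T) : T) : Perm Q) e = e := by
      change ((Quotient.out a.1 : T) : Perm Q)⁻¹ (((Quotient.out b.1 : T) : Perm Q) e) = e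
      rw [Perm.inv_eq_iff_eq]
      exact h2.symm
    exact d.TH _ ((Quotient.out a.1 : T)⁻¹ * (Quotient.out b.1 : T)).2 h3
  have hidx := card_quot_range 4 hcard
  let T0' : Subgroup T := ((powMonoidHom 2 : (T ⧸ N) →* (T ⧸ N)).range).comap
    (QuotientGroup.mk' N)
  have hidx' : T0'.index ≤ 4 := by
    rw [Subgroup.index_comap_of_surjective _ (QuotientGroup.mk'_surjective N)]
    exact hidx
  refine ⟨T0'.map T.subtype, Subgroup.map_subtype_le _, ?_, ?_⟩
  · have h1 : (T0'.map T.subtype).subgroupOf T = T0' := by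
      unfold Subgroup.subgroupOf
      exact Subgroup.comap_map_eq_self_of_injective T.subtype_injective _
    unfold Subgroup.relIndex
    rw [h1]
    exact hidx'
  · rintro _ ⟨t, ht, rfl⟩ b hb
    obtain ⟨a, ha⟩ := ht
    induction a using QuotientGroup.induction_on with
    | H a =>
      have h1 : (QuotientGroup.mk (a * a) : T ⧸ N) = QuotientGroup.mk t := by
        have h2 : (QuotientGroup.mk a : T ⧸ N) ^ 2 = QuotientGroup.mk t := ha
        rw [pow_two] at h2
        exact h2
      rw [QuotientGroup.eq, Subgroup.mem_subgroupOf] at h1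
      set s : Perm Q := (((a * a)⁻¹ * t : T) : Perm Q) with hs
      have h2 : (t : Perm Q) = a * a * s := by
        rw [hs]; push_cast; group
      have h3 := d.com a a.2 b hb
      set u := (a : Perm Q) * b * (a : Perm Q)⁻¹ * b⁻¹ with hu
      have h4 : (a : Perm Q) * b = u * b * a := by rw [hu]; group
      have h5 : (a : Perm Q) * u = u * a := d.cen a a.2 u h3
      have h6 := hS2 u h3
      have h7 : b * s = s * b := d.cen b hb s h1
      change (t : Perm Q) * b = b * t
      rw [h2]
      calc (a : Perm Q) * a * s * b = a * a * (s * b) := by group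
        _ = a * (a * b) * s := by rw [← h7]; group
        _ = (a * u) * b * a * s := by rw [h4]; group
        _ = u * (a * b) * a * s := by rw [h5]; group
        _ = (u * u) * b * a * a * s := by rw [h4]; group
        _ = b * (a * a * s) := by rw [h6]; group

end TE

end ALoop
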