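import Mathlib

set_option autoImplicit false

/-!
# Transfer into the abelianization of a Sylow 2-subgroup, for a central involution
-/

namespace ALoop

open Subgroup MulAction

theorem prod_eq_one_of_fixed {P X A : Type*} [Group P] [MulAction P X] [Fintype X] [CommGroup A]
    (hP : IsPGroup 2 P) (F : X → A) (hF2 : ∀ x, F x * F x = 1)
    (hinv : ∀ (t : P) (x : X), F (t • x) = F x) (hfix : ∀ x ∈ fixedPoints P X, F x = 1) :
    ∏ x, F x = 1 := by
  classical
  have : Fact (Nat.Prime 2) := ⟨Nat.prime_two⟩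
  have h1 := Finset.prod_comp (s := (Finset.univ : Finset X)) (id : A → A) F
  simp only [id] at h1
  rw [h1]
  refine Finset.prod_eq_one fun a ha => ?_
  obtain ⟨x, -, rfl⟩ := Finset.mem_image.1 ha
  by_cases hx : F x = 1
  · rw [hx, one_pow]
  have h2 : 2 ∣ (Finset.univ.filter fun y => F y = F x).card := by
    let Y : SubMulAction P X :=
      { carrier := {y | F y = F x}
        smul_mem' := fun t y hy => by
          show F (t • y) = F x
          rw [hinv]; exact hy }
    have h3 := hP.card_modEq_card_fixedPoints Y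
    have h4 : Nat.card (fixedPoints P Y) = 0 := by
      have : IsEmpty (fixedPoints P Y) := by
        refine ⟨?_⟩
        rintro ⟨y, hy⟩
        apply hx
        have h5 : F (y : X) = F x := y.2
        rw [← h5]
        apply hfix
        intro t
        exact congrArg Subtype.val (hy t)
      exact Nat.card_of_isEmpty
    rw [h4] at h3
    have h5 : Nat.card Y = (Finset.univ.filter fun y => F y = F x).card := by
      rw [← Fintype.card_subtype, ← Nat.card_eq_fintype_card]
      exact Nat.card_congr (Equiv.refl _)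
    rw [← h5]
    exact (Nat.modEq_zero_iff_dvd).1 h3
  obtain ⟨k, hk⟩ := h2
  rw [hk, pow_mul, pow_two, hF2, one_pow]

theorem not_mem_commutator2 {M : Type*} [Group M] [Finite M] (G T : Subgroup M) (hTG : T ≤ G)
    (hT : IsPGroup 2 T) (hodd : ¬ 2 ∣ T.relIndex G) {z : M} (hz : z ∈ T)
    (hzc : ∀ t ∈ T, t * z = z * t) (hz2 : z * z = 1) (hz1 : z ∉ ⁅T, T⁆)
    (hcl : ∀ g ∈ G, (∀ t ∈ T, g * t * g⁻¹ ∈ T) → g * z * g⁻¹ = z) : z ∉ ⁅G, G⁆ := by
  classical
  have : Fact (Nat.Prime 2) := ⟨Nat.prime_two⟩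
  let φ : T.subgroupOf G →* Abelianization T :=
    Abelianization.of.comp (Subgroup.subgroupOfEquivOfLe hTG).toMonoidHom
  set V : G →* Abelianization T := MonoidHom.transfer φ with hV
  set Z : G := ⟨z, hTG hz⟩ with hZ
  have hZT : Z ∈ T.subgroupOf G := by
    rw [Subgroup.mem_subgroupOf]; exact hz
  -- the kernel contains the commutators
  have hker : ∀ x ∈ ⁅G, G⁆, ∃ h : x ∈ G, V ⟨x, h⟩ = 1 := by
    intro x hx
    have hle : ⁅G, G⁆ ≤ V.ker.map G.subtype := by
      rw [Subgroup.commutator_le]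
      intro a ha b hb
      refine ⟨(⟨a, ha⟩ : G) * ⟨b, hb⟩ * (⟨a, ha⟩ : G)⁻¹ * (⟨b, hb⟩ : G)⁻¹, ?_, ?_⟩
      · show V _ = 1
        rw [map_mul, map_mul, map_mul, map_inv, map_inv, mul_comm (V ⟨a, ha⟩), mul_assoc (V ⟨b, hb⟩),
          mul_inv_cancel, mul_one, mul_inv_cancel]
      · simp [commutatorElement_def]
    obtain ⟨y, hy, rfl⟩ := hle hx
    exact ⟨y.2, hy⟩
  intro hmem
  obtain ⟨hzG, h1⟩ := hker z hmem
  have hZ2 : Z ^ 2 = 1 := by
    apply Subtype.ext
    simpa [hZ, pow_two] using hz2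
  -- the factor attached to a coset
  let F' : G → Abelianization T := fun g =>
    if h : g⁻¹ * Z * g ∈ T.subgroupOf G then φ ⟨g⁻¹ * Z * g, h⟩ else 1
  have hF'1 : ∀ g : G, ∀ t ∈ T.subgroupOf G, F' (g * t) = F' g := by
    intro g t ht
    have h2 : (g * t)⁻¹ * Z * (g * t) = t⁻¹ * (g⁻¹ * Z * g) * t := by group
    by_cases h : g⁻¹ * Z * g ∈ T.subgroupOf G
    · have h' : (g * t)⁻¹ * Z * (g * t) ∈ T.subgroupOf G := by
        rw [h2]
        exact mul_mem (mul_mem (inv_mem ht) h) ht
      simp only [F', dif_pos h, dif_pos h']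
      have h3 : (⟨(g * t)⁻¹ * Z * (g * t), h'⟩ : T.subgroupOf G) =
          (⟨t, ht⟩ : T.subgroupOf G)⁻¹ * ⟨g⁻¹ * Z * g, h⟩ * ⟨t, ht⟩ :=
        Subtype.ext h2
      rw [h3, map_mul, map_mul, map_inv, mul_comm, mul_inv_cancel_left]
    · have h' : ¬ (g * t)⁻¹ * Z * (g * t) ∈ T.subgroupOf G := by
        intro h3
        apply h
        have h4 : g⁻¹ * Z * g = t * ((g * t)⁻¹ * Z * (g * t)) * t⁻¹ := by group
        rw [h4]
        exact mul_mem (mul_mem ht h3) (inv_mem ht)
      simp only [F', dif_neg h, dif_neg h']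
  have hF'2 : ∀ g : G, ∀ t ∈ T.subgroupOf G, F' (t * g) = F' g := by
    intro g t ht
    have h3 : t⁻¹ * Z * t = Z := by
      apply Subtype.ext
      have h4 := hzc (t : M) ht
      show (t : M)⁻¹ * z * t = z
      rw [mul_assoc, ← h4, inv_mul_cancel_left]
    have h2 : (t * g)⁻¹ * Z * (t * g) = g⁻¹ * Z * g := by
      calc (t * g)⁻¹ * Z * (t * g) = g⁻¹ * (t⁻¹ * Z * t) * g := by group
        _ = _ := by rw [h3]
    by_cases h : g⁻¹ * Z * g ∈ T.subgroupOf G
    · have h' : (t * g)⁻¹ * Z * (t * g) ∈ T.subgroupOf G := by rw [h2]; exact h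
      simp only [F', dif_pos h, dif_pos h']
      exact congrArg φ (Subtype.ext h2)
    · have h' : ¬ (t * g)⁻¹ * Z * (t * g) ∈ T.subgroupOf G := by rw [h2]; exact h
      simp only [F', dif_neg h, dif_neg h']
  let F : G ⧸ T.subgroupOf G → Abelianization T := fun x => F' x.out
  have hFmk : ∀ g : G, F (g : G ⧸ T.subgroupOf G) = F' g := by
    intro g
    obtain ⟨t, ht⟩ := QuotientGroup.mk_out_eq_mul (T.subgroupOf G) g
    show F' _ = _
    rw [ht]
    exact hF'1 g t t.2
  have hfixmem : ∀ (g : G) (x : G ⧸ T.subgroupOf G), g • x = x ↔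
      x.out⁻¹ * g * x.out ∈ T.subgroupOf G := by
    intro g x
    conv_lhs => rw [← QuotientGroup.out_eq' x]
    rw [MulAction.Quotient.smul_mk, eq_comm, QuotientGroup.eq, smul_eq_mul, mul_assoc]
  have hFne : ∀ x, F x ≠ 1 → Z • x = x := by
    intro x hx
    rw [hfixmem]
    by_contra h
    exact hx (dif_neg h)
  have hFsq : ∀ x, F x * F x = 1 := by
    intro x
    by_cases h : x.out⁻¹ * Z * x.out ∈ T.subgroupOf G
    · have h2 : F x = φ ⟨x.out⁻¹ * Z * x.out, h⟩ := dif_pos h
      rw [h2, ← map_mul, ← map_one φ]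
      congr 1
      apply Subtype.ext
      show x.out⁻¹ * Z * x.out * (x.out⁻¹ * Z * x.out) = 1
      have h3 : x.out⁻¹ * Z * x.out * (x.out⁻¹ * Z * x.out) = x.out⁻¹ * Z ^ 2 * x.out := by
        rw [pow_two]; group
      rw [h3, hZ2, mul_one, inv_mul_cancel]
    · have h2 : F x = 1 := dif_neg h
      rw [h2, mul_one]
  -- the transfer of z
  have hfin : Fintype (Quotient (orbitRel (zpowers Z) (G ⧸ T.subgroupOf G))) :=
    Fintype.ofFinite _
  have hfinX : Fintype (G ⧸ T.subgroupOf G) := Fintype.ofFinite _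
  have hfac : ∀ q : Quotient (orbitRel (zpowers Z) (G ⧸ T.subgroupOf G)),
      φ ⟨q.out.out⁻¹ * Z ^ Function.minimalPeriod (Z • ·) q.out * q.out.out,
        QuotientGroup.out_conj_pow_minimalPeriod_mem (T.subgroupOf G) Z q.out⟩ = F q.out := by
    intro q
    have hmem := QuotientGroup.out_conj_pow_minimalPeriod_mem (T.subgroupOf G) Z q.out
    by_cases hq : Z • q.out = q.out
    · have h1 : Function.minimalPeriod (Z • ·) q.out = 1 :=
        Function.minimalPeriod_eq_one_iff_isFixedPt.2 hq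
      have h2 : F q.out = φ ⟨q.out.out⁻¹ * Z * q.out.out, (hfixmem Z _).1 hq⟩ :=
        dif_pos ((hfixmem Z _).1 hq)
      rw [h2]
      congr 1
      apply Subtype.ext
      show q.out.out⁻¹ * Z ^ Function.minimalPeriod (Z • ·) q.out * q.out.out = _
      rw [h1, pow_one]
    · have hdvd : Function.minimalPeriod (Z • ·) q.out ∣ 2 := by
        apply Function.IsPeriodicPt.minimalPeriod_dvd
        show (Z • ·)^[2] q.out = q.out
        rw [smul_iterate, hZ2]
        exact one_smul _ _
      have h2 : Function.minimalPeriod (Z • ·) q.out = 2 := by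
        rcases (Nat.dvd_prime Nat.prime_two).1 hdvd with h | h
        · exact absurd (Function.minimalPeriod_eq_one_iff_isFixedPt.1 h) hq
        · exact h
      have h3 : F q.out = 1 := by
        by_contra h4
        exact hq (hFne _ h4)
      rw [h3, ← map_one φ]
      congr 1
      apply Subtype.ext
      show q.out.out⁻¹ * Z ^ Function.minimalPeriod (Z • ·) q.out * q.out.out = 1
      rw [h2, hZ2, mul_one, inv_mul_cancel]
  have h2 : V Z = ∏ q : Quotient (orbitRel (zpowers Z) (G ⧸ T.subgroupOf G)), F q.out := by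
    rw [hV, MonoidHom.transfer_eq_prod_quotient_orbitRel_zpowers_quot]
    exact Finset.prod_congr rfl fun q _ => hfac q
  have h3 : ∏ q : Quotient (orbitRel (zpowers Z) (G ⧸ T.subgroupOf G)), F q.out =
      ∏ x : G ⧸ T.subgroupOf G, F x := by
    refine Finset.prod_bij_ne_one (fun q _ _ => q.out) (fun _ _ _ => Finset.mem_univ _)
      ?_ ?_ (fun _ _ _ => rfl)
    · intro a _ _ b _ _ hab
      have := congrArg (fun y => (Quotient.mk'' y :
        Quotient (orbitRel (zpowers Z) (G ⧸ T.subgroupOf G)))) hab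
      simpa using this
    · intro x _ hx
      have hxZ := hFne x hx
      have hfix : ∀ g : zpowers Z, g • x = x := by
        rintro ⟨g, k, rfl⟩
        have : Z ∈ stabilizer G x := hxZ
        exact (stabilizer G x).zpow_mem this k
      have h4 : (Quotient.mk'' x : Quotient (orbitRel (zpowers Z)
          (G ⧸ T.subgroupOf G))).out = x := by
        have h2 := Quotient.exact (Quotient.out_eq (Quotient.mk'' x : Quotient
          (orbitRel (zpowers Z) (G ⧸ T.subgroupOf G))))
        obtain ⟨g, hg⟩ := h2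
        rw [← hg]
        exact hfix g
      exact ⟨_, Finset.mem_univ _, by rw [h4]; exact hx, h4⟩
  have h4 : V Z = 1 := h1
  -- the factor c of z
  set c : Abelianization T := φ ⟨Z, hZT⟩ with hc
  have hc2 : c * c = 1 := by
    rw [hc, ← map_mul, ← map_one φ]
    congr 1
    apply Subtype.ext
    show Z * Z = 1
    rw [← pow_two, hZ2]
  have hPT : IsPGroup 2 (T.subgroupOf G) :=
    hT.of_equiv (Subgroup.subgroupOfEquivOfLe hTG).symm
  have h5 : ∏ x : G ⧸ T.subgroupOf G, (F x * c) = 1 := by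
    refine prod_eq_one_of_fixed hPT (fun x => F x * c) ?_ ?_ ?_
    · intro x
      show F x * c * (F x * c) = 1
      rw [mul_mul_mul_comm, hFsq, hc2, mul_one]
    · intro t x
      show F (t • x) * c = F x * c
      congr 1
      have h6 : t • x = (((t : G) * x.out : G) : G ⧸ T.subgroupOf G) := by
        conv_lhs => rw [← QuotientGroup.out_eq' x]
        rfl
      rw [h6, hFmk]
      exact hF'2 _ _ t.2
    · intro x hx
      show F x * c = 1
      have h6 : ∀ t ∈ T, (x.out : M)⁻¹ * t * (x.out : M) ∈ T := by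
        intro t ht
        have h7 : (⟨t, hTG ht⟩ : G) • x = x :=
          hx ⟨⟨t, hTG ht⟩, by rw [Subgroup.mem_subgroupOf]; exact ht⟩
        exact (hfixmem _ _).1 h7
      have h7 := hcl (x.out : M)⁻¹ (G.inv_mem x.out.2) (by
        intro t ht
        rw [inv_inv]; exact h6 t ht)
      rw [inv_inv] at h7
      have h8 : x.out⁻¹ * Z * x.out = Z := Subtype.ext h7
      have h9 : x.out⁻¹ * Z * x.out ∈ T.subgroupOf G := by rw [h8]; exact hZT
      have h10 : F x = φ ⟨x.out⁻¹ * Z * x.out, h9⟩ := dif_pos h9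
      have h11 : F x = c := by
        rw [h10, hc]
        exact congrArg φ (Subtype.ext h8)
      rw [h11, hc2]
  rw [Finset.prod_mul_distrib, Finset.prod_const, ← h3, ← h2, h4, one_mul, Finset.card_univ,
    ← Nat.card_eq_fintype_card] at h5
  have h6 : Odd (Nat.card (G ⧸ T.subgroupOf G)) := by
    rw [← Nat.not_even_iff_odd, even_iff_two_dvd]
    exact hodd
  obtain ⟨k, hk⟩ := h6
  rw [hk, pow_succ, pow_mul, pow_two, hc2, one_pow, one_mul] at h5
  apply hz1
  have h7 : (⟨z, hz⟩ : T) ∈ commutator T := by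
    rw [← Abelianization.ker_of, MonoidHom.mem_ker]
    exact h5
  have h8 : z ∈ (commutator T).map T.subtype := ⟨_, h7, rfl⟩
  rw [commutator_def, Subgroup.map_commutator, ← MonoidHom.range_eq_map,
    Subgroup.range_subtype] at h8
  exact h8

end ALoop
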