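import Pool.Agent.H4.IS.TW
import Pool.Agent.H4.IS.Small
import Pool.Agent.H4.IS.Aut4
import Pool.Agent.H4.IS.TransB
import Pool.Agent.H98.IS.CommLt

set_option autoImplicit false

/-!
The order of the inner mapping group is divisible by `8` or by `12`.
-/

namespace ALoop

open Equiv

open scoped commutatorElement

variable {Q : Type*} {G : Subgroup (Perm Q)} {L : Q → Perm Q} {J : Perm Q} {e : Q}
  {S T : Subgroup (Perm Q)} {x : Q}

namespace AL

theorem z_mem_commutator (h : AL G L J e) (hJx : J x = x) (hxe : x ≠ e) :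
    D L J x * J ∈ ⁅G, G⁆ := by
  have hzZ := h.zx_mem hJx hxe
  have hze := h.zx_e hJx hxe
  have hNm : Nm G ⁅G, G⁆ := fun g hg n hn =>
    conj_mem_commutator (fun a ha => G.mul_mem (G.mul_mem hg ha) (G.inv_mem hg)) hn
  have hne : (⁅G, G⁆ : Subgroup (Perm Q)) ≠ ⊥ := by
    intro h0
    apply h.Z_ne hzZ
    ext q
    have h1 : ⁅D L J x * J, L q⁆ ∈ (⁅G, G⁆ : Subgroup (Perm Q)) :=
      Subgroup.commutator_mem_commutator (h.Z_mem hzZ) (h.memL q)
    rw [h0, Subgroup.mem_bot, commutatorElement_eq_one_iff_mul_comm] at h1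
    have h2 : (D L J x * J) (L q e) = L q ((D L J x * J) e) :=
      congrArg (fun p : Perm Q => p e) h1
    rw [hze, h.Le] at h2
    rw [h2, Perm.one_apply]
  obtain ⟨g, hg, hge⟩ := h.trans hNm hne e x
  have hgG : g ∈ G := by
    have : (⁅G, G⁆ : Subgroup (Perm Q)) ≤ G := by
      rw [Subgroup.commutator_le]
      intro a ha b hb
      exact G.mul_mem (G.mul_mem (G.mul_mem ha hb) (G.inv_mem ha)) (G.inv_mem hb)
    exact this hg
  have h1 := h.D_conj hgG e
  rw [hge, h.D_e] at h1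
  have h2 : D L J x * J = g * (J * g⁻¹ * J⁻¹) := by
    rw [← h1, h.Jinv]; group
  rw [h2]
  refine Subgroup.mul_mem _ hg (conj_mem_commutator ?_ (Subgroup.inv_mem _ hg))
  intro a ha
  rw [h.Jinv]
  exact h.JG a ha

/-- two different commuting elements of `Z` in `S` -/
theorem exists_twoZ [Finite Q] (h : AL G L J e) (hS : IsSyl (Inn G e) S) (hr : ¬ HR L J) :
    ∃ a ∈ S, ∃ b ∈ S, a ∈ Z L J ∧ b ∈ Z L J ∧ a ≠ b := by
  unfold HR at hr
  push Not at hr
  obtain ⟨z, hz, z', hz', hzz, q, hq, hq', hne⟩ := hr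
  obtain ⟨g, hg, hgq⟩ := h.exists_map e q
  have h1 : g⁻¹ q = e := by rw [Perm.inv_eq_iff_eq, hgq]
  have hsq := h.Z_sq hz
  have hsq' := h.Z_sq hz'
  have hcom : ∀ s ∈ Subgroup.zpowers z, s * z' = z' * s := by
    rintro _ ⟨a, rfl⟩
    have h2 : Commute z z' := hzz
    exact h2.zpow_left a
  set V := Tgrp (Subgroup.zpowers z) z' hcom with hV
  have hzpow : ∀ a : ℤ, z ^ a * z ^ a = 1 := by
    intro a
    have h2 : Commute z z := Commute.refl z
    rw [← h2.mul_zpow, hsq, one_zpow]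
  have hzpow' : ∀ a : ℤ, z' ^ a * z' ^ a = 1 := by
    intro a
    have h2 : Commute z' z' := Commute.refl z'
    rw [← h2.mul_zpow, hsq', one_zpow]
  have hV2 : IsPGroup 2 V := by
    rintro ⟨p, a, b, hb⟩
    refine ⟨1, ?_⟩
    apply Subtype.ext
    change p ^ 2 ^ 1 = 1
    have h3 : z ^ b = p * z' ^ a := hb
    have h2 : p = z ^ b * z' ^ (-a) := by
      rw [h3]; group
    have h3 : Commute (z ^ b) (z' ^ (-a)) := by
      have h4 : Commute z z' := hzz
      exact h4.zpow_zpow b (-a)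
    rw [pow_one, h2, h3.mul_pow, pow_two, pow_two, hzpow, hzpow', one_mul]
  have hVq : ∀ p ∈ V, p ∈ G ∧ p q = q := by
    rintro p ⟨a, b, hb⟩
    have h3 : z ^ b = p * z' ^ a := hb
    have h2 : p = z ^ b * z' ^ (-a) := by
      rw [h3]; group
    refine ⟨?_, ?_⟩
    · rw [h2]
      exact G.mul_mem (G.zpow_mem (h.Z_mem hz) _) (G.zpow_mem (h.Z_mem hz') _)
    · rw [h2, Perm.mul_apply, Perm.zpow_apply_eq_self_of_apply_eq_self hq',
        Perm.zpow_apply_eq_self_of_apply_eq_self hq]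
  obtain ⟨c, hc, hcS⟩ := hS.conj_mem hV2 g (by
    intro p hp
    obtain ⟨hpG, hpq⟩ := hVq p hp
    refine mem_Inn.2 ⟨G.mul_mem (G.mul_mem (G.inv_mem hg) hpG) hg, ?_⟩
    rw [Perm.mul_apply, Perm.mul_apply, hgq, hpq, h1])
  have hzV : z ∈ V := le_Tgrp (Subgroup.mem_zpowers z)
  have hzV' : z' ∈ V := gen_mem_Tgrp
  have hcG : c * g⁻¹ ∈ G := G.mul_mem (mem_Inn.1 hc).1 (G.inv_mem hg)
  have hconj : ∀ p : Perm Q, c * (g⁻¹ * p * g) * c⁻¹ = (c * g⁻¹) * p * (c * g⁻¹)⁻¹ := by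
    intro p; group
  refine ⟨_, hcS z hzV, _, hcS z' hzV', ?_, ?_, ?_⟩
  · rw [hconj]; exact h.Z_conj hz hcG
  · rw [hconj]; exact h.Z_conj hz' hcG
  · intro h2
    apply hne
    rw [hconj, hconj] at h2
    exact mul_left_cancel (mul_right_cancel h2)

theorem inner_order [Finite Q] (h : AL G L J e) (hcard : 2 ∣ Nat.card Q) :
    8 ∣ Nat.card (Inn G e) ∨ 12 ∣ Nat.card (Inn G e) := by
  classical
  have : Fact (Nat.Prime 2) := ⟨Nat.prime_two⟩
  obtain ⟨S, hS⟩ := exists_syl (Inn G e)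
  have hncyc := h.not_cyclic hcard hS
  obtain ⟨n, hn⟩ := IsPGroup.iff_card.1 hS.2.1
  have hdvd : Nat.card S ∣ Nat.card (Inn G e) := Subgroup.card_dvd_of_le hS.1
  have hn2 : 2 ≤ n := by
    by_contra hlt
    apply hncyc
    have h0 : n = 0 ∨ n = 1 := by omega
    rcases h0 with h0 | h0
    · rw [h0, pow_zero] at hn
      have : Subsingleton S := (Nat.card_eq_one_iff_unique.1 hn).1
      infer_instance
    · rw [h0, pow_one] at hn
      exact isCyclic_of_prime_card (p := 2) hn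
  rcases Nat.lt_or_ge 2 n with h3 | h3
  · left
    rw [hn] at hdvd
    exact dvd_trans (pow_dvd_pow 2 h3) hdvd
  have hn' : n = 2 := by omega
  subst hn'
  have hS4 : Nat.card S = 4 := by rw [hn]; norm_num
  right
  by_contra h12
  have h3 : ¬ 3 ∣ Nat.card (Inn G e) := by
    intro h3
    apply h12
    rw [hS4] at hdvd
    exact Nat.Coprime.mul_dvd_of_dvd_of_dvd (by norm_num : Nat.Coprime 4 3) hdvd h3
  have hab : ∀ a ∈ S, ∀ b ∈ S, a * b = b * a := by
    intro a ha b hb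
    have h4 := IsPGroup.commutative_of_card_eq_prime_sq (p := 2) hn
    exact congrArg Subtype.val (h4 ⟨a, ha⟩ ⟨b, hb⟩)
  have hS2 : ∀ s ∈ S, s * s = 1 := by
    intro s hs
    by_contra h5
    apply hncyc
    have h6 := orderOf_dvd_natCard (⟨s, hs⟩ : S)
    rw [hn] at h6
    obtain ⟨j, hj, hoj⟩ := (Nat.dvd_prime_pow Nat.prime_two).1 h6
    have h7 : ¬ j ≤ 1 := by
      intro h7
      apply h5
      have h8 : orderOf (⟨s, hs⟩ : S) ∣ 2 ^ 1 := by
        rw [hoj]; exact pow_dvd_pow 2 h7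
      have h9 := orderOf_dvd_iff_pow_eq_one.1 h8
      rw [pow_one, pow_two] at h9
      exact congrArg Subtype.val h9
    have h8 : j = 2 := by omega
    rw [h8, ← hn] at hoj
    exact isCyclic_of_orderOf_eq_card _ hoj
  have hHC : HC G e S := fun m hm hmS => norm_four hS hS4 hab h3 hm hmS
  obtain ⟨x, hxe, hJx, -⟩ := h.exists_x2 hcard hS
  have hJG := h.J_not_mem hJx hxe
  obtain ⟨T, d⟩ := h.exists_TE hS hab hJx hxe
  -- (7)
  have hseven : ∀ z ∈ Z L J, z ∈ S → z ∈ ⁅T, T⁆ := by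
    intro z hz hzS
    by_contra hzT
    obtain ⟨y, hye, hJy, -, rfl⟩ := h.ZS_form hS hab hz hzS
    exact not_mem_commutator2 G T d.hT.1 d.hT.2.1 d.hT.2.2 (d.ST hzS)
      (fun t ht => d.cen t ht _ hzS) (h.Z_sq hz) hzT
      (fun g hg hgT => d.norm_cent h hHC hJG hg hgT hz hzS) (h.z_mem_commutator hJy hye)
  -- (8)
  obtain ⟨a, haS, b, hbS, haZ, hbZ, hne⟩ := h.exists_twoZ hS (h.not_HR hcard hS hab)
  obtain ⟨T0, hT0, hidx, hcen⟩ := d.exists_T0 h hS4 hS2
  exact hne (comm_lt hT0 hidx hcen (hseven a haZ haS) (hseven b hbZ hbS)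
    (h.Z_ne haZ) (h.Z_ne hbZ))

end AL

end ALoop
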