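import Pool.Agent.H4.IS.BC
import Pool.Agent.H4.IS.Ord
import Pool.Agent.H4.IS.Gen2

set_option autoImplicit false

/-!
If the Sylow 2-subgroups of the inner mapping group are abelian with at most three involutions, then
the Sylow 2-subgroups of `G` are abelian.
-/

namespace ALoop

open Equiv

variable {Q : Type*} {G : Subgroup (Perm Q)} {L : Q → Perm Q} {J : Perm Q} {e : Q}
  {S T : Subgroup (Perm Q)} {x : Q}

/-- an element that normalises `S`, acts on it with odd order and fixes an involution of `S`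
centralises `S` if `S` is abelian with at most three involutions -/
theorem cent_of_fix {M : Type*} [Group M] [Finite M] {S : Subgroup M} (hS2 : IsPGroup 2 S)
    (hab : ∀ a ∈ S, ∀ b ∈ S, a * b = b * a)
    (hcard : Nat.card {s : M // s ∈ S ∧ s * s = 1} ≤ 4) {n : M}
    (hnS : ∀ s ∈ S, n * s * n⁻¹ ∈ S) {r : ℕ} (hr : Odd r) (hnr : ∀ s ∈ S, n ^ r * s = s * n ^ r)
    {c : M} (hc : c ∈ S) (hc1 : c ≠ 1) (hc2 : c * c = 1) (hnc : n * c * n⁻¹ = c) :
    ∀ s ∈ S, n * s = s * n := by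
  classical
  -- involutions
  have hA : ∀ s ∈ S, s * s = 1 → n * s = s * n := by
    intro s hs hss
    by_contra hne
    have hcs : c * s = s * c := hab c hc s hs
    have hn1 : n * s * n⁻¹ ≠ s := fun h => hne (by
      calc n * s = (n * s * n⁻¹) * n := by group
        _ = s * n := by rw [h])
    have hnn : (n * s * n⁻¹) * (n * s * n⁻¹) = 1 := by
      have h1 : (n * s * n⁻¹) * (n * s * n⁻¹) = n * (s * s) * n⁻¹ := by group
      rw [h1, hss, mul_one, mul_inv_cancel]
    have hs1 : s ≠ 1 := by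
      rintro rfl; apply hn1; simp
    have hsc : s ≠ c := by
      rintro rfl; exact hn1 hnc
    have hcc : (c * s) * (c * s) = 1 := by
      calc (c * s) * (c * s) = c * (s * c) * s := by group
        _ = (c * c) * (s * s) := by rw [← hcs]; group
        _ = 1 := by rw [hc2, hss, mul_one]
    have hns : n * s * n⁻¹ = c * s := by
      by_contra hne2
      let X := {s : M // s ∈ S ∧ s * s = 1}
      have hfX : Fintype X := Fintype.ofFinite _
      have e1 : (⟨1, S.one_mem, one_mul 1⟩ : X) ≠ ⟨c, hc, hc2⟩ := fun h =>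
        hc1 (congrArg Subtype.val h).symm
      have e2 : (⟨1, S.one_mem, one_mul 1⟩ : X) ≠ ⟨s, hs, hss⟩ := fun h =>
        hs1 (congrArg Subtype.val h).symm
      have e3 : (⟨1, S.one_mem, one_mul 1⟩ : X) ≠ ⟨c * s, S.mul_mem hc hs, hcc⟩ := fun h => by
        have h1 : 1 = c * s := congrArg Subtype.val h
        apply hsc
        calc s = (c * c) * s := by rw [hc2, one_mul]
          _ = c * (c * s) := by group
          _ = c := by rw [← h1, mul_one]
      have e4 : (⟨1, S.one_mem, one_mul 1⟩ : X) ≠ ⟨n * s * n⁻¹, hnS s hs, hnn⟩ := fun h => by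
        have h1 : 1 = n * s * n⁻¹ := congrArg Subtype.val h
        apply hs1
        calc s = n⁻¹ * (n * s * n⁻¹) * n := by group
          _ = 1 := by rw [← h1]; group
      have e5 : (⟨c, hc, hc2⟩ : X) ≠ ⟨s, hs, hss⟩ := fun h =>
        hsc (congrArg Subtype.val h).symm
      have e6 : (⟨c, hc, hc2⟩ : X) ≠ ⟨c * s, S.mul_mem hc hs, hcc⟩ := fun h => by
        have h1 : c = c * s := congrArg Subtype.val h
        exact hs1 (mul_eq_left.1 h1.symm)
      have e7 : (⟨c, hc, hc2⟩ : X) ≠ ⟨n * s * n⁻¹, hnS s hs, hnn⟩ := fun h => by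
        have h1 : c = n * s * n⁻¹ := congrArg Subtype.val h
        rw [← hnc] at h1
        exact hsc (mul_left_cancel (mul_right_cancel h1)).symm
      have e8 : (⟨s, hs, hss⟩ : X) ≠ ⟨c * s, S.mul_mem hc hs, hcc⟩ := fun h => by
        have h1 : s = c * s := congrArg Subtype.val h
        exact hc1 (mul_eq_right.1 h1.symm)
      have e9 : (⟨s, hs, hss⟩ : X) ≠ ⟨n * s * n⁻¹, hnS s hs, hnn⟩ := fun h =>
        hn1 (congrArg Subtype.val h).symm
      have e10 : (⟨c * s, S.mul_mem hc hs, hcc⟩ : X) ≠ ⟨n * s * n⁻¹, hnS s hs, hnn⟩ := fun h =>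
        hne2 (congrArg Subtype.val h).symm
      have hnd : ([⟨1, S.one_mem, one_mul 1⟩, ⟨c, hc, hc2⟩, ⟨s, hs, hss⟩,
          ⟨c * s, S.mul_mem hc hs, hcc⟩, ⟨n * s * n⁻¹, hnS s hs, hnn⟩] : List X).Nodup := by
        simp only [List.nodup_cons, List.mem_cons, List.not_mem_nil, or_false, not_or,
          List.nodup_nil, and_true, not_false_eq_true]
        exact ⟨⟨e1, e2, e3, e4⟩, ⟨e5, e6, e7⟩, ⟨e8, e9⟩, e10⟩
      have h6 := hnd.length_le_card
      rw [← Nat.card_eq_fintype_card] at h6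
      simp only [List.length_cons, List.length_nil] at h6
      have h7 : Nat.card X ≤ 4 := hcard
      omega
    -- `n ^ 2` commutes with `s`
    have hnc' : n * c = c * n := by
      calc n * c = (n * c * n⁻¹) * n := by group
        _ = c * n := by rw [hnc]
    have hns' : n * s = c * s * n := by
      calc n * s = (n * s * n⁻¹) * n := by group
        _ = c * s * n := by rw [hns]
    have c2 : Commute (n ^ 2) s := by
      show n ^ 2 * s = s * n ^ 2
      calc n ^ 2 * s = n * (n * s) := by rw [pow_two]; group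
        _ = (n * c) * s * n := by rw [hns']; group
        _ = c * (n * s) * n := by rw [hnc']; group
        _ = (c * c) * s * (n * n) := by rw [hns']; group
        _ = s * n ^ 2 := by rw [hc2, one_mul, pow_two]
    have c3 : Commute (n ^ r) s := hnr s hs
    obtain ⟨i, hi⟩ := hr
    have h5 : n = ((n ^ 2) ^ i)⁻¹ * n ^ r := by
      rw [hi, ← pow_mul, pow_succ, inv_mul_cancel_left]
    apply hne
    rw [h5]
    exact ((c2.pow_left i).inv_left.mul_left c3).eq
  -- all elements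
  have hB : ∀ k : ℕ, ∀ s ∈ S, s ^ 2 ^ k = 1 → n * s = s * n := by
    intro k
    induction k with
    | zero =>
      intro s _ h1
      rw [pow_zero, pow_one] at h1
      rw [h1, mul_one, one_mul]
    | succ k ih =>
      intro s hs h1
      have h2 : n * (s * s) = (s * s) * n := ih (s * s) (S.mul_mem hs hs) (by
        rw [← h1, pow_succ, mul_comm, pow_mul, pow_two])
      set u := s⁻¹ * (n * s * n⁻¹) with hu
      have huS : u ∈ S := S.mul_mem (S.inv_mem hs) (hnS s hs)
      have hsn : s * (n * s * n⁻¹) = (n * s * n⁻¹) * s := hab s hs _ (hnS s hs)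
      have huu : u * u = 1 := by
        have c1 : Commute s (n * s * n⁻¹) := hsn
        have c4 : Commute s⁻¹ (n * s * n⁻¹) := c1.inv_left
        calc u * u = s⁻¹ * ((n * s * n⁻¹) * s⁻¹) * (n * s * n⁻¹) := by rw [hu]; group
          _ = s⁻¹ * (s⁻¹ * (n * s * n⁻¹)) * (n * s * n⁻¹) := by rw [c4.eq]
          _ = s⁻¹ * s⁻¹ * (n * (s * s)) * n⁻¹ := by group
          _ = s⁻¹ * s⁻¹ * ((s * s) * n) * n⁻¹ := by rw [h2]
          _ = 1 := by group
      have hnu := hA u huS huu
      have hns : n * s = s * u * n := by rw [hu]; group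
      have hj : ∀ j : ℕ, n ^ j * s = s * u ^ j * n ^ j := by
        intro j
        induction j with
        | zero => simp
        | succ j ih2 =>
          have c5 : Commute n (u ^ j) := (show Commute n u from hnu).pow_right j
          calc n ^ (j + 1) * s = n * (n ^ j * s) := by rw [pow_succ']; group
            _ = (n * s) * u ^ j * n ^ j := by rw [ih2]; group
            _ = s * u * (n * u ^ j) * n ^ j := by rw [hns]; group
            _ = s * u * (u ^ j * n) * n ^ j := by rw [c5.eq]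
            _ = s * u ^ (j + 1) * n ^ (j + 1) := by rw [pow_succ' u, pow_succ' n]; group
      have h3 := hj r
      rw [hnr s hs] at h3
      have h4 : s = s * u ^ r := mul_right_cancel h3
      have h5 : u ^ r = 1 := mul_eq_left.1 h4.symm
      obtain ⟨i, rfl⟩ := hr
      rw [pow_succ, pow_mul, pow_two, huu, one_pow, one_mul] at h5
      rw [hns, h5, mul_one]
  intro s hs
  obtain ⟨k, hk⟩ := hS2 ⟨s, hs⟩
  exact hB k s hs (by simpa using congrArg Subtype.val hk)

namespace TE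

/-- two generators of `T` modulo `S` -/
theorem exists_gen [Finite Q] (h : AL G L J e) (d : TE G J e S T)
    (hcard : Nat.card {s : Perm Q // s ∈ S ∧ s * s = 1} ≤ 4) :
    ∃ t1 ∈ T, ∃ t2 ∈ T, ∀ K : Subgroup (Perm Q), S ≤ K → t1 ∈ K → t2 ∈ K → T ≤ K := by
  classical
  let N : Subgroup T := S.subgroupOf T
  have hN : N.Normal := ⟨by
    intro s hs g
    rw [Subgroup.mem_subgroupOf] at hs ⊢
    have h1 := d.cen g g.2 s hs
    have h2 : ((g * s * g⁻¹ : T) : Perm Q) = s := by
      push_cast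
      rw [h1, mul_inv_cancel_right]
    rw [h2]
    exact hs⟩
  have hcomm : ∀ a b : T ⧸ N, a * b = b * a := by
    intro a b
    induction a using QuotientGroup.induction_on with
    | H a =>
      induction b using QuotientGroup.induction_on with
      | H b =>
        rw [← QuotientGroup.mk_mul, ← QuotientGroup.mk_mul, QuotientGroup.eq,
          Subgroup.mem_subgroupOf]
        have h1 := d.com (b : Perm Q)⁻¹ (T.inv_mem b.2) (a : Perm Q)⁻¹ (T.inv_mem a.2)
        have h2 : (((a * b)⁻¹ * (b * a) : T) : Perm Q) =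
            (b : Perm Q)⁻¹ * (a : Perm Q)⁻¹ * ((b : Perm Q)⁻¹)⁻¹ * ((a : Perm Q)⁻¹)⁻¹ := by
          push_cast
          group
        rw [h2]
        exact h1
  let inst : CommGroup (T ⧸ N) := { (inferInstance : Group (T ⧸ N)) with mul_comm := hcomm }
  have hker : ∀ t : T, ((QuotientGroup.mk t : T ⧸ N) ∈ (powMonoidHom 2 : (T ⧸ N) →* (T ⧸ N)).ker) →
      (t : Perm Q) * t ∈ S := by
    intro t ht
    rw [MonoidHom.mem_ker] at ht
    change (QuotientGroup.mk t : T ⧸ N) ^ 2 = 1 at ht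
    rw [pow_two] at ht
    change (QuotientGroup.mk (t * t) : T ⧸ N) = 1 at ht
    rw [QuotientGroup.eq_one_iff, Subgroup.mem_subgroupOf] at ht
    exact ht
  have hSe : ∀ s ∈ S, s e = e := fun s hs => (d.hS.1 hs).2
  have hfix : ∀ t : T, (t : Perm Q) * t ∈ S → D L J ((t : Perm Q) e) * J ∈ S ∧
      (D L J ((t : Perm Q) e) * J) * (D L J ((t : Perm Q) e) * J) = 1 := by
    intro t ht
    set p := (t : Perm Q) e with hp
    have hSp : ∀ s ∈ S, s p = p := by
      intro s hs
      rw [hp, ← Perm.mul_apply, ← d.cen t t.2 s hs, Perm.mul_apply, hSe s hs]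
    have hti : ((t : Perm Q)⁻¹) e = p := by
      have h1 := hSe _ (S.inv_mem ht)
      have h2 : (t : Perm Q)⁻¹ = t * ((t : Perm Q) * t)⁻¹ := by group
      rw [h2, Perm.mul_apply, h1]
    have hJp : J p = p := by
      have h1 := d.inv t t.2
      have h2 : J * t * J = (J * t * J * t) * (t : Perm Q)⁻¹ := by group
      have h3 : J p = (J * t * J) e := by
        change J p = J ((t : Perm Q) (J e))
        rw [h.Je]
      rw [h3, h2, Perm.mul_apply, hti, hSp _ h1]
    by_cases hpe : p = e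
    · rw [hpe, h.D_e, h.JJ1]
      exact ⟨S.one_mem, one_mul 1⟩
    · exact ⟨h.zS d.hS hSp hJp hpe, h.Z_sq (h.zx_mem hJp hpe)⟩
  have hcard4 : Nat.card (powMonoidHom 2 : (T ⧸ N) →* (T ⧸ N)).ker ≤ 4 := by
    refine le_trans ?_ hcard
    have hout : ∀ a : T ⧸ N, (QuotientGroup.mk (Quotient.out a) : T ⧸ N) = a := fun a =>
      Quotient.out_eq a
    refine Nat.card_le_card_of_injective
      (fun a => (⟨D L J (((Quotient.out a.1 : T) : Perm Q) e) * J,
        hfix _ (hker _ (by rw [hout]; exact a.2))⟩ : {s : Perm Q // s ∈ S ∧ s * s = 1})) ?_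
    intro a b hab
    have h1 : D L J (((Quotient.out a.1 : T) : Perm Q) e) * J =
        D L J (((Quotient.out b.1 : T) : Perm Q) e) * J :=
      congrArg Subtype.val hab
    have h2 := h.D_inj (mul_right_cancel h1)
    apply Subtype.ext
    rw [← hout a.1, ← hout b.1, QuotientGroup.eq, Subgroup.mem_subgroupOf]
    have h3 : (((Quotient.out a.1 : T)⁻¹ * (Quotient.out b.1 : T) : T) : Perm Q) e = e := by
      change ((Quotient.out a.1 : T) : Perm Q)⁻¹ (((Quotient.out b.1 : T) : Perm Q) e) = e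
      rw [Perm.inv_eq_iff_eq]
      exact h2.symm
    exact d.TH _ ((Quotient.out a.1 : T)⁻¹ * (Quotient.out b.1 : T)).2 h3
  have hidx := card_quot_range 4 hcard4
  obtain ⟨a1, a2, hgen⟩ := gen_two (A := T ⧸ N) (by
    intro a
    induction a using QuotientGroup.induction_on with
    | H a =>
      obtain ⟨k, hk⟩ := d.hT.2.1 a
      refine ⟨k, ?_⟩
      have h1 : (QuotientGroup.mk (a ^ 2 ^ k) : T ⧸ N) = 1 := by
        rw [hk]; exact QuotientGroup.mk_one N
      exact h1) hidx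
  refine ⟨(Quotient.out a1 : T), (Quotient.out a1 : T).2, (Quotient.out a2 : T),
    (Quotient.out a2 : T).2, ?_⟩
  intro K hSK h1 h2 t ht
  have htop := hgen ((K.subgroupOf T).map (QuotientGroup.mk' N))
    ⟨Quotient.out a1, h1, Quotient.out_eq a1⟩ ⟨Quotient.out a2, h2, Quotient.out_eq a2⟩
  have hmem : (QuotientGroup.mk' N ⟨t, ht⟩) ∈ (K.subgroupOf T).map (QuotientGroup.mk' N) := by
    rw [htop]; exact Subgroup.mem_top _
  obtain ⟨k, hk, hkt⟩ := hmem
  rw [QuotientGroup.mk'_apply, QuotientGroup.mk'_apply, QuotientGroup.eq,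
    Subgroup.mem_subgroupOf] at hkt
  have h3 : t = (k : Perm Q) * ((k⁻¹ * ⟨t, ht⟩ : T) : Perm Q) := by
    push_cast; group
  rw [h3]
  exact K.mul_mem hk (hSK hkt)

theorem T_comm [Finite Q] (h : AL G L J e) (d : TE G J e S T)
    (hcard : Nat.card {s : Perm Q // s ∈ S ∧ s * s = 1} ≤ 4) {n : Perm Q} (hn : n ∈ Inn G e)
    (hnS : ∀ s ∈ S, n * s * n⁻¹ ∈ S) {s0 : Perm Q} (hs0 : s0 ∈ S) (hns0 : n * s0 ≠ s0 * n) :
    ∀ a ∈ T, ∀ b ∈ T, a * b = b * a := by
  classical
  obtain ⟨t1, ht1, t2, ht2, hgen⟩ := d.exists_gen h hcard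
  have hcz := comm_zpowers d.ST d.cen d.com ht1 ht2 hgen
  set c := t1 * t2 * t1⁻¹ * t2⁻¹ with hc
  have hcS : c ∈ S := d.com t1 ht1 t2 ht2
  by_cases hc1 : c = 1
  · intro a ha b hb
    have h1 := hcz a ha b hb
    rw [hc1, Subgroup.zpowers_one_eq_bot, Subgroup.mem_bot] at h1
    calc a * b = (a * b * a⁻¹ * b⁻¹) * (b * a) := by group
      _ = b * a := by rw [h1, one_mul]
  exfalso
  obtain ⟨k, hk⟩ := isPGroup_elem d.hS.2.1 hcS
  -- the involution
  obtain ⟨j, hj1, hj2⟩ : ∃ j : ℕ, c ^ 2 ^ j ≠ 1 ∧ c ^ 2 ^ j * c ^ 2 ^ j = 1 := by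
    have hex : ∃ m : ℕ, c ^ 2 ^ m = 1 := ⟨k, hk⟩
    have h1 := Nat.find_spec hex
    have h2 : Nat.find hex ≠ 0 := by
      intro h0
      rw [h0, pow_zero, pow_one] at h1
      exact hc1 h1
    obtain ⟨m, hm⟩ := Nat.exists_eq_succ_of_ne_zero h2
    refine ⟨m, Nat.find_min hex (by omega), ?_⟩
    rw [hm, Nat.succ_eq_add_one, pow_succ, pow_mul, pow_two] at h1
    exact h1
  set c1 := c ^ 2 ^ j with hc1def
  have hc1z : c1 ∈ Subgroup.zpowers c := Subgroup.pow_mem _ (Subgroup.mem_zpowers c) _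
  have hc1S : c1 ∈ S := S.pow_mem hcS _
  -- an element that normalises `T`
  have hnG := (mem_Inn.1 hn).1
  have hC : ∀ a, a ∈ (G ⊓ Subgroup.centralizer (S : Set (Perm Q)) : Subgroup (Perm Q)) ↔
      a ∈ G ∧ ∀ s ∈ S, s * a = a * s := by
    intro a
    rw [Subgroup.mem_inf, Subgroup.mem_centralizer_iff]
    exact Iff.rfl
  have hTC : IsSyl (G ⊓ Subgroup.centralizer (S : Set (Perm Q)) : Subgroup (Perm Q)) T :=
    d.hT.mono (fun t ht => (hC t).2 ⟨d.hT.1 ht, fun s hs => (d.cen t ht s hs).symm⟩) inf_le_left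
  obtain ⟨g, hg, hgT⟩ := hTC.conj_mem d.hT.2.1 n⁻¹ (by
    intro t ht
    rw [inv_inv]
    refine (hC _).2 ⟨G.mul_mem (G.mul_mem hnG (d.hT.1 ht)) (G.inv_mem hnG), ?_⟩
    intro s hs
    have h1 := norm_symm hnS s hs
    have h2 := d.cen t ht _ h1
    calc s * (n * t * n⁻¹) = n * ((n⁻¹ * s * n) * t) * n⁻¹ := by group
      _ = n * (t * (n⁻¹ * s * n)) * n⁻¹ := by rw [h2]
      _ = n * t * n⁻¹ * s := by group)
  obtain ⟨hgG, hgS⟩ := (hC g).1 hg
  have hmT : ∀ t ∈ T, (g * n) * t * (g * n)⁻¹ ∈ T := by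
    intro t ht
    have h1 := hgT t ht
    rw [inv_inv] at h1
    have h2 : (g * n) * t * (g * n)⁻¹ = g * (n * t * n⁻¹) * g⁻¹ := by group
    rw [h2]; exact h1
  have hmc : (g * n) * c * (g * n)⁻¹ ∈ Subgroup.zpowers c := by
    have h1 := hcz _ (hmT t1 ht1) _ (hmT t2 ht2)
    have h2 : (g * n) * c * (g * n)⁻¹ = (g * n * t1 * (g * n)⁻¹) * (g * n * t2 * (g * n)⁻¹) *
        (g * n * t1 * (g * n)⁻¹)⁻¹ * (g * n * t2 * (g * n)⁻¹)⁻¹ := by
      rw [hc]; group
    rw [h2]; exact h1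
  have hmc1 : (g * n) * c1 * (g * n)⁻¹ = c1 := by
    have h1 : (g * n) * c1 * (g * n)⁻¹ = ((g * n) * c * (g * n)⁻¹) ^ 2 ^ j := by
      rw [conj_pow]
    refine invol_zpowers hk ?_ hc1z ?_ hj1 ?_ hj2
    · rw [h1]; exact Subgroup.pow_mem _ hmc _
    · intro h2
      apply hj1
      calc c1 = (g * n)⁻¹ * ((g * n) * c1 * (g * n)⁻¹) * (g * n) := by group
        _ = 1 := by rw [h2]; group
    · have h2 : (g * n) * c1 * (g * n)⁻¹ * ((g * n) * c1 * (g * n)⁻¹) =
          (g * n) * (c1 * c1) * (g * n)⁻¹ := by group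
      rw [h2, hj2]; group
  have hnc1 : n * c1 * n⁻¹ = c1 := by
    have h1 := hgS _ (hnS c1 hc1S)
    calc n * c1 * n⁻¹ = g⁻¹ * (g * (n * c1 * n⁻¹)) := by group
      _ = g⁻¹ * ((n * c1 * n⁻¹) * g) := by rw [← h1]
      _ = g⁻¹ * (g * n * c1 * (g * n)⁻¹) * g := by
          have h3 : g * n * c1 * (g * n)⁻¹ = n * c1 * n⁻¹ := by
            calc g * n * c1 * (g * n)⁻¹ = (g * (n * c1 * n⁻¹)) * g⁻¹ := by group
              _ = ((n * c1 * n⁻¹) * g) * g⁻¹ := by rw [← h1]
              _ = n * c1 * n⁻¹ := by group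
          rw [h3]; group
      _ = g⁻¹ * c1 * g := by rw [hmc1]
      _ = g⁻¹ * (c1 * g) := by group
      _ = g⁻¹ * (g * c1) := by rw [hgS c1 hc1S]
      _ = c1 := by group
  -- an odd power of `n` centralises `S`
  obtain ⟨r, hr, i, hi⟩ := exists_odd_pow n
  have hnr : n ^ r ∈ S := by
    refine d.hS.mem_of_norm ((Inn G e).pow_mem hn r) ?_ (n := i) hi
    intro s hs
    have hpow : ∀ j : ℕ, ∀ s ∈ S, n ^ j * s * (n ^ j)⁻¹ ∈ S := by
      intro j
      induction j with
      | zero => intro s hs; simpa using hs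
      | succ j ih =>
        intro s hs
        have h1 : n ^ (j + 1) * s * (n ^ (j + 1))⁻¹ = n * (n ^ j * s * (n ^ j)⁻¹) * n⁻¹ := by
          rw [pow_succ']; group
        rw [h1]; exact hnS _ (ih s hs)
    exact hpow r s hs
  apply hns0
  exact cent_of_fix d.hS.2.1 d.hab hcard hnS hr (fun s hs => d.hab _ hnr s hs) hc1S hj1 hj2 hnc1
    s0 hs0

end TE

namespace AL

theorem syl_comm [Finite Q] (h : AL G L J e) (hcardQ : 2 ∣ Nat.card Q) (hS : IsSyl (Inn G e) S)
    (hab : ∀ a ∈ S, ∀ b ∈ S, a * b = b * a)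
    (hcard : Nat.card {s : Perm Q // s ∈ S ∧ s * s = 1} ≤ 4) {P : Subgroup (Perm Q)}
    (hP : IsPGroup 2 P) (hPG : P ≤ G) : ∀ a ∈ P, ∀ b ∈ P, a * b = b * a := by
  obtain ⟨x, hxe, hJx, hSx⟩ := h.exists_x2 hcardQ hS
  obtain ⟨T, d⟩ := h.exists_TE hS hab hJx hxe
  have hb := h.burnside hcardQ hS hab
  unfold HC at hb
  push Not at hb
  obtain ⟨n, hn, hnS, s0, hs0, hns0⟩ := hb
  have hT := d.T_comm h hcard hn hnS hs0 hns0
  obtain ⟨c, hc, hcT⟩ := d.hT.conj_mem hP 1 (by
    intro p hp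
    rw [inv_one, one_mul, mul_one]
    exact hPG hp)
  intro a ha b hb
  have h1 := hcT a ha
  have h2 := hcT b hb
  rw [inv_one, one_mul, mul_one] at h1 h2
  have h3 := hT _ h1 _ h2
  calc a * b = c⁻¹ * ((c * a * c⁻¹) * (c * b * c⁻¹)) * c := by group
    _ = c⁻¹ * ((c * b * c⁻¹) * (c * a * c⁻¹)) * c := by rw [h3]
    _ = b * a := by group

theorem order_or [Finite Q] (h : AL G L J e) (hcardQ : 2 ∣ Nat.card Q) :
    8 ∣ Nat.card (Inn G e) ∨ 12 ∣ Nat.card (Inn G e) ∧
      ∀ P : Subgroup (Perm Q), IsPGroup 2 P → P ≤ G → ∀ a ∈ P, ∀ b ∈ P, a * b = b * a := by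
  rcases h.inner_order hcardQ with h8 | h12
  · exact Or.inl h8
  by_cases h8 : 8 ∣ Nat.card (Inn G e)
  · exact Or.inl h8
  right
  refine ⟨h12, ?_⟩
  have : Fact (Nat.Prime 2) := ⟨Nat.prime_two⟩
  obtain ⟨S, hS⟩ := exists_syl (Inn G e)
  obtain ⟨k, hk⟩ := IsPGroup.iff_card.1 hS.2.1
  have hdvd : Nat.card S ∣ Nat.card (Inn G e) := Subgroup.card_dvd_of_le hS.1
  have hk2 : k ≤ 2 := by
    by_contra hlt
    apply h8
    rw [hk] at hdvd
    exact dvd_trans (pow_dvd_pow 2 (show 3 ≤ k by omega)) hdvd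
  have hle : Nat.card S ≤ 4 := by
    rw [hk]
    exact le_trans (Nat.pow_le_pow_right (by norm_num) hk2) (by norm_num)
  have hcomm : ∀ a b : S, a * b = b * a := by
    have h0 : k = 0 ∨ k = 1 ∨ k = 2 := by omega
    rcases h0 with h0 | h0 | h0
    · rw [h0, pow_zero] at hk
      have : Subsingleton S := (Nat.card_eq_one_iff_unique.1 hk).1
      intro a b
      exact Subsingleton.elim _ _
    · rw [h0, pow_one] at hk
      have : IsCyclic S := isCyclic_of_prime_card (p := 2) hk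
      intro a b
      obtain ⟨g, hg⟩ := IsCyclic.exists_generator (α := S)
      obtain ⟨i, rfl⟩ := Subgroup.mem_zpowers_iff.1 (hg a)
      obtain ⟨j, rfl⟩ := Subgroup.mem_zpowers_iff.1 (hg b)
      rw [← zpow_add, ← zpow_add, add_comm]
    · rw [h0] at hk
      exact IsPGroup.commutative_of_card_eq_prime_sq (p := 2) hk
  intro P hP hPG
  refine h.syl_comm hcardQ hS ?_ ?_ hP hPG
  · intro a ha b hb
    exact congrArg Subtype.val (hcomm ⟨a, ha⟩ ⟨b, hb⟩)
  · refine le_trans ?_ hle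
    refine Nat.card_le_card_of_injective
      (fun s : {s : Perm Q // s ∈ S ∧ s * s = 1} => (⟨s.1, s.2.1⟩ : S)) ?_
    intro s s' hss
    have h1 : (s : Perm Q) = s' := congrArg (fun t : S => (t : Perm Q)) hss
    exact Subtype.ext h1

end AL

end ALoop
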